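import Pool.Agent.H92BI.Final1

set_option autoImplicit false

namespace Pool.Agent.H92BI

open Finset

/-- products whose factors are first small and then large -/
theorem valley_prod (r : ℕ → ℝ) (N : ℕ) (hV : ∀ m m', m ≤ m' → m' < N → 1 < |r m| → 1 ≤ |r m'|)
    (hN : |∏ m ∈ range N, r m| ≤ 1) : ∀ M, M ≤ N → |∏ m ∈ range M, r m| ≤ 1 := by
  intro M hM
  by_cases h : ∃ m, m < M ∧ 1 < |r m|
  · obtain ⟨m, hm, h1⟩ := h
    have key : ∀ t, M + t ≤ N → |∏ m ∈ range M, r m| ≤ |∏ m ∈ range (M + t), r m| := by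
      intro t
      induction t with
      | zero => intro _; exact le_rfl
      | succ t ih =>
        intro ht
        have h2 := ih (by omega)
        rw [← add_assoc, prod_range_succ, abs_mul]
        have h3 := hV m (M + t) (by omega) (by omega) h1
        have h4 := abs_nonneg (∏ m ∈ range (M + t), r m)
        nlinarith
    have := key (N - M) (by omega)
    rw [show M + (N - M) = N by omega] at this
    exact le_trans this hN
  · push Not at h
    rw [abs_prod]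
    exact prod_le_one (fun _ _ => abs_nonneg _) (fun m hm => h m (mem_range.1 hm))

/-- the numbers `γ_k` -/
noncomputable def ga (κ q x : ℝ) (k : ℕ) : ℝ := x - (q - k) * (κ + k)

theorem gb_ga (κ q x : ℝ) {I m : ℕ} (h : m ≤ I) : gb (κ + q) x (q - I) (κ + I) m = ga κ q x (I - m) := by
  unfold gb fb ga
  rw [Nat.cast_sub h]
  ring

theorem F1 (κ q x : ℝ) (k m : ℕ) : ga κ q x (k + m) - fb (κ + q) x m = (κ + k) * (2 * m - q + k) := by
  unfold ga fb
  push_cast
  ring

section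
variable {n : ℕ} {κ q x : ℝ}

theorem F2' (_hκ : (n : ℝ) < κ) (hx : (κ + n) * q ≤ 2 * x) (k m : ℕ) :
    q * (n - k) + k * (κ + k) - 2 * m * (q - k - m) ≤ ga κ q x (k + m) + fb (κ + q) x m := by
  unfold ga fb
  push_cast
  nlinarith

theorem F2 (hκ : (n : ℝ) < κ) (hq1 : (n : ℝ) < q) (hq2 : q < 2 * n) (hx : (κ + n) * q ≤ 2 * x) (k m : ℕ) :
    0 < ga κ q x (k + m) + fb (κ + q) x m := by
  have h1 := F2' hκ hx k m
  have hn : (0 : ℝ) ≤ n := by positivity
  have hk : (0 : ℝ) ≤ k := by positivity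
  have h2 : 0 ≤ (q - k - 2 * m) ^ 2 := sq_nonneg _
  have h3 : 0 < q * (2 * n - q) := mul_pos (by linarith) (by linarith)
  have h4 : 0 ≤ (k : ℝ) * κ := mul_nonneg hk (by linarith)
  nlinarith [sq_nonneg (k : ℝ)]

/-- comparison of the factors on a diagonal -/
theorem small_ratio (hκ : (n : ℝ) < κ) (hq1 : (n : ℝ) < q) (hq2 : q < 2 * n) (hx : (κ + n) * q ≤ 2 * x) {k m : ℕ}
    (h : 2 * (m : ℝ) ≤ q - k) : |ga κ q x (k + m)| ≤ fb (κ + q) x m := by
  have h1 := F1 κ q x k m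
  have h2 := F2 hκ hq1 hq2 hx k m
  have hk : (0 : ℝ) ≤ k := by positivity
  have hn : (0 : ℝ) ≤ n := by positivity
  have h3 : (κ + k) * (2 * m - q + k) ≤ 0 := mul_nonpos_of_nonneg_of_nonpos (by linarith) (by linarith)
  rw [abs_le]
  constructor <;> linarith

theorem large_ratio (hκ : (n : ℝ) < κ) (hq1 : (n : ℝ) < q) (hq2 : q < 2 * n) (hx : (κ + n) * q ≤ 2 * x) {k m : ℕ}
    (h : q - k ≤ 2 * (m : ℝ)) : |fb (κ + q) x m| ≤ ga κ q x (k + m) := by
  have h1 := F1 κ q x k m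
  have h2 := F2 hκ hq1 hq2 hx k m
  have hk : (0 : ℝ) ≤ k := by positivity
  have hn : (0 : ℝ) ≤ n := by positivity
  have h3 : 0 ≤ (κ + k) * (2 * m - q + k) := mul_nonneg (by linarith) (by linarith)
  rw [abs_le]
  constructor <;> linarith

/-- the last row -/
theorem row_n (hκ : (n : ℝ) < κ) (hq1 : (n : ℝ) < q)
    (hf : ∀ m, m ≤ n → fb (κ + q) x m ≠ 0)
    (hdd : |Tb (κ + q) x (q - n) (κ + n) (n + 1)| ≤ 1) :
    ∀ M, M ≤ n + 1 → |Tb (κ + q) x (q - n) (κ + n) M| ≤ 1 := by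
  unfold Tb at hdd ⊢
  apply valley_prod (fun m => gb (κ + q) x (q - n) (κ + n) m / fb (κ + q) x m) _ _ hdd
  intro m m' hmm hm' h1
  have hn : (0 : ℝ) ≤ n := by positivity
  have f1 := hf m (by omega)
  have f2 := hf m' (by omega)
  have c1 : (m : ℝ) ≤ m' := by exact_mod_cast hmm
  have c2 : (m' : ℝ) ≤ n := by exact_mod_cast (by omega : m' ≤ n)
  have c0 : (0 : ℝ) ≤ m := by positivity
  have d1 : 0 ≤ fb (κ + q) x m - gb (κ + q) x (q - n) (κ + n) m := by
    unfold gb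
    have : 0 ≤ (q - n) * (κ + n - 2 * m) := mul_nonneg (by linarith) (by linarith)
    linarith
  have d2 : 0 ≤ fb (κ + q) x m' - gb (κ + q) x (q - n) (κ + n) m' := by
    unfold gb
    have : 0 ≤ (q - n) * (κ + n - 2 * m') := mul_nonneg (by linarith) (by linarith)
    linarith
  have s1 : fb (κ + q) x m + gb (κ + q) x (q - n) (κ + n) m < 0 := by
    by_contra hcon
    push Not at hcon
    rw [abs_div, lt_div_iff₀ (abs_pos.2 f1), one_mul] at h1
    have : |gb (κ + q) x (q - n) (κ + n) m| ≤ |fb (κ + q) x m| := by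
      rw [abs_of_nonneg (by linarith : 0 ≤ fb (κ + q) x m), abs_le]
      constructor <;> linarith
    linarith
  have s2 : fb (κ + q) x m' + gb (κ + q) x (q - n) (κ + n) m' < 0 := by
    have : fb (κ + q) x m' + gb (κ + q) x (q - n) (κ + n) m' ≤
        fb (κ + q) x m + gb (κ + q) x (q - n) (κ + n) m := by
      unfold gb fb
      have : 0 ≤ ((m' : ℝ) - m) * (κ + n - m - m') := mul_nonneg (by linarith) (by linarith)
      nlinarith
    linarith
  rw [abs_div, le_div_iff₀ (abs_pos.2 f2), one_mul]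
  have : gb (κ + q) x (q - n) (κ + n) m' < 0 := by linarith
  rw [abs_of_neg this, abs_le]
  constructor <;> linarith

/-- diagonal products -/
noncomputable def Wd (κ q x : ℝ) (k M : ℕ) : ℝ := ∏ m ∈ range M, ga κ q x (k + m) / fb (κ + q) x m

theorem Tb_eq_Wd (κ q x : ℝ) {I M : ℕ} (hM : M ≤ I + 1) :
    Tb (κ + q) x (q - I) (κ + I) M = Wd κ q x (I + 1 - M) M := by
  unfold Tb Wd
  rw [prod_div_distrib, prod_div_distrib]
  congr 1
  rw [← prod_range_reflect]
  apply prod_congr rfl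
  intro m hm
  rw [mem_range] at hm
  rw [gb_ga κ q x (by omega)]
  congr 1
  omega

theorem Wd_le (hκ : (n : ℝ) < κ) (hq1 : (n : ℝ) < q) (hq2 : q < 2 * n) (hx : (κ + n) * q ≤ 2 * x)
    (hf : ∀ m, m ≤ n → fb (κ + q) x m ≠ 0)
    (hdd : |Tb (κ + q) x (q - n) (κ + n) (n + 1)| ≤ 1) :
    ∀ k M, k ≤ n → M ≤ n + 1 - k → |Wd κ q x k M| ≤ 1 := by
  intro k M hk hM
  unfold Wd
  apply valley_prod (fun m => ga κ q x (k + m) / fb (κ + q) x m) (n + 1 - k) _ _ M hM
  · intro m m' hmm hm' h1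
    have f1 := hf m (by omega)
    have f2 := hf m' (by omega)
    have c1 : (m : ℝ) ≤ m' := by exact_mod_cast hmm
    have c3 : q - k ≤ 2 * (m : ℝ) := by
      by_contra hcon
      push Not at hcon
      have := small_ratio hκ hq1 hq2 hx hcon.le
      rw [abs_div, lt_div_iff₀ (abs_pos.2 f1), one_mul] at h1
      have h5 := le_abs_self (fb (κ + q) x m)
      linarith
    have h4 := large_ratio hκ hq1 hq2 hx (k := k) (m := m') (by linarith)
    rw [abs_div, le_div_iff₀ (abs_pos.2 f2), one_mul]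
    exact le_trans h4 (le_abs_self _)
  · have := row_n hκ hq1 hf hdd (n + 1 - k) (by omega)
    rw [Tb_eq_Wd κ q x (by omega), show n + 1 - (n + 1 - k) = k by omega] at this
    exact this

/-- all base products -/
theorem Tb_le' (hκ : (n : ℝ) < κ) (hq1 : (n : ℝ) < q) (hq2 : q < 2 * n) (hx : (κ + n) * q ≤ 2 * x)
    (hf : ∀ m, m ≤ n → fb (κ + q) x m ≠ 0)
    (hdd : |Tb (κ + q) x (q - n) (κ + n) (n + 1)| ≤ 1) {I M : ℕ} (hI : I ≤ n) (hM : M ≤ I + 1) :
    |Tb (κ + q) x (q - I) (κ + I) M| ≤ 1 := by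
  rw [Tb_eq_Wd κ q x hM]
  rcases Nat.eq_zero_or_pos M with h0 | h0
  · subst h0; simp [Wd]
  · exact Wd_le hκ hq1 hq2 hx hf hdd _ _ (by omega) (by omega)

end

end Pool.Agent.H92BI
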