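import Pool.Agent.H92BI.Link

set_option autoImplicit false

namespace Pool.Agent.H92BI

open Finset

/-- all entries of an array of odd diameter -/
theorem array_odd {n : ℕ} {θ θs φ ϕ : ℕ → ℝ} {e g a e' g' a' : ℝ}
    (pa1 : ∀ i j, i ≤ 2 * n + 1 → j ≤ 2 * n + 1 → i ≠ j → θ i ≠ θ j ∧ θs i ≠ θs j)
    (pa2 : ∀ i, 1 ≤ i → i ≤ 2 * n + 1 → φ i ≠ 0)
    (pa3 : ∀ i, 1 ≤ i → i ≤ 2 * n + 1 → φ i =
      ϕ 1 * ∑ h ∈ range i, (θ h - θ (2 * n + 1 - h)) / (θ 0 - θ (2 * n + 1)) + (θs i - θs 0) * (θ (i - 1) - θ (2 * n + 1)))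
    (hθ : ∀ i, i ≤ 2 * n + 1 → θ i = e + g * (-1) ^ i * (a - i))
    (hθs : ∀ i, i ≤ 2 * n + 1 → θs i = e' + g' * (-1) ^ i * (a' - i)) :
    g ≠ 0 ∧ g' ≠ 0 ∧ ∃ x : ℝ, φ 1 = -4 * g * g' * x ∧
      (∀ m, m ≤ n → fb ((a - 1 / 2) + (a' - 1 / 2) - n) x m ≠ 0) ∧
      ∀ I M, I ≤ n → M ≤ n → ∀ b b' : ℕ, b ≤ 1 → b' ≤ 1 →
        ∑ k ∈ range (2 * I + b + 1), (∏ h ∈ range k, (θ (2 * M + b') - θ h)) * (∏ h ∈ range k, (θs (2 * I + b) - θs h)) /
          ∏ h ∈ range k, φ (h + 1) = Ent n (a - 1 / 2) (a' - 1 / 2) x I M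
            (if b = 0 then (I : ℝ) else (a' - 1 / 2) - I) (if b' = 0 then (M : ℝ) else (a - 1 / 2) - M) := by
  have hg : g ≠ 0 := by
    intro h0
    apply (pa1 0 1 (by omega) (by omega) (by omega)).1
    rw [hθ 0 (by omega), hθ 1 (by omega), h0]; ring
  have hg' : g' ≠ 0 := by
    intro h0
    apply (pa1 0 1 (by omega) (by omega) (by omega)).2
    rw [hθs 0 (by omega), hθs 1 (by omega), h0]; ring
  have hvs := vsum hθ (pa1 0 (2 * n + 1) (by omega) le_rfl (by omega)).1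
  refine ⟨hg, hg', -φ 1 / (4 * g * g'), by field_simp, ?_⟩
  set x := -φ 1 / (4 * g * g') with hx
  have hφx : φ 1 = -4 * g * g' * x := by rw [hx]; field_simp
  have hϕ1 : φ 1 = ϕ 1 + (θs 1 - θs 0) * (θ 0 - θ (2 * n + 1)) := by
    have := pa3 1 le_rfl (by omega)
    have h2 := (hvs 0 (Nat.zero_le _)).2
    rw [show 2 * 0 + 1 = 1 from rfl] at h2
    rw [h2] at this
    rw [this]; simp
  have s0 : θs 0 = e' + g' * a' := by rw [hθs 0 (by omega)]; push_cast; ring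
  have s1 : θs 1 = e' - g' * (a' - 1) := by rw [hθs 1 (by omega)]; push_cast; ring
  have t0 : θ 0 = e + g * a := by rw [hθ 0 (by omega)]; push_cast; ring
  have hφ1 : ∀ m, m ≤ n → φ (2 * m + 1) = -4 * g * g' * fb ((a - 1 / 2) + (a' - 1 / 2) - n) x m := by
    intro m hm
    have h1 := pa3 (2 * m + 1) (by omega) (by omega)
    rw [(hvs m hm).2, show 2 * m + 1 - 1 = 2 * m by omega, seq_odd hθs m hm, seq_even hθ m hm,
      seq_odd hθ n le_rfl, s0] at h1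
    have h2 : ϕ 1 = φ 1 - (θs 1 - θs 0) * (θ 0 - θ (2 * n + 1)) := by linarith
    rw [h1, h2, hφx, s0, s1, t0, seq_odd hθ n le_rfl]
    unfold fb
    ring
  have hφ2 : ∀ m, m < n → φ (2 * m + 2) = 4 * g * g' * ((m + 1) * (n - m)) := by
    intro m hm
    have h1 := pa3 (2 * m + 2) (by omega) (by omega)
    have h3 := (hvs (m + 1) (by omega)).1
    rw [show 2 * (m + 1) = 2 * m + 2 by ring] at h3
    have h4 := seq_even hθs (m + 1) (by omega)
    rw [show 2 * (m + 1) = 2 * m + 2 by ring] at h4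
    rw [h3, show 2 * m + 2 - 1 = 2 * m + 1 by omega, h4, seq_odd hθ m (by omega),
      seq_odd hθ n le_rfl, s0] at h1
    rw [h1]
    push_cast
    ring
  have hf : ∀ m, m ≤ n → fb ((a - 1 / 2) + (a' - 1 / 2) - n) x m ≠ 0 := by
    intro m hm h0
    apply pa2 (2 * m + 1) (by omega) (by omega)
    rw [hφ1 m hm, h0, mul_zero]
  refine ⟨hf, ?_⟩
  intro I M hI hM b b' hb hb'
  have hbb : b = 0 ∨ b = 1 := by omega
  have hbb' : b' = 0 ∨ b' = 1 := by omega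
  rcases hbb with rfl | rfl <;> rcases hbb' with rfl | rfl
  · simp only [if_true, add_zero]
    exact u_eq_Ent hg hg' hφ1 hφ2 hf (by omega) (diff_even hθ hM).1 (diff_even hθ hM).2
      (diff_even hθs hI).1 (diff_even hθs hI).2
  · simp only [if_true, add_zero, one_ne_zero, if_false]
    exact u_eq_Ent hg hg' hφ1 hφ2 hf (by omega) (diff_odd hθ hM).1 (diff_odd hθ hM).2
      (diff_even hθs hI).1 (diff_even hθs hI).2
  · simp only [if_true, add_zero, one_ne_zero, if_false]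
    exact u_eq_Ent hg hg' hφ1 hφ2 hf (by omega) (diff_even hθ hM).1 (diff_even hθ hM).2
      (diff_odd hθs hI).1 (diff_odd hθs hI).2
  · simp only [one_ne_zero, if_false]
    exact u_eq_Ent hg hg' hφ1 hφ2 hf (by omega) (diff_odd hθ hM).1 (diff_odd hθ hM).2
      (diff_odd hθs hI).1 (diff_odd hθs hI).2

end Pool.Agent.H92BI
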