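import Pool.Agent.H92BI.Cert

set_option autoImplicit false

namespace Pool.Agent.H92BI

open Finset

theorem bracket_BB {M u I κ N x : ℝ} (hM : 0 ≤ M) (hMI : M ≤ I) (hMκ : M ≤ κ) (hIN : I ≤ N) (hκN : κ ≤ N)
    (hu : 0 ≤ u) (hx : (κ + N) * (u + I) ≤ 2 * x) :
    |(x - M * (κ + (u + I) - M)) * ((x - u * (κ + I)) + (u - I) * M)
      - (κ + N - 2 * M) * (I * (x - u * (κ + I)) + (u - I) * M * (κ + I - M))|
      ≤ x * (x - M * (κ + (u + I) - M)) := by
  rcases le_or_gt I u with h1 | h1
  · have a := certI1 (M := M) (r := I - M) (w := u - I) (j := N - I) (t := κ - M) (y := x - (κ + N) * (u + I) / 2)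
      hM (by linarith) (by linarith) (by linarith) (by linarith) (by linarith)
    have b := certI2 (M := M) (r := I - M) (w := u - I) (j := N - I) (t := κ - M) (y := x - (κ + N) * (u + I) / 2)
      hM (by linarith) (by linarith) (by linarith) (by linarith) (by linarith)
    rw [show M + (I - M) + (u - I) = u by ring, show M + (I - M) + (N - I) = N by ring,
      show M + (I - M) = I by ring, show M + (κ - M) = κ by ring,
      show (κ + N) * (u + I) * (1 / 2) + (x - (κ + N) * (u + I) / 2) = x by ring] at a b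
    rw [abs_le]
    constructor <;> linarith
  · rcases le_or_gt M u with h2 | h2
    · have a := certII1 (M := M) (U := u - M) (w := I - u) (j := N - I) (t := κ - M) (y := x - (κ + N) * (u + I) / 2)
        hM (by linarith) (by linarith) (by linarith) (by linarith) (by linarith)
      have b := certII2 (M := M) (U := u - M) (w := I - u) (j := N - I) (t := κ - M) (y := x - (κ + N) * (u + I) / 2)
        hM (by linarith) (by linarith) (by linarith) (by linarith) (by linarith)
      rw [show M + (u - M) + (I - u) + (N - I) = N by ring, show M + (u - M) + (I - u) = I by ring,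
        show M + (u - M) = u by ring, show M + (κ - M) = κ by ring,
        show (κ + N) * (u + I) * (1 / 2) + (x - (κ + N) * (u + I) / 2) = x by ring] at a b
      rw [abs_le]
      constructor <;> linarith
    · rcases le_or_gt I κ with h3 | h3
      · have a := certIII1 (U := u) (m := M - u) (r := I - M) (T := κ - I) (e := N - κ) (y := x - (κ + N) * (u + I) / 2)
          hu (by linarith) (by linarith) (by linarith) (by linarith) (by linarith)
        have b := certIII2 (U := u) (m := M - u) (r := I - M) (T := κ - I) (e := N - κ) (y := x - (κ + N) * (u + I) / 2)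
          hu (by linarith) (by linarith) (by linarith) (by linarith) (by linarith)
        rw [show u + (M - u) + (I - M) + (κ - I) + (N - κ) = N by ring, show u + (M - u) + (I - M) + (κ - I) = κ by ring,
          show u + (M - u) + (I - M) = I by ring, show u + (M - u) = M by ring,
          show (κ + N) * (u + I) * (1 / 2) + (x - (κ + N) * (u + I) / 2) = x by ring] at a b
        rw [abs_le]
        constructor <;> linarith
      · have a := certIV1 (U := u) (m := M - u) (t := κ - M) (r := I - κ) (j := N - I) (y := x - (κ + N) * (u + I) / 2)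
          hu (by linarith) (by linarith) (by linarith) (by linarith) (by linarith)
        have b := certIV2 (U := u) (m := M - u) (t := κ - M) (r := I - κ) (j := N - I) (y := x - (κ + N) * (u + I) / 2)
          hu (by linarith) (by linarith) (by linarith) (by linarith) (by linarith)
        rw [show u + (M - u) + (κ - M) + (I - κ) + (N - I) = N by ring, show u + (M - u) + (κ - M) + (I - κ) = I by ring,
          show u + (M - u) + (κ - M) = κ by ring, show u + (M - u) = M by ring,
          show (κ + N) * (u + I) * (1 / 2) + (x - (κ + N) * (u + I) / 2) = x by ring] at a b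
        rw [abs_le]
        constructor <;> linarith

/-- the first bracket -/
theorem bracket0_BB {M u I κ N x : ℝ} (hM : 0 ≤ M) (hMI : M ≤ I) (hMκ : M ≤ κ) (hIN : I ≤ N)
    (hu : 0 ≤ u) (hx : (κ + N) * (u + I) ≤ 2 * x) :
    |(x - u * (κ + I)) + (u - I) * M| ≤ x := by
  have h1 : 0 ≤ u * (κ + I - M) := mul_nonneg hu (by linarith)
  have h2 : 0 ≤ I * M := mul_nonneg (by linarith) hM
  have h3 : 0 ≤ I * (κ + N - M) := mul_nonneg (by linarith) (by linarith)
  have h4 : 0 ≤ u * (N - I) := mul_nonneg hu (by linarith)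
  have h5 : 0 ≤ u * M := mul_nonneg hu hM
  rw [abs_le]
  constructor <;> nlinarith

/-- comparison of numerators with `f` for small index -/
theorem small_BB {M u I κ N x P : ℝ} (hM : 0 ≤ M) (hMI : M ≤ I) (hMκ : M ≤ κ) (hκN : κ ≤ N)
    (hu : 0 ≤ u) (hx : (κ + N) * (u + I) ≤ 2 * x) (hP1 : 2 * M ≤ P) (hP2 : P ≤ κ + N) :
    |(x - M * (κ + (u + I) - M)) - u * (P - 2 * M)| ≤ x - M * (κ + (u + I) - M) := by
  have h1 : 0 ≤ u * (P - 2 * M) := mul_nonneg hu (by linarith)
  have h2 : 0 ≤ (I - M) * (κ - M) := mul_nonneg (by linarith) (by linarith)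
  have h3 : 0 ≤ I * (N - κ) := mul_nonneg (by linarith) (by linarith)
  have h4 : 0 ≤ u * (κ + N - P) := mul_nonneg hu (by linarith)
  rw [abs_le]
  constructor <;> nlinarith

/-- pairing for the last entry -/
theorem pair_BB {m m' n κ u x : ℝ} (h0 : 0 ≤ m) (h0' : 0 ≤ m') (hM : m + m' = n) (hκ0 : 0 ≤ κ) (hκ : κ ≤ n)
    (hu0 : 0 ≤ u) (hu : u ≤ n) (hx : (κ + n) * (u + n) ≤ 2 * x) :
    |((x - m * (u + (κ + n) - m)) - u * ((κ + n) - 2 * m)) * ((x - m' * (u + (κ + n) - m')) - u * ((κ + n) - 2 * m'))|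
      ≤ (x - m * (u + (κ + n) - m)) * (x - m' * (u + (κ + n) - m')) := by
  set v := κ + n with hv
  set X := 2 * x - u * v with hX
  set D := m' - m with hD
  set Z := X - n * v + (n ^ 2 + D ^ 2) / 2 with hZ
  have hn0 : 0 ≤ n := by linarith
  have hX0 : n * v ≤ X := by rw [hX, hv]; rw [hv] at hx; nlinarith
  have e1 : (x - m * (u + v - m)) * (x - m' * (u + v - m'))
      - ((x - m * (u + v - m)) - u * (v - 2 * m)) * ((x - m' * (u + v - m')) - u * (v - 2 * m'))
      = u * (κ * (X - n * v + 2 * (m * m'))) := by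
    rw [hX, hv, ← hM]; ring
  have e2 : (x - m * (u + v - m)) * (x - m' * (u + v - m'))
      + ((x - m * (u + v - m)) - u * (v - 2 * m)) * ((x - m' * (u + v - m')) - u * (v - 2 * m'))
      = (Z ^ 2 - D ^ 2 * κ ^ 2 + u ^ 2 * (κ ^ 2 - D ^ 2)) / 2 := by
    rw [hZ, hX, hD, hv, ← hM]; ring
  have hmm : 0 ≤ m * m' := mul_nonneg h0 h0'
  have g1 : 0 ≤ u * (κ * (X - n * v + 2 * (m * m'))) :=
    mul_nonneg hu0 (mul_nonneg hκ0 (by linarith))
  have hZ0 : (n ^ 2 + D ^ 2) / 2 ≤ Z := by rw [hZ]; linarith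
  have hZ2 : n ^ 2 * D ^ 2 ≤ Z ^ 2 := by
    have h1 : ((n ^ 2 + D ^ 2) / 2) ^ 2 ≤ Z ^ 2 := pow_le_pow_left₀ (by positivity) hZ0 2
    nlinarith [sq_nonneg (n ^ 2 - D ^ 2)]
  have hDn : D ^ 2 ≤ n ^ 2 := by
    have : |D| ≤ n := by rw [hD, abs_le]; constructor <;> linarith
    rw [← sq_abs D]; exact pow_le_pow_left₀ (abs_nonneg _) this 2
  have hκ2 : 0 ≤ n ^ 2 - κ ^ 2 := by nlinarith
  have hu2 : 0 ≤ n ^ 2 - u ^ 2 := by nlinarith
  have g2 : 0 ≤ n ^ 2 * D ^ 2 - D ^ 2 * κ ^ 2 + u ^ 2 * (κ ^ 2 - D ^ 2) := by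
    rcases le_or_gt (κ ^ 2 + u ^ 2) (n ^ 2) with hc | hc
    · have h1 : 0 ≤ (n ^ 2 - κ ^ 2 - u ^ 2) * D ^ 2 := mul_nonneg (by linarith) (sq_nonneg D)
      have h2 : 0 ≤ u ^ 2 * κ ^ 2 := by positivity
      nlinarith
    · have h1 : 0 ≤ (κ ^ 2 + u ^ 2 - n ^ 2) * (n ^ 2 - D ^ 2) := mul_nonneg (by linarith) (by linarith)
      have h2 := mul_nonneg hκ2 hu2
      nlinarith
  have g3 : 0 ≤ Z ^ 2 - D ^ 2 * κ ^ 2 + u ^ 2 * (κ ^ 2 - D ^ 2) := by linarith
  rw [abs_le]
  constructor
  · linarith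
  · linarith

end Pool.Agent.H92BI
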