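import Pool.Agent.H92BI.BB1

set_option autoImplicit false

namespace Pool.Agent.H92BI

open Finset

/-- bounds in the columns of index at most `m0` -/
def HOr (K D : ℕ) (κ : ℝ) (α β : ℕ → ℝ) (m0 : ℕ) (s : ℝ) : Prop :=
  ∀ M : ℕ, M ≤ D → M ≤ m0 → |Lv K D (κ + D) α β M (κ + D - M)| ≤ 1 ∧
    |Lv K D (κ + D) α β M (κ + D - M) - s * Bv K D (κ + D) β M| ≤ 1

theorem HOr_step {K D m0 : ℕ} {κ : ℝ} {α β : ℕ → ℝ} {s : ℝ} (hK : K ≤ D) (hκ : (m0 : ℝ) < κ) (hs : 0 ≤ s)
    (h : HOr K D κ α β m0 (s + 1)) : HOr K (D + 1) κ α β m0 s := by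
  intro M hM hMm
  have hcast : κ + ((D + 1 : ℕ) : ℝ) = κ + D + 1 := by push_cast; ring
  rw [hcast]
  cases M with
  | zero =>
    obtain ⟨h1, h2⟩ := h 0 (Nat.zero_le _) (Nat.zero_le _)
    rw [Lv_zero, Bv_zero] at h2
    rw [Lv_zero] at h1
    rw [Lv_zero, Bv_zero]
    push_cast at h1 h2 ⊢
    have k1 := betw (s := s + 1) (t := 1) (by linarith) h1 h2 (by norm_num) (by linarith)
    constructor
    · have : α 0 - (κ + D + 1 - 0) * β 0 = α 0 - (κ + D - 0) * β 0 - 1 * β 0 := by ring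
      rw [this]; exact k1
    · have : α 0 - (κ + D + 1 - 0) * β 0 - s * β 0 = α 0 - (κ + D - 0) * β 0 - (s + 1) * β 0 := by ring
      rw [this]; exact h2
  | succ M =>
    have hMD : M ≤ D := by omega
    have hMD' : (M : ℝ) ≤ D := by exact_mod_cast hMD
    have hM0 : (0 : ℝ) ≤ M := by positivity
    have hMm' : (M : ℝ) + 1 ≤ m0 := by exact_mod_cast hMm
    have w1 : 0 ≤ (κ + D - M) * ((D : ℝ) - M) := mul_nonneg (by linarith) (by linarith)
    have w2 : 0 ≤ ((M : ℝ) + 1) * (κ + D - D - M - 1) := mul_nonneg (by linarith) (by linarith)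
    have hW : 0 < (κ + D - 1 - 2 * M) * ((D : ℝ) + 1) := mul_pos (by linarith) (by linarith)
    have hWe : (κ + D - 1 - 2 * M) * ((D : ℝ) + 1) = (κ + D - M) * ((D : ℝ) - M) + ((M : ℝ) + 1) * (κ + D - D - M - 1) := by
      ring
    obtain ⟨a1, a2⟩ := h M hMD (by omega)
    have a3 := betw (s := s + 1) (t := s) (by linarith) a1 a2 hs (by linarith)
    have b : (κ + D - M) * ((D : ℝ) - M) = 0 ∨
        (|Lv K D (κ + D) α β (M + 1) (κ + D - (M + 1 : ℕ)) - 1 * Bv K D (κ + D) β (M + 1)| ≤ 1 ∧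
        |Lv K D (κ + D) α β (M + 1) (κ + D - (M + 1 : ℕ)) - (s + 1) * Bv K D (κ + D) β (M + 1)| ≤ 1) := by
      rcases Nat.eq_or_lt_of_le hMD with h1 | h1
      · left; rw [h1]; ring
      · right
        obtain ⟨b1, b2⟩ := h (M + 1) h1 hMm
        exact ⟨betw (s := s + 1) (t := 1) (by linarith) b1 b2 (by norm_num) (by linarith), b2⟩
    have hc : κ + D + 1 - ((M + 1 : ℕ) : ℝ) = κ + D - M := by push_cast; ring
    rw [hc]
    have hL := Lv_pascal K D (κ + D) α β M (κ + D - M) hK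
    have hB := Bv_pascal K D (κ + D) β M hK
    have hsh : Lv K D (κ + D) α β (M + 1) (κ + D - M)
        = Lv K D (κ + D) α β (M + 1) (κ + D - (M + 1 : ℕ)) - 1 * Bv K D (κ + D) β (M + 1) := by
      rw [← Lv_shift]; congr 1; push_cast; ring
    constructor
    · rw [hsh] at hL
      exact mean_le hW hWe w1 w2 hL (b.imp id And.left) a1
    · refine mean_le (z := Lv K (D + 1) (κ + D + 1) α β (M + 1) (κ + D - M) - s * Bv K (D + 1) (κ + D + 1) β (M + 1))
        (a := Lv K D (κ + D) α β (M + 1) (κ + D - (M + 1 : ℕ)) - (s + 1) * Bv K D (κ + D) β (M + 1))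
        (b := Lv K D (κ + D) α β M (κ + D - M) - s * Bv K D (κ + D) β M) hW hWe w1 w2 ?_ (b.imp id And.right) a3
      rw [hsh] at hL
      linear_combination hL - s * hB

theorem HEr_step {K D m0 : ℕ} {κ : ℝ} {α β : ℕ → ℝ} (hK : K ≤ D) (hκ : (m0 : ℝ) < κ)
    (ho : ∀ M, M ≤ D → M ≤ m0 → |Lv K D (κ + D) α β M (κ + D - M)| ≤ 1)
    (he : ∀ M, M ≤ D → M ≤ m0 → |Lv K D (κ + D) α β M M| ≤ 1) :
    ∀ M, M ≤ D + 1 → M ≤ m0 → |Lv K (D + 1) (κ + D + 1) α β M M| ≤ 1 := by
  intro M hM hMm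
  cases M with
  | zero =>
    have h1 := he 0 (Nat.zero_le _) (Nat.zero_le _)
    rw [Lv_zero] at h1
    rw [Lv_zero]
    exact h1
  | succ M =>
    have hMD : M ≤ D := by omega
    have hMD' : (M : ℝ) ≤ D := by exact_mod_cast hMD
    have hM0 : (0 : ℝ) ≤ M := by positivity
    have hMm' : (M : ℝ) + 1 ≤ m0 := by exact_mod_cast hMm
    have w1 : 0 ≤ (κ + D - M) * ((D : ℝ) - M) := mul_nonneg (by linarith) (by linarith)
    have w2 : 0 ≤ ((M : ℝ) + 1) * (κ + D - D - M - 1) := mul_nonneg (by linarith) (by linarith)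
    have hW : 0 < (κ + D - 1 - 2 * M) * ((D : ℝ) + 1) := mul_pos (by linarith) (by linarith)
    have hWe : (κ + D - 1 - 2 * M) * ((D : ℝ) + 1) = (κ + D - M) * ((D : ℝ) - M) + ((M : ℝ) + 1) * (κ + D - D - M - 1) := by
      ring
    have b : (κ + D - M) * ((D : ℝ) - M) = 0 ∨
        |Lv K D (κ + D) α β (M + 1) (M + 1 : ℕ)| ≤ 1 := by
      rcases Nat.eq_or_lt_of_le hMD with h1 | h1
      · left; rw [h1]; ring
      · right; exact he (M + 1) h1 hMm
    have hL := Lv_pascal K D (κ + D) α β M ((M + 1 : ℕ) : ℝ) hK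
    have hs0 : 1 ≤ κ + D - 2 * M := by linarith
    have hsh1 : Lv K D (κ + D) α β M ((M + 1 : ℕ) : ℝ) = Lv K D (κ + D) α β M M - 1 * Bv K D (κ + D) β M := by
      rw [← Lv_shift]; congr 1; push_cast; ring
    have hsh2 : Lv K D (κ + D) α β M (κ + D - M)
        = Lv K D (κ + D) α β M M - (κ + D - 2 * M) * Bv K D (κ + D) β M := by
      rw [← Lv_shift]; congr 1; ring
    have hmid : |Lv K D (κ + D) α β M ((M + 1 : ℕ) : ℝ)| ≤ 1 := by
      rw [hsh1]
      apply betw (s := κ + D - 2 * M) hs0 (he M hMD (by omega)) _ (by norm_num) hs0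
      rw [← hsh2]
      exact ho M hMD (by omega)
    exact mean_le hW hWe w1 w2 hL b hmid

/-- the columns of index at most `m0`, at all levels from `K` to `N` -/
theorem levels_r {K N m0 : ℕ} {κ : ℝ} {α β : ℕ → ℝ} (hKN : K ≤ N) (hκ : (m0 : ℝ) < κ)
    (he : ∀ M, M ≤ K → M ≤ m0 → |Lv K K (κ + K) α β M M| ≤ 1)
    (hk : ∀ M, M ≤ K → M ≤ m0 → |Lv K K (κ + K) α β M (κ + N - M)| ≤ 1) :
    ∀ D, K ≤ D → D ≤ N → ∀ M, M ≤ D → M ≤ m0 →
      |Lv K D (κ + D) α β M M| ≤ 1 ∧ |Lv K D (κ + D) α β M (κ + D - M)| ≤ 1 := by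
  have hKN' : (K : ℝ) ≤ N := by exact_mod_cast hKN
  have hb : HOr K K κ α β m0 ((N : ℝ) - K) := by
    intro M hM hMm
    have hM' : (M : ℝ) ≤ K := by exact_mod_cast hM
    have hMm' : (M : ℝ) ≤ m0 := by exact_mod_cast hMm
    have h1 := he M hM hMm
    have h2 := hk M hM hMm
    have e1 : κ + N - M = (M : ℝ) + (κ + N - 2 * M) := by ring
    have e2 : κ + K - M = (M : ℝ) + (κ + K - 2 * M) := by ring
    rw [e1, Lv_shift] at h2
    constructor
    · rw [e2, Lv_shift]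
      exact betw' (s := κ + N - 2 * M) (by linarith) h1 h2 (by linarith) (by linarith)
    · rw [e2, Lv_shift]
      have : Lv K K (κ + K) α β M M - (κ + K - 2 * M) * Bv K K (κ + K) β M - (N - K) * Bv K K (κ + K) β M
          = Lv K K (κ + K) α β M M - (κ + N - 2 * M) * Bv K K (κ + K) β M := by ring
      rw [this]
      exact h2
  have key : ∀ t, K + t ≤ N → HOr K (K + t) κ α β m0 ((N : ℝ) - K - t) ∧
      (∀ M, M ≤ K + t → M ≤ m0 → |Lv K (K + t) (κ + (K + t : ℕ)) α β M M| ≤ 1) := by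
    intro t
    induction t with
    | zero =>
      intro _
      constructor
      · simpa using hb
      · simpa using he
    | succ t ih =>
      intro ht
      obtain ⟨h1, h2⟩ := ih (by omega)
      have hc : ((K + t : ℕ) : ℝ) + 1 ≤ N := by exact_mod_cast (by omega : K + t + 1 ≤ N)
      have hc' : (K : ℝ) + t + 1 ≤ N := by push_cast at hc; exact hc
      constructor
      · rw [← add_assoc]
        apply HOr_step (by omega) hκ
        · push_cast; linarith
        · have : (N : ℝ) - K - (t + 1 : ℕ) + 1 = (N : ℝ) - K - t := by push_cast; ring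
          rw [this]; exact h1
      · have h3 := HEr_step (K := K) (D := K + t) (κ := κ) (α := α) (β := β) (by omega) hκ
          (fun M hM hMm => (h1 M hM hMm).1) h2
        intro M hM hMm
        have := h3 M hM hMm
        rw [← add_assoc]
        have e : κ + ((K + t : ℕ) : ℝ) + 1 = κ + ((K + t + 1 : ℕ) : ℝ) := by push_cast; ring
        rw [e] at this
        exact this
  intro D hKD hDN M hM hMm
  obtain ⟨t, rfl⟩ : ∃ t, D = K + t := ⟨D - K, by omega⟩
  obtain ⟨h1, h2⟩ := key t hDN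
  exact ⟨h2 M hM hMm, (h1 M hM hMm).1⟩

section
variable {I N m0 : ℕ} {κ q x : ℝ}

/-- the factors `γ / f` -/
theorem ratio_BB (hm0 : (m0 : ℝ) < κ) (hIN : I ≤ N) (hκN : κ ≤ N) (hIq : (I : ℝ) ≤ q) (hx : (κ + N) * q ≤ 2 * x)
    (hf : ∀ m, m ≤ I → fb (κ + q) x m ≠ 0) {m : ℕ} (hmI : m ≤ I) (hm : m ≤ m0) :
    |gb (κ + q) x (q - I) (κ + I) m / fb (κ + q) x m| ≤ 1 := by
  have hm1 : (m : ℝ) ≤ I := by exact_mod_cast hmI
  have hm2 : (m : ℝ) ≤ m0 := by exact_mod_cast hm
  have hIN' : (I : ℝ) ≤ N := by exact_mod_cast hIN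
  have h := small_BB (M := m) (u := q - I) (I := I) (κ := κ) (N := N) (x := x) (P := κ + I) (by positivity) hm1
    (by linarith) hκN (by linarith) (by rw [sub_add_cancel]; exact hx) (by linarith) (by linarith)
  rw [abs_div, div_le_one (abs_pos.2 (hf m hmI))]
  refine le_trans ?_ (le_abs_self _)
  unfold gb fb
  rw [sub_add_cancel] at h
  exact h

/-- the noncentral columns, rows `2 I + 1` -/
theorem odd_BB (hm0 : (m0 : ℝ) < κ) (hIN : I ≤ N) (hκN : κ ≤ N) (hIq : (I : ℝ) ≤ q) (hx : (κ + N) * q ≤ 2 * x)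
    (hf : ∀ m, m ≤ I → fb (κ + q) x m ≠ 0) :
    ∀ D, I ≤ D → D ≤ N → ∀ M, M ≤ D → M ≤ m0 →
      |Lv I D (κ + D) (al I q (κ + q) x (q - I)) (be I q (κ + q) x (q - I)) M M| ≤ 1 ∧
      |Lv I D (κ + D) (al I q (κ + q) x (q - I)) (be I q (κ + q) x (q - I)) M (κ + D - M)| ≤ 1 := by
  have hIN' : (I : ℝ) ≤ N := by exact_mod_cast hIN
  have hE : ∀ M, M ≤ I → M ≤ m0 → Lv I I (κ + I) (al I q (κ + q) x (q - I)) (be I q (κ + q) x (q - I)) M M
      = Tb (κ + q) x (q - I) (κ + I) M := by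
    intro M hM hMm
    have hM' : (M : ℝ) ≤ I := by exact_mod_cast hM
    have hMm' : (M : ℝ) ≤ m0 := by exact_mod_cast hMm
    rw [Lv_base _ _ _ _ _ _ _ hM]
    exact sumE (by ring) (by linarith) (fun m hm => hf m (by omega))
  have hT : ∀ M, M ≤ I → M ≤ m0 → |Tb (κ + q) x (q - I) (κ + I) M| ≤ 1 := by
    intro M hM hMm
    unfold Tb
    rw [abs_prod]
    apply prod_le_one (fun _ _ => abs_nonneg _)
    intro m hm
    rw [mem_range] at hm
    exact ratio_BB hm0 hIN hκN hIq hx hf (by omega) (by omega)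
  apply levels_r hIN hm0
  · intro M hM hMm
    rw [hE M hM hMm]
    exact hT M hM hMm
  · intro M hM hMm
    have hM' : (M : ℝ) ≤ I := by exact_mod_cast hM
    have hMm' : (M : ℝ) ≤ m0 := by exact_mod_cast hMm
    have f1 := hf M hM
    have e : κ + N - M = (M : ℝ) + (κ + N - 2 * M) := by ring
    rw [e, Lv_shift, hE M hM hMm, Bv_base _ _ _ _ _ _ _ hM, sumB (by ring) (fun m hm => hf m (by omega))]
    have e2 : Tb (κ + q) x (q - I) (κ + I) M - (κ + N - 2 * M) * ((q - I) / fb (κ + q) x M * Tb (κ + q) x (q - I) (κ + I) M)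
        = Tb (κ + q) x (q - I) (κ + I) M * ((fb (κ + q) x M - (q - I) * (κ + N - 2 * M)) / fb (κ + q) x M) := by
      field_simp
    rw [e2, abs_mul]
    apply mul_le_one₀ (hT M hM hMm) (abs_nonneg _)
    rw [abs_div, div_le_one (abs_pos.2 f1)]
    have h := small_BB (M := M) (u := q - I) (I := I) (κ := κ) (N := N) (x := x) (P := κ + N) (by positivity) hM'
      (by linarith) hκN (by linarith) (by rw [sub_add_cancel]; exact hx) (by linarith) le_rfl
    rw [sub_add_cancel] at h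
    exact le_trans h (le_abs_self _)

/-- the noncentral columns, rows `2 I` -/
theorem even_BB (hm0 : (m0 : ℝ) < κ) (hIN : I ≤ N) (hκN : κ ≤ N) (hIq : (I : ℝ) ≤ q) (hx0 : 0 < x) (hx : (κ + N) * q ≤ 2 * x)
    (hf : ∀ m, m ≤ I → fb (κ + q) x m ≠ 0) :
    ∀ D, I ≤ D → D ≤ N → ∀ M, M ≤ D → M ≤ m0 →
      |Lv I D (κ + D) (al I q (κ + q) x I) (be I q (κ + q) x I) M M| ≤ 1 ∧
      |Lv I D (κ + D) (al I q (κ + q) x I) (be I q (κ + q) x I) M (κ + D - M)| ≤ 1 := by
  have hIN' : (I : ℝ) ≤ N := by exact_mod_cast hIN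
  have hI0 : (0 : ℝ) ≤ I := by positivity
  have hm00 : (0 : ℝ) ≤ m0 := by positivity
  have hQ : ∀ k, k + 1 ≤ I → k + 1 ≤ m0 → |Qb (κ + q) x (q - I) (κ + I) k| ≤ 1 := by
    intro k hk hkm
    unfold Qb
    rw [abs_prod]
    apply prod_le_one (fun _ _ => abs_nonneg _)
    intro m hm
    rw [mem_range] at hm
    exact ratio_BB hm0 hIN hκN hIq hx hf (by omega) (by omega)
  have hzero : ∀ c : ℝ, 0 ≤ c → c ≤ κ + N → |1 - c * I / x| ≤ 1 := by
    intro c h1 h2
    have h3 : 0 ≤ c * I / x := div_nonneg (mul_nonneg h1 hI0) hx0.le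
    have h4 : c * I / x ≤ 2 := by
      rw [div_le_iff₀ hx0]
      have : c * I ≤ (κ + N) * q := mul_le_mul h2 hIq hI0 (by linarith)
      linarith
    rw [abs_le]
    constructor <;> linarith
  apply levels_r hIN hm0
  · intro M hM hMm
    cases M with
    | zero =>
      rw [Lv0]
      exact hzero _ (by push_cast; exact le_rfl) (by push_cast; linarith)
    | succ k =>
      have hM' : ((k + 1 : ℕ) : ℝ) ≤ I := by exact_mod_cast hM
      have hMm' : ((k + 1 : ℕ) : ℝ) ≤ m0 := by exact_mod_cast hMm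
      rw [even_vals hM (by linarith) (fun m hm => hf m (by omega))]
      have hfk := hf (k + 1) hM
      have h := bracket0_BB (M := ((k + 1 : ℕ) : ℝ)) (u := q - I) (I := I) (κ := κ) (N := N) (x := x) (by positivity) hM'
        (by linarith) hIN' (by linarith) (by rw [sub_add_cancel]; exact hx)
      have e : Qb (κ + q) x (q - I) (κ + I) k / (x * fb (κ + q) x (k + 1)) *
          (fb (κ + q) x (k + 1) * (x - (q - I) * (κ + I) + (q - 2 * I) * ((k + 1 : ℕ) : ℝ)) -
            (((k + 1 : ℕ) : ℝ) - ((k + 1 : ℕ) : ℝ)) * (I * (x - (q - I) * (κ + I)) + (q - 2 * I) * ((k + 1 : ℕ) : ℝ) * (κ + I - ((k + 1 : ℕ) : ℝ))))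
          = Qb (κ + q) x (q - I) (κ + I) k * ((x - (q - I) * (κ + I) + (q - I - I) * ((k + 1 : ℕ) : ℝ)) / x) := by
        field_simp
        ring
      rw [e, abs_mul]
      apply mul_le_one₀ (hQ k hM hMm) (abs_nonneg _)
      rw [abs_div, abs_of_pos hx0, div_le_one hx0]
      exact h
  · intro M hM hMm
    cases M with
    | zero =>
      rw [Lv0]
      push_cast
      exact hzero _ (by linarith) (by linarith)
    | succ k =>
      have hM' : ((k + 1 : ℕ) : ℝ) ≤ I := by exact_mod_cast hM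
      have hMm' : ((k + 1 : ℕ) : ℝ) ≤ m0 := by exact_mod_cast hMm
      rw [even_vals hM (by linarith) (fun m hm => hf m (by omega))]
      have hfk := hf (k + 1) hM
      have h := bracket_BB (M := ((k + 1 : ℕ) : ℝ)) (u := q - I) (I := I) (κ := κ) (N := N) (x := x) (by positivity) hM'
        (by linarith) hIN' hκN (by linarith) (by rw [sub_add_cancel]; exact hx)
      rw [sub_add_cancel] at h
      rw [div_mul_eq_mul_div, mul_div_assoc, abs_mul]
      apply mul_le_one₀ (hQ k hM hMm) (abs_nonneg _)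
      rw [abs_div, div_le_one (abs_pos.2 (mul_ne_zero hx0.ne' hfk))]
      refine le_trans ?_ (le_abs_self _)
      have e : κ + N - ((k + 1 : ℕ) : ℝ) - ((k + 1 : ℕ) : ℝ) = κ + N - 2 * ((k + 1 : ℕ) : ℝ) := by ring
      have e2 : q - 2 * (I : ℝ) = q - I - I := by ring
      rw [e, e2]
      unfold fb
      exact h

end

end Pool.Agent.H92BI
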