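import Pool.Agent.H92BI.BB2

set_option autoImplicit false

namespace Pool.Agent.H92BI

open Finset

/-- neighbouring columns -/
theorem At_nb (D : ℕ) (v : ℝ) (M : ℕ) : ∀ N, At D v M N * (((M : ℝ) + 1) * (v - M - N)) =
    At D v (M + 1) N * (((M : ℝ) + 1 - N) * (v - M)) := by
  intro N
  induction N with
  | zero => rw [At_zero, At_zero]; push_cast; ring
  | succ N ih =>
    rw [At_succ, At_succ]
    push_cast
    have e1 : At D v M N * (((M : ℝ) - N) * (v - M - N) / (D - N)) * ((M + 1) * (v - M - (N + 1)))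
        = (At D v M N * (((M : ℝ) + 1) * (v - M - N))) * (((M : ℝ) - N) * (v - M - (N + 1)) / (D - N)) := by ring
    rw [e1, ih]
    ring

section
variable {I D M : ℕ} {κ q x y : ℝ}

/-- the telescoping sum -/
theorem tele (hy : ∀ N : ℕ, (y - N) * (q - y - N) = ((I : ℝ) - N) * (q - I - N)) (hID : I ≤ D)
    (hf : ∀ m, m ≤ I → fb (κ + q) x m ≠ 0) (hv : ∀ N : ℕ, N ≤ I → κ + D - M - N ≠ 0) :
    ∑ N ∈ range (I + 1), Rr I q (κ + q) x N * At D (κ + D) (M + 1) N *
      ((y - N) * (q - y - N) * ((M : ℝ) + 1 - N) / fb (κ + q) x N + N * ((D : ℝ) + 1 - N) / (κ + D - M - N)) = 0 := by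
  have key : ∀ J, J ≤ I → ∑ N ∈ range (J + 1), Rr I q (κ + q) x N * At D (κ + D) (M + 1) N *
      ((y - N) * (q - y - N) * ((M : ℝ) + 1 - N) / fb (κ + q) x N + N * ((D : ℝ) + 1 - N) / (κ + D - M - N))
      = Rr I q (κ + q) x J * At D (κ + D) (M + 1) J * ((y - J) * (q - y - J) * ((M : ℝ) + 1 - J) / fb (κ + q) x J) := by
    intro J
    induction J with
    | zero => intro _; simp
    | succ J ih =>
      intro hJ
      rw [sum_range_succ, ih (by omega)]
      have h1 : Rr I q (κ + q) x (J + 1) = Rr I q (κ + q) x J * ((-(((I : ℝ) - J) * (q - I - J))) / (((J : ℝ) + 1) * fb (κ + q) x J)) := by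
        unfold Rr; rw [prod_range_succ]
      have h2 := At_succ D (κ + D) (M + 1) J
      have h3 := hf J (by omega)
      have h4 := hf (J + 1) hJ
      have h5 := hv (J + 1) hJ
      have h6 : (D : ℝ) - J ≠ 0 := cast_ne (by omega)
      have h7 : (J : ℝ) + 1 ≠ 0 := by positivity
      have h8 := hy J
      rw [h1, h2, h8]
      push_cast at h5 ⊢
      field_simp
      ring
  rw [key I le_rfl, hy I]
  ring

/-- first relation -/
theorem ED1 (hy : ∀ N : ℕ, (y - N) * (q - y - N) = ((I : ℝ) - N) * (q - I - N)) (hID : I ≤ D)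
    (hf : ∀ m, m ≤ I → fb (κ + q) x m ≠ 0) (hv : ∀ N : ℕ, N ≤ I → κ + D - M - N ≠ 0) :
    (κ + D - 1 - 2 * M) * (y * Lv I D (κ + D) (al I q (κ + q) x y) (be I q (κ + q) x y) (M + 1) ((M : ℝ) + 1)
      - fb (κ + q) x (M + 1) * Bv I D (κ + D) (be I q (κ + q) x y) (M + 1))
    = ((M : ℝ) + 1) * (κ - M - 1) * (Lv I D (κ + D) (al I q (κ + q) x y) (be I q (κ + q) x y) (M + 1) ((M : ℝ) + 1)
      - Lv I D (κ + D) (al I q (κ + q) x y) (be I q (κ + q) x y) M (κ + D - M)) := by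
  have hM1 : (M : ℝ) + 1 ≠ 0 := by positivity
  have h := tele (M := M) (κ := κ) hy hID hf hv
  have e : (κ + D - 1 - 2 * M) * (y * Lv I D (κ + D) (al I q (κ + q) x y) (be I q (κ + q) x y) (M + 1) ((M : ℝ) + 1)
      - fb (κ + q) x (M + 1) * Bv I D (κ + D) (be I q (κ + q) x y) (M + 1))
    - ((M : ℝ) + 1) * (κ - M - 1) * (Lv I D (κ + D) (al I q (κ + q) x y) (be I q (κ + q) x y) (M + 1) ((M : ℝ) + 1)
      - Lv I D (κ + D) (al I q (κ + q) x y) (be I q (κ + q) x y) M (κ + D - M))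
    = (κ + D - 1 - 2 * M) * ∑ N ∈ range (I + 1), Rr I q (κ + q) x N * At D (κ + D) (M + 1) N *
      ((y - N) * (q - y - N) * ((M : ℝ) + 1 - N) / fb (κ + q) x N + N * ((D : ℝ) + 1 - N) / (κ + D - M - N)) := by
    unfold Lv Bv
    rw [mul_sum, mul_sum, mul_sum, ← sum_sub_distrib, ← sum_sub_distrib, mul_sum, mul_sum, ← sum_sub_distrib]
    apply sum_congr rfl
    intro N hN
    rw [mem_range] at hN
    have h3 := hf N (by omega)
    have h5 := hv N (by omega)
    have h6 := At_nb D (κ + D) M N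
    have h7 : At D (κ + D) M N = At D (κ + D) (M + 1) N * (((M : ℝ) + 1 - N) * (κ + D - M)) / (((M : ℝ) + 1) * (κ + D - M - N)) := by
      rw [eq_div_iff (mul_ne_zero hM1 h5)]; exact h6
    rw [h7]
    unfold al be
    have h8 : fb (κ + q) x (M + 1) = fb (κ + q) x N - ((M : ℝ) + 1 - N) * (κ + q - (M + 1) - N) := by
      unfold fb; push_cast; ring
    rw [h8]
    generalize hF : fb (κ + q) x N = F at h3
    field_simp
    ring
  rw [h, mul_zero] at e
  linarith

/-- second relation -/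
theorem ED2 (hy : ∀ N : ℕ, (y - N) * (q - y - N) = ((I : ℝ) - N) * (q - I - N)) (hID : I ≤ D)
    (hf : ∀ m, m ≤ I → fb (κ + q) x m ≠ 0) (hv : ∀ N : ℕ, N ≤ I → κ + D - M - N ≠ 0) :
    (κ + D - 2 * M - 1) * (y * Lv I D (κ + D) (al I q (κ + q) x y) (be I q (κ + q) x y) M (κ + D - M)
      - (x - (q - D + M) * (κ + D - M)) * Bv I D (κ + D) (be I q (κ + q) x y) M)
    = ((D : ℝ) - M) * (κ + D - M) * (Lv I D (κ + D) (al I q (κ + q) x y) (be I q (κ + q) x y) M (κ + D - M)
      - Lv I D (κ + D) (al I q (κ + q) x y) (be I q (κ + q) x y) (M + 1) ((M : ℝ) + 1)) := by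
  have hM1 : (M : ℝ) + 1 ≠ 0 := by positivity
  have h := tele (M := M) (κ := κ) hy hID hf hv
  have e : (κ + D - 2 * M - 1) * (y * Lv I D (κ + D) (al I q (κ + q) x y) (be I q (κ + q) x y) M (κ + D - M)
      - (x - (q - D + M) * (κ + D - M)) * Bv I D (κ + D) (be I q (κ + q) x y) M)
    - ((D : ℝ) - M) * (κ + D - M) * (Lv I D (κ + D) (al I q (κ + q) x y) (be I q (κ + q) x y) M (κ + D - M)
      - Lv I D (κ + D) (al I q (κ + q) x y) (be I q (κ + q) x y) (M + 1) ((M : ℝ) + 1))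
    = (κ + D - 2 * M - 1) * ((κ + D - M) / (M + 1)) * ∑ N ∈ range (I + 1), Rr I q (κ + q) x N * At D (κ + D) (M + 1) N *
      ((y - N) * (q - y - N) * ((M : ℝ) + 1 - N) / fb (κ + q) x N + N * ((D : ℝ) + 1 - N) / (κ + D - M - N)) := by
    unfold Lv Bv
    rw [mul_sum, mul_sum, mul_sum, ← sum_sub_distrib, ← sum_sub_distrib, mul_sum, mul_sum, ← sum_sub_distrib]
    apply sum_congr rfl
    intro N hN
    rw [mem_range] at hN
    have h3 := hf N (by omega)
    have h5 := hv N (by omega)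
    have h6 := At_nb D (κ + D) M N
    have h7 : At D (κ + D) M N = At D (κ + D) (M + 1) N * (((M : ℝ) + 1 - N) * (κ + D - M)) / (((M : ℝ) + 1) * (κ + D - M - N)) := by
      rw [eq_div_iff (mul_ne_zero hM1 h5)]; exact h6
    rw [h7]
    unfold al be
    have h8 : x = fb (κ + q) x N + N * (κ + q - N) := by
      unfold fb; ring
    generalize hF : fb (κ + q) x N = F at h3 h8
    generalize Rr I q (κ + q) x N = R
    rw [h8]
    field_simp
    ring
  rw [h, mul_zero] at e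
  linarith

end

end Pool.Agent.H92BI
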