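import Pool.Agent.H92BI.BB3

set_option autoImplicit false

namespace Pool.Agent.H92BI

open Finset

/-- the sum at the even point, general form -/
theorem sumE' {σ x u v : ℝ} (huv : u + v = σ) {M : ℕ} (hpos : ∀ N : ℕ, N ≤ M → v + 1 - M - N ≠ 0)
    (hf : ∀ m, m ≤ M → fb σ x m ≠ 0) :
    ∑ N ∈ range (M + 1), Wb σ x u v M N * (1 - ((M : ℝ) - N) * (u - N) / fb σ x N) = Tb σ x u v M := by
  have hf1 : ∀ m : ℕ, fb σ x m = x - m * (v + 1 + u - 1 - m) := by
    intro m
    unfold fb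
    rw [← huv]
    ring
  have h := saal (v + 1) u x M (fun m hm => by rw [← hf1]; exact hf _ (by omega))
  have e1 : ∀ N, N ≤ M → Wb σ x u v M N * ((v + 1 - M) / (v + 1 - M - N)) = ∏ m ∈ range N,
      (-(((M : ℝ) - m) * (v + 1 - M - m) * (u - m))) / (((m : ℝ) + 1) * (x - m * (v + 1 + u - 1 - m))) := by
    intro N
    induction N with
    | zero =>
      intro _
      rw [Wb_zero]
      have := hpos 0 (Nat.zero_le _)
      push_cast at this
      rw [sub_zero] at this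
      simp [this]
    | succ N ih =>
      intro hN
      have h1 := ih (by omega)
      have f1 := hf N (by omega)
      have p1 := hpos N (by omega)
      have p2 := hpos (N + 1) hN
      rw [prod_range_succ, ← h1, Wb_succ, ← hf1]
      have : (N : ℝ) + 1 ≠ 0 := by positivity
      push_cast at p2 ⊢
      have p3 : v + 1 - M - (N + 1) = v - M - N := by ring
      rw [p3] at p2 ⊢
      field_simp
  have e2 : ∀ K, K ≤ M + 1 → ∑ N ∈ range K, Wb σ x u v M N * (1 - ((M : ℝ) - N) * (u - N) / fb σ x N)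
      = ∑ N ∈ range K, Wb σ x u v M N * ((v + 1 - M) / (v + 1 - M - N)) + Wb σ x u v M K * (K / (v + 1 - M - K)) := by
    intro K
    induction K with
    | zero => intro _; simp
    | succ K ih =>
      intro hK
      have f1 := hf K (by omega)
      have p1 := hpos K (by omega)
      rw [sum_range_succ, sum_range_succ, ih (by omega), Wb_succ]
      generalize ∑ N ∈ range K, Wb σ x u v M N * ((v + 1 - M) / (v + 1 - M - N)) = Sg
      rcases Nat.eq_or_lt_of_le (show K ≤ M by omega) with hKM | hKM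
      · subst hKM
        have p1' : v + 1 - K - K ≠ 0 := p1
        rw [sub_self, zero_mul, zero_mul]
        have e3 : (v + 1 - K) / (v + 1 - K - K) = 1 + K / (v + 1 - K - K) := by
          field_simp; ring
        rw [e3]
        simp
        ring
      · have p2 := hpos (K + 1) hKM
        push_cast at p2 ⊢
        have p3 : v + 1 - M - (K + 1) = v - M - K := by ring
        rw [p3] at p2 ⊢
        have : (K : ℝ) + 1 ≠ 0 := by positivity
        have e3 : (v + 1 - M) / (v + 1 - M - K) = 1 + K / (v + 1 - M - K) := by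
          field_simp; ring
        rw [e3]
        field_simp
        ring
  rw [e2 (M + 1) le_rfl, Wb_out _ _ _ _ (Nat.lt_succ_self M), zero_mul, add_zero,
    sum_congr rfl (fun N hN => e1 N (by rw [mem_range] at hN; omega)), h]
  unfold Tb
  apply prod_congr rfl
  intro m _
  rw [← hf1]
  congr 1
  unfold gb
  ring

/-- the sum at the odd point -/
theorem sumO' {σ x u v : ℝ} (huv : u + v = σ) {M : ℕ} (hpos : ∀ N : ℕ, N ≤ M → v + 1 - M - N ≠ 0)
    (hf : ∀ m, m ≤ M → fb σ x m ≠ 0) :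
    ∑ N ∈ range (M + 1), Wb σ x u v M N * (1 - (v - M - N) * (u - N) / fb σ x N) = Tb σ x u v (M + 1) := by
  have h1 : ∑ N ∈ range (M + 1), Wb σ x u v M N * (1 - (v - M - N) * (u - N) / fb σ x N)
      = ∑ N ∈ range (M + 1), Wb σ x u v M N * (1 - ((M : ℝ) - N) * (u - N) / fb σ x N)
      - (v - 2 * M) * ∑ N ∈ range (M + 1), Wb σ x u v M N * ((u - N) / fb σ x N) := by
    rw [mul_sum, ← sum_sub_distrib]
    apply sum_congr rfl
    intro N _
    ring
  have f1 := hf M le_rfl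
  rw [h1, sumE' huv hpos hf, sumB huv hf]
  unfold Tb
  rw [prod_range_succ]
  generalize ∏ m ∈ range M, gb σ x u v m / fb σ x m = Q
  unfold gb
  field_simp

section
variable {I D : ℕ} {κ q x : ℝ}

/-- the last column, rows `2 I + 1` -/
theorem last_odd (hpos : ∀ N : ℕ, N ≤ I → κ + 1 - N ≠ 0) (hf : ∀ m, m ≤ I → fb (κ + q) x m ≠ 0) :
    Lv I I (κ + I) (al I q (κ + q) x (q - I)) (be I q (κ + q) x (q - I)) I κ = Wd κ q x 0 (I + 1) := by
  rw [Lv_base _ _ _ _ _ _ _ le_rfl]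
  have h := sumO' (σ := κ + q) (x := x) (u := q - I) (v := κ + I) (by ring) (M := I)
    (by
      intro N hN
      have := hpos N hN
      rwa [show κ + I + 1 - I - N = κ + 1 - N by ring]) hf
  rw [show κ + (I : ℝ) - I = κ by ring] at h
  rw [h, Tb_eq_Wd κ q x le_rfl, Nat.sub_self]

/-- the last column, rows `2 I` -/
theorem last_even (hI : 1 ≤ I) (hpos : ∀ N : ℕ, N ≤ I → κ + 1 - N ≠ 0) (hf : ∀ m, m ≤ I → fb (κ + q) x m ≠ 0) :
    Lv I I (κ + I) (al I q (κ + q) x I) (be I q (κ + q) x I) I κ = Wd κ q x 0 I := by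
  obtain ⟨k, rfl⟩ : ∃ k, I = k + 1 := ⟨I - 1, by omega⟩
  have hx0 := hf 0 (Nat.zero_le _)
  rw [fb_zero] at hx0
  have hfk := hf (k + 1) le_rfl
  rw [Lv_base _ _ _ _ _ _ _ le_rfl]
  have hp : ∀ N : ℕ, N ≤ k + 1 → κ + ((k + 1 : ℕ) : ℝ) + 1 - ((k + 1 : ℕ) : ℝ) - N ≠ 0 := by
    intro N hN
    have := hpos N hN
    rwa [show κ + ((k + 1 : ℕ) : ℝ) + 1 - ((k + 1 : ℕ) : ℝ) - N = κ + 1 - N by ring]
  have h := sumO' (σ := κ + q) (x := x) (u := q - (k + 1 : ℕ)) (v := κ + (k + 1 : ℕ)) (by ring) (M := k + 1) hp hf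
  have h2 := sumVM (σ := κ + q) (x := x) (u := q - (k + 1 : ℕ)) (v := κ + (k + 1 : ℕ)) (by ring) (M := k + 1) hf
  rw [show κ + ((k + 1 : ℕ) : ℝ) - (k + 1 : ℕ) = κ by ring] at h h2
  have h1 : ∑ N ∈ range (k + 1 + 1), Wb (κ + q) x (q - (k + 1 : ℕ)) (κ + (k + 1 : ℕ)) (k + 1) N *
        (1 - (κ - N) * (((k + 1 : ℕ) : ℝ) - N) / fb (κ + q) x N)
      = ∑ N ∈ range (k + 1 + 1), Wb (κ + q) x (q - (k + 1 : ℕ)) (κ + (k + 1 : ℕ)) (k + 1) N *
        (1 - (κ - N) * (q - (k + 1 : ℕ) - N) / fb (κ + q) x N)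
      + (q - 2 * (k + 1 : ℕ)) * ∑ N ∈ range (k + 1 + 1), Wb (κ + q) x (q - (k + 1 : ℕ)) (κ + (k + 1 : ℕ)) (k + 1) N *
        ((κ - N) / fb (κ + q) x N) := by
    rw [mul_sum, ← sum_add_distrib]
    apply sum_congr rfl
    intro N _
    ring
  rw [h1, h, h2, Tb_Qb]
  have h3 : Wd κ q x 0 (k + 1) = Qb (κ + q) x (q - (k + 1 : ℕ)) (κ + (k + 1 : ℕ)) (k + 1) * fb (κ + q) x (k + 1) / x := by
    have e1 : Tb (κ + q) x (q - (k + 1 : ℕ)) (κ + (k + 1 : ℕ)) (k + 1 + 1) = Wd κ q x 0 (k + 1 + 1) := by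
      rw [Tb_eq_Wd κ q x le_rfl, Nat.sub_self]
    have e2 : Wd κ q x 0 (k + 1 + 1) = Wd κ q x 0 (k + 1) * (ga κ q x (k + 1) / fb (κ + q) x (k + 1)) := by
      unfold Wd; rw [prod_range_succ, zero_add]
    have e3 : gb (κ + q) x (q - (k + 1 : ℕ)) (κ + (k + 1 : ℕ)) 0 = ga κ q x (k + 1) := by
      rw [gb_ga κ q x (Nat.zero_le _), Nat.sub_zero]
    -- directly on the products
    unfold Wd Qb
    rw [prod_range_succ (fun m => gb (κ + q) x (q - (k + 1 : ℕ)) (κ + (k + 1 : ℕ)) (m + 1) / fb (κ + q) x (m + 1)) k]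
    have e4 : ∏ m ∈ range (k + 1), ga κ q x (0 + m) / fb (κ + q) x m
        = (∏ m ∈ range k, ga κ q x (m + 1)) * ga κ q x 0 / (x * ∏ m ∈ range k, fb (κ + q) x (m + 1)) := by
      rw [prod_div_distrib, prod_range_succ' (fun m => fb (κ + q) x m), fb_zero]
      rw [prod_range_succ' (fun m => ga κ q x (0 + m))]
      simp only [zero_add]
      rw [mul_comm x]
    have e5 : ∏ m ∈ range k, gb (κ + q) x (q - (k + 1 : ℕ)) (κ + (k + 1 : ℕ)) (m + 1) / fb (κ + q) x (m + 1)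
        = (∏ m ∈ range k, ga κ q x (m + 1)) / ∏ m ∈ range k, fb (κ + q) x (m + 1) := by
      rw [prod_div_distrib]
      congr 1
      rw [← prod_range_reflect]
      apply prod_congr rfl
      intro m hm
      rw [mem_range] at hm
      rw [gb_ga κ q x (by omega)]
      congr 1
      omega
    have e6 : gb (κ + q) x (q - (k + 1 : ℕ)) (κ + (k + 1 : ℕ)) (k + 1) = ga κ q x 0 := by
      rw [gb_ga κ q x le_rfl, Nat.sub_self]
    have e7 : ∏ m ∈ range k, fb (κ + q) x (m + 1) ≠ 0 := by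
      rw [prod_ne_zero_iff]
      intro m hm
      rw [mem_range] at hm
      exact hf _ (by omega)
    rw [e4, e5, e6]
    field_simp
  rw [h3]
  have e0 : gb (κ + q) x (q - (k + 1 : ℕ)) (κ + (k + 1 : ℕ)) 0 = x - (q - (k + 1 : ℕ)) * (κ + (k + 1 : ℕ)) := by
    unfold gb; rw [fb_zero]; push_cast; ring
  rw [e0]
  have e8 : fb (κ + q) x (k + 1) = x - (q - (k + 1 : ℕ)) * (κ + (k + 1 : ℕ)) + (q - 2 * (k + 1 : ℕ)) * κ := by
    unfold fb; ring
  rw [e8]
  ring

/-- the last entry does not depend on the level -/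
theorem last_const {α β : ℕ → ℝ} (hpos : ∀ N : ℕ, κ + 1 - N ≠ 0) (hID : I ≤ D) :
    Lv I D (κ + D) α β D κ = Lv I I (κ + I) α β I κ := by
  obtain ⟨t, rfl⟩ : ∃ t, D = I + t := ⟨D - I, by omega⟩
  induction t with
  | zero => rfl
  | succ t ih =>
    have h := Lv_pascal I (I + t) (κ + (I + t : ℕ)) α β (I + t) κ (by omega)
    have hp := hpos (I + t + 2)
    have h1 : κ - (I + t : ℕ) - 1 ≠ 0 := by
      intro h0
      apply hp
      push_cast at h0 ⊢
      linarith
    have h2 : ((I + t : ℕ) : ℝ) + 1 ≠ 0 := by positivity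
    have h3 : (κ - (I + t : ℕ) - 1) * (((I + t : ℕ) : ℝ) + 1) *
        (Lv I (I + t + 1) (κ + (I + t : ℕ) + 1) α β (I + t + 1) κ - Lv I (I + t) (κ + (I + t : ℕ)) α β (I + t) κ) = 0 := by
      linear_combination h
    have h4 : Lv I (I + t + 1) (κ + (I + t : ℕ) + 1) α β (I + t + 1) κ = Lv I (I + t) (κ + (I + t : ℕ)) α β (I + t) κ := by
      have := (mul_eq_zero.1 h3).resolve_left (mul_ne_zero h1 h2)
      linarith
    rw [← add_assoc, ← ih (by omega), ← h4]
    congr 1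
    push_cast
    ring

/-- the prefix products -/
theorem Wd0_le {n : ℕ} (hκ0 : 0 ≤ κ) (hκ : κ ≤ n) (hq1 : (n : ℝ) ≤ q) (hq0 : 0 < q) (hq2 : q < 2 * n)
    (hx : (κ + n) * q ≤ 2 * x) (hf : ∀ m, m ≤ n → fb (κ + q) x m ≠ 0) :
    ∀ M, M ≤ n + 1 → |Wd κ q x 0 M| ≤ 1 := by
  have hn : (0 : ℝ) ≤ n := by positivity
  have hdd : |Wd κ q x 0 (n + 1)| ≤ 1 := by
    have e : Wd κ q x 0 (n + 1) = Tb (κ + q) x (q - n) (κ + n) (n + 1) := by
      rw [Tb_eq_Wd κ q x le_rfl, Nat.sub_self]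
    rw [e]
    unfold Tb
    apply pair_prod (fun m => gb (κ + q) x (q - n) (κ + n) m / fb (κ + q) x m)
    intro m hm
    have a1 : m ≤ n := by omega
    have a2 : n + 1 - 1 - m ≤ n := by omega
    have a3 : (m : ℝ) + ((n + 1 - 1 - m : ℕ) : ℝ) = n := by exact_mod_cast (by omega : m + (n + 1 - 1 - m) = n)
    have h := pair_BB (m := m) (m' := ((n + 1 - 1 - m : ℕ) : ℝ)) (n := n) (κ := κ) (u := q - n) (x := x)
      (by positivity) (by positivity) a3 hκ0 hκ (by linarith) (by linarith) (by rw [sub_add_cancel]; exact hx)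
    have f1 := hf m a1
    have f2 := hf (n + 1 - 1 - m) a2
    show |gb (κ + q) x (q - n) (κ + n) m / fb (κ + q) x m *
      (gb (κ + q) x (q - n) (κ + n) (n + 1 - 1 - m) / fb (κ + q) x (n + 1 - 1 - m))| ≤ 1
    rw [div_mul_div_comm, abs_div, div_le_one (abs_pos.2 (mul_ne_zero f1 f2))]
    refine le_trans ?_ (le_abs_self _)
    unfold gb fb
    have e : κ + q = q - n + (κ + n) := by ring
    rw [e]
    exact h
  unfold Wd at hdd ⊢
  apply valley_prod (fun m => ga κ q x (0 + m) / fb (κ + q) x m) (n + 1) _ hdd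
  have hF1 : ∀ m : ℕ, ga κ q x (0 + m) - fb (κ + q) x m = κ * (2 * m - q) := by
    intro m
    have := F1 κ q x 0 m
    push_cast at this
    linarith
  have hF2 : ∀ m : ℕ, 0 < ga κ q x (0 + m) + fb (κ + q) x m := by
    intro m
    rw [zero_add]
    unfold ga fb
    have h3 : 0 < q * (2 * n - q) := mul_pos hq0 (by linarith)
    nlinarith [sq_nonneg (q - 2 * m)]
  intro m m' hmm hm' h1
  have f1 := hf m (by omega)
  have f2 := hf m' (by omega)
  have c1 : (m : ℝ) ≤ m' := by exact_mod_cast hmm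
  have c3 : q ≤ 2 * (m : ℝ) := by
    by_contra hcon
    push Not at hcon
    have g1 := hF1 m
    have g2 := hF2 m
    have g3 : κ * (2 * m - q) ≤ 0 := mul_nonpos_of_nonneg_of_nonpos hκ0 (by linarith)
    have : |ga κ q x (0 + m)| ≤ fb (κ + q) x m := by
      rw [abs_le]; constructor <;> linarith
    rw [abs_div, lt_div_iff₀ (abs_pos.2 f1), one_mul] at h1
    have h5 := le_abs_self (fb (κ + q) x m)
    linarith
  have g1 := hF1 m'
  have g2 := hF2 m'
  have g3 : 0 ≤ κ * (2 * m' - q) := mul_nonneg hκ0 (by linarith)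
  have : |fb (κ + q) x m'| ≤ ga κ q x (0 + m') := by
    rw [abs_le]; constructor <;> linarith
  rw [abs_div, le_div_iff₀ (abs_pos.2 f2), one_mul]
  exact le_trans this (le_abs_self _)

end

end Pool.Agent.H92BI
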