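import Pool.Agent.H92BI.BB4

set_option autoImplicit false

namespace Pool.Agent.H92BI

open Finset

/-- combinations with small coefficients -/
theorem contract {l s c O E : ℝ} (hl : 0 ≤ l) (hO : |O| ≤ 1) (hE : |E| ≤ 1)
    (h : (0 ≤ c ∧ 0 ≤ s ∧ l * (s + 2 * c) ≤ 2) ∨ (c ≤ 0 ∧ -2 * c ≤ s ∧ l * s ≤ 2)) :
    |(1 - l * (s + c)) * O + l * c * E| ≤ 1 := by
  have h1 : |(1 - l * (s + c)) * O + l * c * E| ≤ |1 - l * (s + c)| * 1 + |l * c| * 1 := by
    refine le_trans (abs_add_le _ _) ?_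
    rw [abs_mul, abs_mul]
    exact add_le_add (mul_le_mul_of_nonneg_left hO (abs_nonneg _)) (mul_le_mul_of_nonneg_left hE (abs_nonneg _))
  refine le_trans h1 ?_
  rw [mul_one, mul_one]
  rcases h with ⟨c0, s0, h2⟩ | ⟨c0, h3, h4⟩
  · have k1 : 0 ≤ l * c := mul_nonneg hl c0
    have k2 : 0 ≤ l * s := mul_nonneg hl s0
    rw [abs_of_nonneg k1]
    rcases abs_cases (1 - l * (s + c)) with ⟨h5, _⟩ | ⟨h5, _⟩ <;> rw [h5] <;> nlinarith
  · have k1 : l * c ≤ 0 := mul_nonpos_of_nonneg_of_nonpos hl c0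
    have k2 : 0 ≤ l * (s + 2 * c) := mul_nonneg hl (by linarith)
    rw [abs_of_nonpos k1]
    rcases abs_cases (1 - l * (s + c)) with ⟨h5, _⟩ | ⟨h5, _⟩ <;> rw [h5] <;> nlinarith

section
variable {κ L M q x s E O B Z : ℝ}

/-- the numbers `Γ` -/
noncomputable def Gm (κ L q x M : ℝ) : ℝ := x - (q - L + M) * (κ + L - M)

/-- the numbers `f` with real argument -/
noncomputable def Fm (κ q x M : ℝ) : ℝ := x - M * (κ + q - M)

theorem two_Gm (κ L q x M : ℝ) : 2 * Gm κ L q x M =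
    -(q * (κ + L - 2 * M)) + 2 * ((L - M) * (κ + L - M)) + (2 * x - (κ + L) * q) := by
  unfold Gm; ring

theorem two_Fm (κ L q x M : ℝ) : 2 * Fm κ q x M =
    q * (κ + L - 2 * M) + 2 * (M * (M - κ)) + (2 * x - (κ + L) * q) := by
  unfold Fm; ring

/-- first half, from `O M`, `E M` to `E (M + 1)` -/
theorem stepA (hM0 : 0 ≤ M) (h1 : 0 < κ + L - 2 * M - 1) (hκM : κ < M + 1) (hκL : κ ≤ L)
    (hq0 : 0 < q) (hq : q ≤ κ + L) (hx : (κ + L) * q ≤ 2 * x) (hx2 : 2 * x ≤ (κ + L + 1) * q)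
    (hs0 : 0 ≤ s) (hs1 : s ≤ q) (hs2 : q - L ≤ s)
    (H2 : (κ + L - 2 * M - 1) * (s * O - Gm κ L q x M * B) = (L - M) * (κ + L - M) * (O - Z))
    (HB : (κ + L - 2 * M) * B = E - O) (hO : |O| ≤ 1) (hE : |E| ≤ 1) : |Z| ≤ 1 := by
  have hW : 0 < (L - M) * (κ + L - M) := mul_pos (by linarith) (by linarith)
  have hp : 0 < κ + L - 2 * M := by linarith
  set W := (L - M) * (κ + L - M) with hWd
  set G := Gm κ L q x M with hG
  have h2G := two_Gm κ L q x M
  rw [← hG, ← hWd] at h2G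
  set y0 := 2 * x - (κ + L) * q with hy0
  have hy1 : 0 ≤ y0 := by rw [hy0]; linarith
  have hy2 : y0 ≤ q := by rw [hy0]; linarith
  -- the key inequality
  have hk : q * (κ + L - 2 * M - 1) ≤ 2 * W := by
    have e1 : q * (κ + L - 2 * M - 1) ≤ q * (L - M) := mul_le_mul_of_nonneg_left (by linarith) hq0.le
    have e2 : q * (L - M) ≤ (2 * (κ + L - M)) * (L - M) := mul_le_mul_of_nonneg_right (by linarith) (by linarith)
    rw [hWd]; linarith
  have hB : B = (E - O) / (κ + L - 2 * M) := by rw [eq_div_iff hp.ne']; linarith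
  have hZ : Z = (1 - (κ + L - 2 * M - 1) / W * (s + G / (κ + L - 2 * M))) * O
      + (κ + L - 2 * M - 1) / W * (G / (κ + L - 2 * M)) * E := by
    have h3 : Z = O - (κ + L - 2 * M - 1) / W * (s * O - G * B) := by
      rw [div_mul_eq_mul_div, H2]
      field_simp
      ring
    rw [h3, hB]
    field_simp
    ring
  rw [hZ]
  have hl0 : 0 ≤ (κ + L - 2 * M - 1) / W := div_nonneg h1.le hW.le
  apply contract hl0 hO hE
  rcases le_total 0 G with g0 | g0
  · left
    refine ⟨div_nonneg g0 hp.le, hs0, ?_⟩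
    rw [div_mul_eq_mul_div, div_le_iff₀ hW, show s + 2 * (G / (κ + L - 2 * M)) = (s * (κ + L - 2 * M) + 2 * G) / (κ + L - 2 * M) by
      field_simp, mul_div_assoc', div_le_iff₀ hp, h2G]
    have e1 : (κ + L - 2 * M - 1) * (s * (κ + L - 2 * M) + (-(q * (κ + L - 2 * M)) + 2 * W + y0))
        ≤ (κ + L - 2 * M - 1) * (2 * W + y0) := by
      apply mul_le_mul_of_nonneg_left _ h1.le
      have : s * (κ + L - 2 * M) ≤ q * (κ + L - 2 * M) := mul_le_mul_of_nonneg_right hs1 hp.le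
      linarith
    have e2 : y0 * (κ + L - 2 * M - 1) ≤ q * (κ + L - 2 * M - 1) := mul_le_mul_of_nonneg_right hy2 h1.le
    linarith
  · right
    refine ⟨div_nonpos_of_nonpos_of_nonneg g0 hp.le, ?_, ?_⟩
    · rw [show -2 * (G / (κ + L - 2 * M)) = (-(2 * G)) / (κ + L - 2 * M) by ring, div_le_iff₀ hp, h2G]
      have e1 : (q - L) * (κ + L - 2 * M) ≤ s * (κ + L - 2 * M) := mul_le_mul_of_nonneg_right hs2 hp.le
      have e2 : L * (κ + L - 2 * M) ≤ 2 * W := by
        have k1 : 0 ≤ (L - M) * (κ + L - 2 * M) := mul_nonneg (by linarith) hp.le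
        have k2 : 0 ≤ M * (L - κ) := mul_nonneg hM0 (by linarith)
        rw [hWd]; nlinarith
      linarith
    · rw [div_mul_eq_mul_div, div_le_iff₀ hW]
      have : (κ + L - 2 * M - 1) * s ≤ (κ + L - 2 * M - 1) * q := mul_le_mul_of_nonneg_left hs1 h1.le
      linarith

/-- first half, from `E M`, `O (M - 1)` to `O M` -/
theorem stepB (hp : 0 < κ + L - 2 * M) (hκM : κ ≤ M) (hM0 : 0 ≤ M)
    (hq0 : 0 < q) (hx : (κ + L) * q ≤ 2 * x)
    (hs0 : 0 ≤ s) (hs1 : s ≤ q)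
    (H1 : (κ + L + 1 - 2 * M) * (s * E - Fm κ q x M * B) = M * (κ - M) * (E - O))
    (HB : (κ + L - 2 * M) * B = E - Z) (hO : |O| ≤ 1) (hE : |E| ≤ 1) : |Z| ≤ 1 := by
  have hV : 0 ≤ M * (M - κ) := mul_nonneg hM0 (by linarith)
  set V := M * (M - κ) with hVd
  set f := Fm κ q x M with hfd
  have h2f := two_Fm κ L q x M
  rw [← hfd, ← hVd] at h2f
  set y0 := 2 * x - (κ + L) * q with hy0
  have hy1 : 0 ≤ y0 := by rw [hy0]; linarith
  have hf : 0 < f := by
    have : 0 < q * (κ + L - 2 * M) := mul_pos hq0 hp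
    linarith
  have hp1 : 0 < κ + L + 1 - 2 * M := by linarith
  have hB : f * B = s * E + V / (κ + L + 1 - 2 * M) * (E - O) := by
    have e1 : (κ + L + 1 - 2 * M) * (s * E - f * B) = -V * (E - O) := by rw [H1, hVd]; ring
    field_simp
    linarith
  have hZ : Z = (1 - (κ + L - 2 * M) / f * (s + V / (κ + L + 1 - 2 * M))) * E
      + (κ + L - 2 * M) / f * (V / (κ + L + 1 - 2 * M)) * O := by
    have h3 : Z = E - (κ + L - 2 * M) / f * (f * B) := by
      field_simp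
      linarith
    rw [h3, hB]
    ring
  rw [hZ]
  apply contract (div_nonneg hp.le hf.le) hE hO
  left
  refine ⟨div_nonneg hV hp1.le, hs0, ?_⟩
  rw [div_mul_eq_mul_div, div_le_iff₀ hf, show s + 2 * (V / (κ + L + 1 - 2 * M)) = (s * (κ + L + 1 - 2 * M) + 2 * V) / (κ + L + 1 - 2 * M) by
      field_simp, mul_div_assoc', div_le_iff₀ hp1, h2f]
  have e1 : (κ + L - 2 * M) * (s * (κ + L + 1 - 2 * M)) ≤ (κ + L - 2 * M) * (q * (κ + L + 1 - 2 * M)) := by
    apply mul_le_mul_of_nonneg_left _ hp.le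
    exact mul_le_mul_of_nonneg_right hs1 hp1.le
  have e2 : 0 ≤ y0 * (κ + L + 1 - 2 * M) := mul_nonneg hy1 hp1.le
  nlinarith

/-- second half, from `O M`, `E (M + 1)` to `E M` -/
theorem stepA' (hp : 0 < 2 * M - κ - L) (hML : M ≤ L) (hκ0 : 0 < κ)
    (hq0 : 0 < q) (hx : (κ + L) * q ≤ 2 * x)
    (hs0 : 0 ≤ s) (hs1 : s ≤ q)
    (H2 : (κ + L - 2 * M - 1) * (s * O - Gm κ L q x M * B) = (L - M) * (κ + L - M) * (O - E))
    (HB : (κ + L - 2 * M) * B = Z - O) (hO : |O| ≤ 1) (hE : M = L ∨ |E| ≤ 1) : |Z| ≤ 1 := by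
  have hW : 0 ≤ (L - M) * (κ + L - M) := mul_nonneg (by linarith) (by linarith)
  set W := (L - M) * (κ + L - M) with hWd
  set G := Gm κ L q x M with hG
  have h2G := two_Gm κ L q x M
  rw [← hG, ← hWd] at h2G
  set y0 := 2 * x - (κ + L) * q with hy0
  have hy1 : 0 ≤ y0 := by rw [hy0]; linarith
  have hG0 : 0 < G := by
    have : 0 < q * (2 * M - κ - L) := mul_pos hq0 hp
    nlinarith
  have hp1 : 0 < 2 * M - κ - L + 1 := by linarith
  -- replace `E` by zero in the last column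
  obtain ⟨E', hE', hWE⟩ : ∃ E' : ℝ, |E'| ≤ 1 ∧ W * (O - E) = W * (O - E') := by
    rcases hE with h | h
    · refine ⟨0, by simp, ?_⟩
      have : W = 0 := by rw [hWd, h]; ring
      rw [this]; ring
    · exact ⟨E, h, rfl⟩
  rw [hWE] at H2
  have hB : G * B = s * O + W / (2 * M - κ - L + 1) * (O - E') := by
    field_simp
    linarith
  have hZ : Z = (1 - (2 * M - κ - L) / G * (s + W / (2 * M - κ - L + 1))) * O
      + (2 * M - κ - L) / G * (W / (2 * M - κ - L + 1)) * E' := by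
    have h3 : Z = O - (2 * M - κ - L) / G * (G * B) := by
      field_simp
      linarith
    rw [h3, hB]
    ring
  rw [hZ]
  apply contract (div_nonneg hp.le hG0.le) hO hE'
  left
  refine ⟨div_nonneg hW hp1.le, hs0, ?_⟩
  rw [div_mul_eq_mul_div, div_le_iff₀ hG0, show s + 2 * (W / (2 * M - κ - L + 1)) = (s * (2 * M - κ - L + 1) + 2 * W) / (2 * M - κ - L + 1) by
      field_simp, mul_div_assoc', div_le_iff₀ hp1, h2G]
  have e1 : (2 * M - κ - L) * (s * (2 * M - κ - L + 1)) ≤ (2 * M - κ - L) * (q * (2 * M - κ - L + 1)) := by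
    apply mul_le_mul_of_nonneg_left _ hp.le
    exact mul_le_mul_of_nonneg_right hs1 hp1.le
  have e2 : 0 ≤ y0 * (2 * M - κ - L + 1) := mul_nonneg hy1 hp1.le
  nlinarith

/-- second half, from `E M`, `O M` to `O (M - 1)` -/
theorem stepB' (hp : 0 < 2 * M - κ - L - 1) (hML : M ≤ L) (hκ0 : 0 < κ)
    (hq0 : 0 < q) (hq : q ≤ κ + L) (hx : (κ + L) * q ≤ 2 * x) (hx2 : 2 * x ≤ (κ + L + 1) * q)
    (hs0 : 0 ≤ s) (hs1 : s ≤ q)
    (H1 : (κ + L + 1 - 2 * M) * (s * E - Fm κ q x M * B) = M * (κ - M) * (E - Z))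
    (HB : (κ + L - 2 * M) * B = E - O) (hO : |O| ≤ 1) (hE : |E| ≤ 1) : |Z| ≤ 1 := by
  have hM0 : 0 < M := by linarith
  have hκM : κ < M := by linarith
  have hV : 0 < M * (M - κ) := mul_pos hM0 (by linarith)
  set V := M * (M - κ) with hVd
  set f := Fm κ q x M with hfd
  have h2f := two_Fm κ L q x M
  rw [← hfd, ← hVd] at h2f
  set y0 := 2 * x - (κ + L) * q with hy0
  have hy1 : 0 ≤ y0 := by rw [hy0]; linarith
  have hy2 : y0 ≤ q := by rw [hy0]; linarith
  have hμ : 0 < 2 * M - κ - L := by linarith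
  have hk : q * (2 * M - κ - L) ≤ 2 * V := by
    have e1 : q * (2 * M - κ - L) ≤ q * (M - κ) := mul_le_mul_of_nonneg_left (by linarith) hq0.le
    have e2 : q * (M - κ) ≤ (2 * M) * (M - κ) := mul_le_mul_of_nonneg_right (by linarith) (by linarith)
    rw [hVd]; linarith
  have hf : 0 ≤ f := by linarith
  have hB : B = (O - E) / (2 * M - κ - L) := by rw [eq_div_iff hμ.ne']; linarith
  have hZ : Z = (1 - (2 * M - κ - L - 1) / V * (s + f / (2 * M - κ - L))) * E
      + (2 * M - κ - L - 1) / V * (f / (2 * M - κ - L)) * O := by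
    have h3 : Z = E - (2 * M - κ - L - 1) / V * (s * E - f * B) := by
      have e1 : (2 * M - κ - L - 1) * (s * E - f * B) = V * (E - Z) := by
        rw [hVd]; linarith
      rw [div_mul_eq_mul_div, e1]
      field_simp
      ring
    rw [h3, hB]
    field_simp
    ring
  rw [hZ]
  apply contract (div_nonneg hp.le hV.le) hE hO
  left
  refine ⟨div_nonneg hf hμ.le, hs0, ?_⟩
  rw [div_mul_eq_mul_div, div_le_iff₀ hV, show s + 2 * (f / (2 * M - κ - L)) = (s * (2 * M - κ - L) + 2 * f) / (2 * M - κ - L) by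
      field_simp, mul_div_assoc', div_le_iff₀ hμ, h2f]
  have e1 : (2 * M - κ - L - 1) * (s * (2 * M - κ - L) + (q * (κ + L - 2 * M) + 2 * V + y0))
      ≤ (2 * M - κ - L - 1) * (2 * V + y0) := by
    apply mul_le_mul_of_nonneg_left _ hp.le
    have : s * (2 * M - κ - L) ≤ q * (2 * M - κ - L) := mul_le_mul_of_nonneg_right hs1 hμ.le
    linarith
  have e2 : y0 * (2 * M - κ - L - 1) ≤ q * (2 * M - κ - L - 1) := mul_le_mul_of_nonneg_right hy2 hp.le
  have e3 : q * (2 * M - κ - L - 1) ≤ q * (2 * M - κ - L) := mul_le_mul_of_nonneg_left (by linarith) hq0.le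
  linarith

end

end Pool.Agent.H92BI
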