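import Pool.Agent.H92BI.BB5

set_option autoImplicit false

namespace Pool.Agent.H92BI

open Finset

theorem nonint {m0 : ℕ} {κ : ℝ} (h0 : (m0 : ℝ) < κ) (h1 : κ < m0 + 1) (z : ℤ) : κ ≠ z := by
  intro h
  rw [h] at h0 h1
  have a : ((m0 : ℤ) : ℝ) < (z : ℝ) := by exact_mod_cast h0
  have b : (z : ℝ) < ((m0 + 1 : ℤ) : ℝ) := by push_cast; exact h1
  have a' : (m0 : ℤ) < z := by exact_mod_cast a
  have b' : z < (m0 + 1 : ℤ) := by exact_mod_cast b
  omega

section
variable {I m0 : ℕ} {κ q x y : ℝ}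

theorem EO_B (I D : ℕ) (κ : ℝ) (α β : ℕ → ℝ) (M : ℕ) :
    (κ + D - 2 * M) * Bv I D (κ + D) β M = Lv I D (κ + D) α β M M - Lv I D (κ + D) α β M (κ + D - M) := by
  have e : κ + D - (M : ℝ) = (M : ℝ) + (κ + D - 2 * M) := by ring
  rw [e, Lv_shift]
  ring

/-- all columns at the level next to the threshold -/
theorem level_top {L : ℕ} (hy : ∀ N : ℕ, (y - N) * (q - y - N) = ((I : ℝ) - N) * (q - I - N)) (hIL : I ≤ L)
    (hf : ∀ m, m ≤ I → fb (κ + q) x m ≠ 0) (hm0 : (m0 : ℝ) < κ) (hm1 : κ < m0 + 1) (hmL : m0 + 1 ≤ L)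
    (hκL : κ ≤ L)
    (hq0 : 0 < q) (hq : q ≤ κ + L) (hx : (κ + L) * q ≤ 2 * x) (hx2 : 2 * x ≤ (κ + L + 1) * q)
    (hs0 : 0 ≤ y) (hs1 : y ≤ q) (hs2 : q - L ≤ y)
    (hE0 : |Lv I L (κ + L) (al I q (κ + q) x y) (be I q (κ + q) x y) m0 m0| ≤ 1)
    (hO0 : |Lv I L (κ + L) (al I q (κ + q) x y) (be I q (κ + q) x y) m0 (κ + L - m0)| ≤ 1)
    (hlast : |Lv I L (κ + L) (al I q (κ + q) x y) (be I q (κ + q) x y) L κ| ≤ 1) :
    ∀ M, m0 ≤ M → M ≤ L → |Lv I L (κ + L) (al I q (κ + q) x y) (be I q (κ + q) x y) M M| ≤ 1 ∧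
      |Lv I L (κ + L) (al I q (κ + q) x y) (be I q (κ + q) x y) M (κ + L - M)| ≤ 1 := by
  have hm00 : (0 : ℝ) ≤ m0 := by positivity
  have hκ0 : 0 < κ := by linarith
  have hv : ∀ M N : ℕ, κ + L - M - N ≠ 0 := by
    intro M N h
    apply nonint hm0 hm1 ((M : ℤ) + N - L)
    push_cast
    linarith
  -- first half
  have first : ∀ t, 2 * ((m0 + t : ℕ) : ℝ) < κ + L →
      |Lv I L (κ + L) (al I q (κ + q) x y) (be I q (κ + q) x y) (m0 + t) ((m0 + t : ℕ) : ℝ)| ≤ 1 ∧
      |Lv I L (κ + L) (al I q (κ + q) x y) (be I q (κ + q) x y) (m0 + t) (κ + L - ((m0 + t : ℕ) : ℝ))| ≤ 1 := by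
    intro t
    induction t with
    | zero => intro _; exact ⟨hE0, hO0⟩
    | succ t ih =>
      intro ht
      have hc : ((m0 + (t + 1) : ℕ) : ℝ) = ((m0 + t : ℕ) : ℝ) + 1 := by push_cast; ring
      rw [hc] at ht
      obtain ⟨h1, h2⟩ := ih (by linarith)
      have hM0 : (0 : ℝ) ≤ ((m0 + t : ℕ) : ℝ) := by positivity
      have hMm : (m0 : ℝ) ≤ ((m0 + t : ℕ) : ℝ) := by exact_mod_cast Nat.le_add_right _ _
      have hED2 := ED2 (M := m0 + t) (κ := κ) hy hIL hf (fun N _ => hv _ N)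
      have hA := stepA (κ := κ) (L := L) (M := ((m0 + t : ℕ) : ℝ)) (q := q) (x := x) (s := y) hM0
        (by linarith) (by linarith) hκL hq0 hq hx hx2 hs0 hs1 hs2
        (by unfold Gm; exact hED2) (EO_B I L κ _ _ (m0 + t)) h2 h1
      have hED1 := ED1 (M := m0 + t) (κ := κ) hy hIL hf (fun N _ => hv _ N)
      have hEOB := EO_B I L κ (al I q (κ + q) x y) (be I q (κ + q) x y) (m0 + t + 1)
      have hc' : ((m0 + t + 1 : ℕ) : ℝ) = ((m0 + t : ℕ) : ℝ) + 1 := by push_cast; ring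
      rw [hc'] at hEOB
      have hB := stepB (κ := κ) (L := L) (M := ((m0 + t : ℕ) : ℝ) + 1) (q := q) (x := x) (s := y)
        (by linarith) (by linarith) (by linarith) hq0 hx hs0 hs1
        (O := Lv I L (κ + L) (al I q (κ + q) x y) (be I q (κ + q) x y) (m0 + t) (κ + L - ((m0 + t : ℕ) : ℝ)))
        (by
          unfold Fm
          unfold fb at hED1
          rw [hc'] at hED1
          linear_combination hED1) hEOB h2 hA
      rw [hc, ← add_assoc]
      exact ⟨hA, hB⟩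
  -- second half
  have second : ∀ t M : ℕ, M + t = L → κ + L < 2 * (M : ℝ) →
      |Lv I L (κ + L) (al I q (κ + q) x y) (be I q (κ + q) x y) M M| ≤ 1 ∧
      |Lv I L (κ + L) (al I q (κ + q) x y) (be I q (κ + q) x y) M (κ + L - M)| ≤ 1 := by
    intro t
    induction t with
    | zero =>
      intro M hM hlt
      have hML : M = L := by omega
      subst hML
      have hO : |Lv I M (κ + M) (al I q (κ + q) x y) (be I q (κ + q) x y) M (κ + M - M)| ≤ 1 := by
        rw [add_sub_cancel_right]; exact hlast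
      refine ⟨?_, hO⟩
      have hED2 := ED2 (M := M) (κ := κ) hy hIL hf (fun N _ => hv _ N)
      exact stepA' (κ := κ) (L := M) (M := M) (q := q) (x := x) (s := y) (by linarith) le_rfl hκ0 hq0 hx hs0 hs1
        (by unfold Gm; exact hED2) (EO_B I M κ _ _ M) hO (Or.inl rfl)
    | succ t ih =>
      intro M hM hlt
      obtain ⟨h1, h2⟩ := ih (M + 1) (by omega) (by push_cast; linarith)
      have hML : ((M : ℝ) + 1) ≤ L := by exact_mod_cast (by omega : M + 1 ≤ L)
      have hc' : ((M + 1 : ℕ) : ℝ) = (M : ℝ) + 1 := by push_cast; ring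
      rw [hc'] at h1 h2
      have hED1 := ED1 (M := M) (κ := κ) hy hIL hf (fun N _ => hv _ N)
      have hEOB := EO_B I L κ (al I q (κ + q) x y) (be I q (κ + q) x y) (M + 1)
      rw [hc'] at hEOB
      have hO := stepB' (κ := κ) (L := L) (M := (M : ℝ) + 1) (q := q) (x := x) (s := y)
        (by linarith) hML hκ0 hq0 hq hx hx2 hs0 hs1
        (Z := Lv I L (κ + L) (al I q (κ + q) x y) (be I q (κ + q) x y) M (κ + L - M))
        (by
          unfold Fm
          unfold fb at hED1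
          rw [hc'] at hED1
          linear_combination hED1) hEOB h2 h1
      refine ⟨?_, hO⟩
      have hED2 := ED2 (M := M) (κ := κ) hy hIL hf (fun N _ => hv _ N)
      exact stepA' (κ := κ) (L := L) (M := M) (q := q) (x := x) (s := y) (by linarith) (by linarith) hκ0 hq0 hx hs0 hs1
        (by unfold Gm; exact hED2) (EO_B I L κ _ _ M) hO (Or.inr h1)
  intro M hM1 hM2
  rcases lt_trichotomy (2 * (M : ℝ)) (κ + L) with h | h | h
  · obtain ⟨t, rfl⟩ : ∃ t, M = m0 + t := ⟨M - m0, by omega⟩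
    exact first t h
  · exfalso
    apply hv M M
    linarith
  · obtain ⟨t, ht⟩ : ∃ t, M + t = L := ⟨L - M, by omega⟩
    exact second t M ht h

end

end Pool.Agent.H92BI
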