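import Pool.Agent.H92BI.BB6

set_option autoImplicit false

namespace Pool.Agent.H92BI

open Finset

theorem Lv_betw {K D M : ℕ} {v c1 c2 c : ℝ} {α β : ℕ → ℝ} (h1 : |Lv K D v α β M c1| ≤ 1)
    (h2 : |Lv K D v α β M c2| ≤ 1) (h3 : c1 ≤ c) (h4 : c ≤ c2) : |Lv K D v α β M c| ≤ 1 := by
  rcases eq_or_lt_of_le (le_trans h3 h4) with h | h
  · have : c = c1 := by linarith
    rw [this]; exact h1
  · have e1 : c = c1 + (c - c1) := by ring
    have e2 : c2 = c1 + (c2 - c1) := by ring
    rw [e1, Lv_shift]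
    rw [e2, Lv_shift] at h2
    exact betw' (s := c2 - c1) (by linarith) h1 h2 (by linarith) (by linarith)

section
variable {I m0 D : ℕ} {κ q x y : ℝ} {α β : ℕ → ℝ}

/-- from level `D + 1` to level `D` -/
theorem level_up (hID : I ≤ D) (hm0 : (m0 : ℝ) < κ) (hm1 : κ < m0 + 1)
    (hE0 : |Lv I D (κ + D) α β m0 m0| ≤ 1)
    (hO0 : |Lv I D (κ + D) α β m0 (κ + D - m0)| ≤ 1)
    (hnext : ∀ M, m0 ≤ M → M ≤ D + 1 → |Lv I (D + 1) (κ + (D + 1 : ℕ)) α β M M| ≤ 1 ∧
      |Lv I (D + 1) (κ + (D + 1 : ℕ)) α β M (κ + (D + 1 : ℕ) - M)| ≤ 1) :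
    ∀ M, m0 ≤ M → M ≤ D → |Lv I D (κ + D) α β M M| ≤ 1 ∧ |Lv I D (κ + D) α β M (κ + D - M)| ≤ 1 := by
  have hm00 : (0 : ℝ) ≤ m0 := by positivity
  have hκ0 : 0 < κ := by linarith
  have hcast : κ + ((D + 1 : ℕ) : ℝ) = κ + D + 1 := by push_cast; ring
  rw [hcast] at hnext
  -- first half
  have first : ∀ t, m0 + t ≤ D → 2 * ((m0 + t : ℕ) : ℝ) < κ + D →
      |Lv I D (κ + D) α β (m0 + t) ((m0 + t : ℕ) : ℝ)| ≤ 1 ∧
      |Lv I D (κ + D) α β (m0 + t) (κ + D - ((m0 + t : ℕ) : ℝ))| ≤ 1 := by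
    intro t
    induction t with
    | zero => intro _ _; exact ⟨hE0, hO0⟩
    | succ t ih =>
      intro hD ht
      have hc : ((m0 + (t + 1) : ℕ) : ℝ) = ((m0 + t : ℕ) : ℝ) + 1 := by push_cast; ring
      rw [hc] at ht
      obtain ⟨h1, h2⟩ := ih (by omega) (by linarith)
      obtain ⟨h3, h4⟩ := hnext (m0 + t + 1) (by omega) (by omega)
      have hM0 : (0 : ℝ) ≤ ((m0 + t : ℕ) : ℝ) := by positivity
      have hMm : (m0 : ℝ) ≤ ((m0 + t : ℕ) : ℝ) := by exact_mod_cast Nat.le_add_right _ _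
      have hMD : ((m0 + t : ℕ) : ℝ) + 1 ≤ D := by exact_mod_cast (by omega : m0 + t + 1 ≤ D)
      have hc' : ((m0 + t + 1 : ℕ) : ℝ) = ((m0 + t : ℕ) : ℝ) + 1 := by push_cast; ring
      rw [hc'] at h3 h4
      rw [hc, ← add_assoc]
      generalize hm : m0 + t = m at *
      have hW : 0 < (κ + D - m) * ((D : ℝ) - m) := mul_pos (by linarith) (by linarith)
      have hw1 : 0 ≤ ((m : ℝ) + 1) * (m + 1 - κ) := mul_nonneg (by linarith) (by linarith)
      have hw2 : 0 ≤ (κ + D - 1 - 2 * m) * ((D : ℝ) + 1) := mul_nonneg (by linarith) (by positivity)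
      have hWe : (κ + D - m) * ((D : ℝ) - m) = ((m : ℝ) + 1) * (m + 1 - κ) + (κ + D - 1 - 2 * m) * ((D : ℝ) + 1) := by ring
      have hP : ∀ c : ℝ, (κ + D - m) * ((D : ℝ) - m) * Lv I D (κ + D) α β (m + 1) c
          = ((m : ℝ) + 1) * (m + 1 - κ) * Lv I D (κ + D) α β m c
            + (κ + D - 1 - 2 * m) * ((D : ℝ) + 1) * Lv I (D + 1) (κ + D + 1) α β (m + 1) c := by
        intro c
        have := Lv_pascal I D (κ + D) α β m c hID
        linear_combination -this
      constructor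
      · apply mean_le hW hWe hw1 hw2 (hP _) (Or.inr _) h3
        exact Lv_betw h1 h2 (by linarith) (by linarith)
      · apply mean_le hW hWe hw1 hw2 (hP _) (Or.inr _)
        · exact Lv_betw h3 h4 (by linarith) (by linarith)
        · exact Lv_betw h1 h2 (by linarith) (by linarith)
  -- second half
  have second : ∀ t M : ℕ, M + t = D → κ + D < 2 * (M : ℝ) →
      |Lv I D (κ + D) α β M M| ≤ 1 ∧ |Lv I D (κ + D) α β M (κ + D - M)| ≤ 1 := by
    intro t
    induction t with
    | zero =>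
      intro M hM hlt
      have hMD : M = D := by omega
      subst hMD
      obtain ⟨h3, h4⟩ := hnext (M + 1) (by
        have : (m0 : ℝ) < M := by linarith
        have := (Nat.cast_lt (α := ℝ)).1 this
        omega) (by omega)
      push_cast at h3 h4
      have hW : 0 < ((M : ℝ) + 1) * (M + 1 - κ) := mul_pos (by positivity) (by linarith)
      have hw1 : (κ + M - M) * ((M : ℝ) - M) = 0 := by ring
      have hw2 : 0 ≤ (2 * M + 1 - (κ + M)) * ((M : ℝ) + 1) := mul_nonneg (by linarith) (by positivity)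
      have hWe : ((M : ℝ) + 1) * (M + 1 - κ) = (κ + M - M) * ((M : ℝ) - M) + (2 * M + 1 - (κ + M)) * ((M : ℝ) + 1) := by ring
      have hP : ∀ c : ℝ, ((M : ℝ) + 1) * (M + 1 - κ) * Lv I M (κ + M) α β M c
          = (κ + M - M) * ((M : ℝ) - M) * Lv I M (κ + M) α β (M + 1) c
            + (2 * M + 1 - (κ + M)) * ((M : ℝ) + 1) * Lv I (M + 1) (κ + M + 1) α β (M + 1) c := by
        intro c
        have := Lv_pascal I M (κ + M) α β M c hID
        linear_combination this
      constructor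
      · apply mean_le hW hWe hw1.ge hw2 (hP _) (Or.inl hw1)
        exact Lv_betw h4 h3 (by linarith) (by linarith)
      · apply mean_le hW hWe hw1.ge hw2 (hP _) (Or.inl hw1)
        rw [show κ + (M : ℝ) - M = κ + M + 1 - (M + 1) by ring]
        exact h4
    | succ t ih =>
      intro M hM hlt
      obtain ⟨h1, h2⟩ := ih (M + 1) (by omega) (by push_cast; linarith)
      have hmM : m0 ≤ M := by
        have hMD : (M : ℝ) ≤ D := by exact_mod_cast (by omega : M ≤ D)
        have : (m0 : ℝ) < M := by linarith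
        have := (Nat.cast_lt (α := ℝ)).1 this
        omega
      obtain ⟨h3, h4⟩ := hnext (M + 1) (by omega) (by omega)
      push_cast at h1 h2 h3 h4
      have hMD : ((M : ℝ) + 1) ≤ D := by exact_mod_cast (by omega : M + 1 ≤ D)
      have hM0 : (0 : ℝ) ≤ M := by positivity
      have hW : 0 < ((M : ℝ) + 1) * (M + 1 - κ) := mul_pos (by positivity) (by linarith)
      have hw1 : 0 ≤ (κ + D - M) * ((D : ℝ) - M) := mul_nonneg (by linarith) (by linarith)
      have hw2 : 0 ≤ (2 * M + 1 - (κ + D)) * ((D : ℝ) + 1) := mul_nonneg (by linarith) (by positivity)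
      have hWe : ((M : ℝ) + 1) * (M + 1 - κ) = (κ + D - M) * ((D : ℝ) - M) + (2 * M + 1 - (κ + D)) * ((D : ℝ) + 1) := by ring
      have hP : ∀ c : ℝ, ((M : ℝ) + 1) * (M + 1 - κ) * Lv I D (κ + D) α β M c
          = (κ + D - M) * ((D : ℝ) - M) * Lv I D (κ + D) α β (M + 1) c
            + (2 * M + 1 - (κ + D)) * ((D : ℝ) + 1) * Lv I (D + 1) (κ + D + 1) α β (M + 1) c := by
        intro c
        have := Lv_pascal I D (κ + D) α β M c hID
        linear_combination this
      constructor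
      · apply mean_le hW hWe hw1 hw2 (hP _) (Or.inr _)
        · exact Lv_betw h4 h3 (by linarith) (by linarith)
        · exact Lv_betw h2 h1 (by linarith) (by linarith)
      · apply mean_le hW hWe hw1 hw2 (hP _) (Or.inr _)
        · rw [show κ + (D : ℝ) - M = κ + D + 1 - (M + 1) by ring]
          exact h4
        · exact Lv_betw h2 h1 (by linarith) (by linarith)
  intro M hM1 hM2
  rcases lt_trichotomy (2 * (M : ℝ)) (κ + D) with h | h | h
  · obtain ⟨t, rfl⟩ : ∃ t, M = m0 + t := ⟨M - m0, by omega⟩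
    exact first t hM2 h
  · exfalso
    apply nonint hm0 hm1 (2 * (M : ℤ) - D)
    push_cast
    linarith
  · obtain ⟨t, ht⟩ : ∃ t, M + t = D := ⟨D - M, by omega⟩
    exact second t M ht h

end

end Pool.Agent.H92BI
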