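import Pool.Agent.H92BI.RowsAB

set_option autoImplicit false

namespace Pool.Agent.H92BI

open Finset

/-- the last entry -/
theorem corner_Tb {n : ℕ} {κ q x : ℝ} (hκ : (n : ℝ) < κ) (hf : ∀ m, m ≤ n → fb (κ + q) x m ≠ 0) :
    Ent n (κ + n) q x n n (q - n) (κ + n - n) = Tb (κ + q) x (q - n) (κ + n) (n + 1) := by
  rw [Ent_eq _ _ _ _ _ _ _ _ le_rfl]
  have f1 := hf n le_rfl
  have e : κ + n - n = (n : ℝ) + (κ + n - 2 * n) := by ring
  rw [e, Lv_shift, Lv_base _ _ _ _ _ _ _ le_rfl, Bv_base _ _ _ _ _ _ _ le_rfl,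
    sumE (by ring) (by linarith) hf, sumB (by ring) hf]
  unfold Tb
  rw [prod_range_succ]
  generalize ∏ m ∈ range n, gb (κ + q) x (q - n) (κ + n) m / fb (κ + q) x m = Q
  unfold gb
  field_simp

/-- all entries, mixed case -/
theorem Ent_le_AB {n : ℕ} {p q x : ℝ} (hp : 2 * (n : ℝ) < p) (hq1 : (n : ℝ) < q) (hq2 : q < 2 * n)
    (hx : p * q ≤ 2 * x) (hf : ∀ m, m ≤ n → fb (p + q - n) x m ≠ 0)
    (hdd : |Ent n p q x n n (q - n) (p - n)| ≤ 1)
    {I M : ℕ} (hI : I ≤ n) (hM : M ≤ n) :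
    |Ent n p q x I M I M| ≤ 1 ∧ |Ent n p q x I M I (p - M)| ≤ 1 ∧ |Ent n p q x I M (q - I) M| ≤ 1 ∧
    |Ent n p q x I M (q - I) (p - M)| ≤ 1 := by
  obtain ⟨κ, rfl⟩ : ∃ κ, p = κ + n := ⟨p - n, by ring⟩
  have hκ : (n : ℝ) < κ := by linarith
  have hσ : κ + n + q - n = κ + q := by ring
  rw [hσ] at hf
  rw [corner_Tb hκ hf] at hdd
  have h1 := odd_rows_AB hκ hq1 hq2 hx hf hdd hI
  have h2 := even_rows_AB hκ hq1 hq2 hx hf hdd hI
  rw [Ent_eq _ _ _ _ _ _ _ _ hI, Ent_eq _ _ _ _ _ _ _ _ hI, Ent_eq _ _ _ _ _ _ _ _ hI, Ent_eq _ _ _ _ _ _ _ _ hI]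
  exact ⟨h2.2 M hM, h2.1 M hM, h1.2 M hM, h1.1 M hM⟩

/-- the criterion for the entries; the case of two short sequences is left out -/
theorem Ent_iff {n : ℕ} (hn : 1 ≤ n) {p q x : ℝ} (hx0 : x ≠ 0) (hf : ∀ m, m ≤ n → fb (p + q - n) x m ≠ 0)
    (hp0 : p ≠ 0) (hq0 : q ≠ 0) (hpn : p ≠ n) (hqn : q ≠ n) (hp2 : p ≠ 2 * n) (hq2 : q ≠ 2 * n)
    (hnot : 2 * n < p ∨ 2 * n < q ∨ p < n ∨ q < n) :
    (∀ I M, I ≤ n → M ≤ n →
      |Ent n p q x I M I M| ≤ 1 ∧ |Ent n p q x I M I (p - M)| ≤ 1 ∧ |Ent n p q x I M (q - I) M| ≤ 1 ∧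
      |Ent n p q x I M (q - I) (p - M)| ≤ 1) ↔
    ((n : ℝ) < p ∧ (n : ℝ) < q ∧ |1 - p * q / x| ≤ 1 ∧ |Ent n p q x n n (q - n) (p - n)| ≤ 1) := by
  constructor
  · intro h
    have hn' : (1 : ℝ) ≤ n := by exact_mod_cast hn
    have c1 := (h 0 0 (by omega) (by omega)).2.2.2
    rw [Ent_row0] at c1
    push_cast at c1
    rw [sub_zero, sub_zero] at c1
    refine ⟨?_, ?_, c1, (h n n le_rfl le_rfl).2.2.2⟩
    · by_contra hcon
      push Not at hcon
      have hlt : p < n := lt_of_le_of_ne hcon hpn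
      have r1 := (h 0 1 (by omega) hn).2.2.1
      have r2 := (h 0 n (by omega) le_rfl).2.2.2
      rw [Ent_row0] at r1 r2
      push_cast at r1 r2
      rw [sub_zero, mul_div_assoc] at r1 r2
      exact sign_kill (z := q / x) (div_ne_zero hq0 hx0) r1 r2 one_pos (by linarith)
    · by_contra hcon
      push Not at hcon
      have hlt : q < n := lt_of_le_of_ne hcon hqn
      have r1 := (h 1 0 hn (by omega)).2.1
      have r2 := (h n 0 le_rfl (by omega)).2.2.2
      rw [Ent_col0] at r1 r2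
      push_cast at r1 r2
      rw [sub_zero, mul_comm, mul_div_assoc] at r1 r2
      exact sign_kill (z := p / x) (div_ne_zero hp0 hx0) r1 r2 one_pos (by linarith)
  · rintro ⟨h1, h2, h3, h4⟩ I M hI hM
    have hn0 : (0 : ℝ) ≤ n := by positivity
    -- `p q ≤ 2 x`
    have hpq : 0 < p * q := mul_pos (by linarith) (by linarith)
    have hx : p * q ≤ 2 * x := by
      rw [abs_le] at h3
      have h5 : 0 ≤ p * q / x := by linarith [h3.2]
      have hxpos : 0 < x := by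
        rcases lt_or_gt_of_ne hx0 with h | h
        · exfalso
          have := div_neg_of_pos_of_neg hpq h
          linarith
        · exact h
      have h6 : p * q / x ≤ 2 := by linarith [h3.1]
      rwa [div_le_iff₀ hxpos] at h6
    rcases lt_or_gt_of_ne hp2 with hp | hp
    · rcases lt_or_gt_of_ne hq2 with hq | hq
      · exfalso
        rcases hnot with h | h | h | h <;> linarith
      · -- exchange
        have hf' : ∀ m, m ≤ n → fb (q + p - n) x m ≠ 0 := by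
          intro m hm
          rw [add_comm q p]
          exact hf m hm
        rw [Ent_symm] at h4
        have := Ent_le_AB hq h1 hp (by linarith) hf' h4 hM hI
        rw [Ent_symm n q p, Ent_symm n q p, Ent_symm n q p, Ent_symm n q p] at this
        exact ⟨this.1, this.2.2.1, this.2.1, this.2.2.2⟩
    · rcases lt_or_gt_of_ne hq2 with hq | hq
      · exact Ent_le_AB hp h2 hq hx hf h4 hI hM
      · exact Ent_le hp hq hx hI hM

end Pool.Agent.H92BI
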