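import Pool.Agent.H92BI.BB7
import Pool.Agent.H92BI.Crit

set_option autoImplicit false

namespace Pool.Agent.H92BI

open Finset

section
variable {I n m0 L : ℕ} {κ q x y : ℝ}

/-- all columns of a row at level `n` -/
theorem row_BB (hy : ∀ N : ℕ, (y - N) * (q - y - N) = ((I : ℝ) - N) * (q - I - N)) (hIn : I ≤ n) (hnL : n ≤ L)
    (hf : ∀ m, m ≤ I → fb (κ + q) x m ≠ 0) (hm0 : (m0 : ℝ) < κ) (hm1 : κ < m0 + 1) (hmn : m0 + 1 ≤ n)
    (hq0 : 0 < q) (hq : q ≤ κ + L) (hx : (κ + L) * q ≤ 2 * x) (hx2 : 2 * x ≤ (κ + L + 1) * q)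
    (hs0 : 0 ≤ y) (hs1 : y ≤ q) (hs2 : q - L ≤ y)
    (hnc : ∀ D, I ≤ D → D ≤ L → ∀ M, M ≤ D → M ≤ m0 →
      |Lv I D (κ + D) (al I q (κ + q) x y) (be I q (κ + q) x y) M M| ≤ 1 ∧
      |Lv I D (κ + D) (al I q (κ + q) x y) (be I q (κ + q) x y) M (κ + D - M)| ≤ 1)
    (hlast : |Lv I I (κ + I) (al I q (κ + q) x y) (be I q (κ + q) x y) I κ| ≤ 1) :
    ∀ M, M ≤ n → |Lv I n (κ + n) (al I q (κ + q) x y) (be I q (κ + q) x y) M M| ≤ 1 ∧
      |Lv I n (κ + n) (al I q (κ + q) x y) (be I q (κ + q) x y) M (κ + n - M)| ≤ 1 := by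
  have hpos : ∀ N : ℕ, κ + 1 - N ≠ 0 := by
    intro N h
    apply nonint hm0 hm1 ((N : ℤ) - 1)
    push_cast
    linarith
  have hmn' : (m0 : ℝ) + 1 ≤ n := by exact_mod_cast hmn
  have hnL' : (n : ℝ) ≤ L := by exact_mod_cast hnL
  have hlast' : |Lv I L (κ + L) (al I q (κ + q) x y) (be I q (κ + q) x y) L κ| ≤ 1 := by
    rw [last_const hpos (by omega)]; exact hlast
  have htop := level_top (L := L) hy (by omega) hf hm0 hm1 (by omega) (by linarith) hq0 hq hx hx2 hs0 hs1 hs2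
    (hnc L (by omega) le_rfl m0 (by omega) le_rfl).1 (hnc L (by omega) le_rfl m0 (by omega) le_rfl).2 hlast'
  have key : ∀ t D : ℕ, D + t = L → n ≤ D → ∀ M, m0 ≤ M → M ≤ D →
      |Lv I D (κ + D) (al I q (κ + q) x y) (be I q (κ + q) x y) M M| ≤ 1 ∧
      |Lv I D (κ + D) (al I q (κ + q) x y) (be I q (κ + q) x y) M (κ + D - M)| ≤ 1 := by
    intro t
    induction t with
    | zero =>
      intro D hD _
      have : D = L := by omega
      subst this
      exact htop
    | succ t ih =>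
      intro D hD hnD
      exact level_up (by omega) hm0 hm1 (hnc D (by omega) (by omega) m0 (by omega) le_rfl).1
        (hnc D (by omega) (by omega) m0 (by omega) le_rfl).2 (ih (D + 1) (by omega) (by omega))
  intro M hM
  rcases le_or_gt m0 M with h | h
  · exact key (L - n) n (by omega) le_rfl M h hM
  · exact hnc n hIn hnL M hM (by omega)

end

/-- all entries in the case of two short sequences, with `q ≤ p` -/
theorem Ent_le_BB0 {n : ℕ} {p q x : ℝ} (hp1 : (n : ℝ) < p) (hp2 : p < 2 * n) (hq1 : (n : ℝ) < q) (hq2 : q < 2 * n)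
    (hpi : ∀ j : ℕ, p ≠ j) (_hqi : ∀ j : ℕ, q ≠ j) (hqp : q ≤ p)
    (hx : p * q ≤ 2 * x) (hf : ∀ m, m ≤ n → fb (p + q - n) x m ≠ 0)
    {I M : ℕ} (hI : I ≤ n) (hM : M ≤ n) :
    |Ent n p q x I M I M| ≤ 1 ∧ |Ent n p q x I M I (p - M)| ≤ 1 ∧ |Ent n p q x I M (q - I) M| ≤ 1 ∧
    |Ent n p q x I M (q - I) (p - M)| ≤ 1 := by
  have hn : (0 : ℝ) ≤ n := by positivity
  have hI' : (I : ℝ) ≤ n := by exact_mod_cast hI
  have hM' : (M : ℝ) ≤ n := by exact_mod_cast hM
  have hI0 : (0 : ℝ) ≤ I := by positivity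
  have hM0 : (0 : ℝ) ≤ M := by positivity
  have hpq : 0 < p * q := mul_pos (by linarith) (by linarith)
  have hx0 : 0 < x := by linarith
  have hq0 : 0 < q := by linarith
  -- first array
  obtain ⟨κ, rfl⟩ : ∃ κ, p = κ + n := ⟨p - n, by ring⟩
  have hσ : κ + n + q - n = κ + q := by ring
  rw [hσ] at hf
  have hκ0 : 0 < κ := by linarith
  have hfl := Nat.floor_le hκ0.le
  have hfl2 := Nat.lt_floor_add_one κ
  set m0 := ⌊κ⌋₊ with hm0d
  have hm0 : (m0 : ℝ) < κ := by
    apply lt_of_le_of_ne hfl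
    intro h
    apply hpi (m0 + n)
    push_cast
    linarith
  have hmn : m0 + 1 ≤ n := by
    have : (m0 : ℝ) < n := by linarith
    have := (Nat.cast_lt (α := ℝ)).1 this
    omega
  -- the threshold level
  have hz0 : 0 ≤ 2 * x / q - κ := by
    have : (κ + n) ≤ 2 * x / q := by rw [le_div_iff₀ hq0]; exact hx
    linarith
  have hL1 := Nat.floor_le hz0
  have hL2 := Nat.lt_floor_add_one (2 * x / q - κ)
  have hnL : n ≤ ⌊2 * x / q - κ⌋₊ := by
    apply Nat.le_floor
    have : (κ + n) ≤ 2 * x / q := by rw [le_div_iff₀ hq0]; exact hx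
    linarith
  set L := ⌊2 * x / q - κ⌋₊ with hLd
  have hnL' : (n : ℝ) ≤ L := by exact_mod_cast hnL
  have hxL : (κ + L) * q ≤ 2 * x := by
    have : κ + L ≤ 2 * x / q := by linarith
    rwa [le_div_iff₀ hq0] at this
  have hxL2 : 2 * x ≤ (κ + L + 1) * q := by
    have : 2 * x / q ≤ κ + L + 1 := by linarith
    rwa [div_le_iff₀ hq0] at this
  have hpos : ∀ N : ℕ, κ + 1 - N ≠ 0 := by
    intro N h
    apply nonint hm0 hfl2 ((N : ℤ) - 1)
    push_cast
    linarith
  have hfI : ∀ m, m ≤ I → fb (κ + q) x m ≠ 0 := fun m hm => hf m (by omega)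
  have hWd := Wd0_le (n := n) (κ := κ) (q := q) (x := x) hκ0.le (by linarith) hq1.le hq0 hq2 hx hf
  have hodd := row_BB (I := I) (n := n) (L := L) (m0 := m0) (κ := κ) (q := q) (x := x) (y := q - I)
    (fun N => by ring) hI hnL hfI hm0 hfl2 hmn hq0 (by linarith) hxL hxL2 (by linarith) (by linarith) (by linarith)
    (odd_BB hm0 (by omega) (by linarith) (by linarith) hxL hfI)
    (by rw [last_odd (fun N _ => hpos N) hfI]; exact hWd _ (by omega)) M hM
  have heven : |Ent n (κ + n) q x I M I M| ≤ 1 ∧ |Ent n (κ + n) q x I M I (κ + n - M)| ≤ 1 := by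
    rcases lt_or_ge (I : ℝ) (q - n) with hc | hc
    · -- by symmetry
      rw [Ent_symm, Ent_symm n (κ + n) q]
      have hf2 : ∀ m, m ≤ M → fb (q - n + (κ + n)) x m ≠ 0 := by
        intro m hm
        rw [show q - n + (κ + n) = κ + q by ring]
        exact hf m (by omega)
      have k1 := even_BB (m0 := I) (κ := q - n) (q := κ + n) (x := x) (I := M) (N := n) hc hM (by linarith) (by linarith) hx0
        (by rw [sub_add_cancel]; linarith) hf2 n hM le_rfl I hI le_rfl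
      have k2 := odd_BB (m0 := I) (κ := q - n) (q := κ + n) (x := x) (I := M) (N := n) hc hM (by linarith) (by linarith)
        (by rw [sub_add_cancel]; linarith) hf2 n hM le_rfl I hI le_rfl
      have e1 := Ent_eq n (q - n) (κ + n) x M I M I hM
      have e2 := Ent_eq n (q - n) (κ + n) x M I (κ + n - M) I hM
      rw [sub_add_cancel] at e1 e2
      rw [sub_add_cancel] at k1 k2
      rw [e1, e2]
      exact ⟨k1.1, k2.1⟩
    · rw [Ent_eq _ _ _ _ _ _ _ _ hI, Ent_eq _ _ _ _ _ _ _ _ hI]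
      have hI1 : 1 ≤ I := by
        rcases Nat.eq_zero_or_pos I with h | h
        · exfalso
          rw [h] at hc
          push_cast at hc
          linarith
        · exact h
      exact row_BB (I := I) (n := n) (L := L) (m0 := m0) (κ := κ) (q := q) (x := x) (y := I)
        (fun N => by ring) hI hnL hfI hm0 hfl2 hmn hq0 (by linarith) hxL hxL2 (by linarith) (by linarith) (by linarith)
        (even_BB hm0 (by omega) (by linarith) (by linarith) hx0 hxL hfI)
        (by rw [last_even hI1 (fun N _ => hpos N) hfI]; exact hWd _ (by omega)) M hM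
  refine ⟨heven.1, heven.2, ?_, ?_⟩
  · rw [Ent_eq _ _ _ _ _ _ _ _ hI]; exact hodd.1
  · rw [Ent_eq _ _ _ _ _ _ _ _ hI]; exact hodd.2

/-- all entries in the case of two short sequences -/
theorem Ent_le_BB {n : ℕ} {p q x : ℝ} (hp1 : (n : ℝ) < p) (hp2 : p < 2 * n) (hq1 : (n : ℝ) < q) (hq2 : q < 2 * n)
    (hpi : ∀ j : ℕ, p ≠ j) (hqi : ∀ j : ℕ, q ≠ j)
    (hx : p * q ≤ 2 * x) (hf : ∀ m, m ≤ n → fb (p + q - n) x m ≠ 0)
    {I M : ℕ} (hI : I ≤ n) (hM : M ≤ n) :
    |Ent n p q x I M I M| ≤ 1 ∧ |Ent n p q x I M I (p - M)| ≤ 1 ∧ |Ent n p q x I M (q - I) M| ≤ 1 ∧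
    |Ent n p q x I M (q - I) (p - M)| ≤ 1 := by
  rcases le_total q p with h | h
  · exact Ent_le_BB0 hp1 hp2 hq1 hq2 hpi hqi h hx hf hI hM
  · have hf' : ∀ m, m ≤ n → fb (q + p - n) x m ≠ 0 := by
      intro m hm
      rw [add_comm q p]
      exact hf m hm
    have := Ent_le_BB0 hq1 hq2 hp1 hp2 hqi hpi h (by linarith) hf' hM hI
    rw [Ent_symm n q p, Ent_symm n q p, Ent_symm n q p, Ent_symm n q p] at this
    exact ⟨this.1, this.2.2.1, this.2.1, this.2.2.2⟩

/-- the criterion for the entries -/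
theorem Ent_iff_full {n : ℕ} (hn : 1 ≤ n) {p q x : ℝ} (hx0 : x ≠ 0) (hf : ∀ m, m ≤ n → fb (p + q - n) x m ≠ 0)
    (hp0 : ∀ j : ℕ, j ≤ 2 * n → p ≠ j) (hq0 : ∀ j : ℕ, j ≤ 2 * n → q ≠ j) :
    (∀ I M, I ≤ n → M ≤ n →
      |Ent n p q x I M I M| ≤ 1 ∧ |Ent n p q x I M I (p - M)| ≤ 1 ∧ |Ent n p q x I M (q - I) M| ≤ 1 ∧
      |Ent n p q x I M (q - I) (p - M)| ≤ 1) ↔
    ((n : ℝ) < p ∧ (n : ℝ) < q ∧ |1 - p * q / x| ≤ 1 ∧ |Ent n p q x n n (q - n) (p - n)| ≤ 1) := by
  have p0 : p ≠ 0 := by have := hp0 0 (by omega); push_cast at this; exact this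
  have q0 : q ≠ 0 := by have := hq0 0 (by omega); push_cast at this; exact this
  have p1 : p ≠ n := hp0 n (by omega)
  have q1 : q ≠ n := hq0 n (by omega)
  have p2 : p ≠ 2 * n := by have := hp0 (2 * n) le_rfl; push_cast at this; exact this
  have q2 : q ≠ 2 * n := by have := hq0 (2 * n) le_rfl; push_cast at this; exact this
  by_cases hnot : 2 * n < p ∨ 2 * n < q ∨ p < n ∨ q < n
  · exact Ent_iff hn hx0 hf p0 q0 p1 q1 p2 q2 hnot
  · push Not at hnot
    obtain ⟨h1, h2, h3, h4⟩ := hnot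
    have h1' : p < 2 * n := lt_of_le_of_ne h1 p2
    have h2' : q < 2 * n := lt_of_le_of_ne h2 q2
    have h3' : (n : ℝ) < p := lt_of_le_of_ne h3 (Ne.symm p1)
    have h4' : (n : ℝ) < q := lt_of_le_of_ne h4 (Ne.symm q1)
    have hpi : ∀ j : ℕ, p ≠ j := by
      intro j hj
      have : ((j : ℕ) : ℝ) < ((2 * n : ℕ) : ℝ) := by push_cast; linarith
      have := (Nat.cast_lt (α := ℝ)).1 this
      exact hp0 j (by omega) hj
    have hqi : ∀ j : ℕ, q ≠ j := by
      intro j hj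
      have : ((j : ℕ) : ℝ) < ((2 * n : ℕ) : ℝ) := by push_cast; linarith
      have := (Nat.cast_lt (α := ℝ)).1 this
      exact hq0 j (by omega) hj
    constructor
    · intro h
      have c1 := (h 0 0 (by omega) (by omega)).2.2.2
      rw [Ent_row0] at c1
      push_cast at c1
      rw [sub_zero, sub_zero] at c1
      exact ⟨h3', h4', c1, (h n n le_rfl le_rfl).2.2.2⟩
    · rintro ⟨_, _, h5, _⟩ I M hI hM
      have hn0 : (0 : ℝ) ≤ n := by positivity
      have hpq : 0 < p * q := mul_pos (by linarith) (by linarith)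
      have hx : p * q ≤ 2 * x := by
        rw [abs_le] at h5
        have h6 : 0 ≤ p * q / x := by linarith [h5.2]
        have hxpos : 0 < x := by
          rcases lt_or_gt_of_ne hx0 with h | h
          · exfalso
            have := div_neg_of_pos_of_neg hpq h
            linarith
          · exact h
        have h7 : p * q / x ≤ 2 := by linarith [h5.1]
        rwa [div_le_iff₀ hxpos] at h7
      exact Ent_le_BB h3' h1' h4' h2' hpi hqi hx hf hI hM

end Pool.Agent.H92BI
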