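import Pool.Agent.H92BI.Level

set_option autoImplicit false

namespace Pool.Agent.H92BI

open Finset

/-- the numbers `f_m` -/
noncomputable def fb (σ x : ℝ) (m : ℕ) : ℝ := x - m * (σ - m)

/-- the numbers `g_m` -/
noncomputable def gb (σ x u v : ℝ) (m : ℕ) : ℝ := fb σ x m - u * (v - 2 * m)

noncomputable def Rr (I : ℕ) (q σ x : ℝ) (N : ℕ) : ℝ :=
  ∏ m ∈ range N, (-(((I : ℝ) - m) * (q - I - m))) / (((m : ℝ) + 1) * fb σ x m)

noncomputable def al (I : ℕ) (q σ x y : ℝ) (N : ℕ) : ℝ := Rr I q σ x N * (1 + N * (y - N) / fb σ x N)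

noncomputable def be (I : ℕ) (q σ x y : ℝ) (N : ℕ) : ℝ := Rr I q σ x N * ((y - N) / fb σ x N)

noncomputable def Tb (σ x u v : ℝ) (M : ℕ) : ℝ := ∏ m ∈ range M, gb σ x u v m / fb σ x m

/-- the summand at the base level -/
noncomputable def Wb (σ x u v : ℝ) (M N : ℕ) : ℝ :=
  ∏ m ∈ range N, (-(((M : ℝ) - m) * (v - M - m) * (u - m))) / (((m : ℝ) + 1) * fb σ x m)

theorem Wb_succ (σ x u v : ℝ) (M N : ℕ) : Wb σ x u v M (N + 1) =
    Wb σ x u v M N * ((-(((M : ℝ) - N) * (v - M - N) * (u - N))) / (((N : ℝ) + 1) * fb σ x N)) := by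
  unfold Wb; rw [prod_range_succ]

theorem Wb_zero (σ x u v : ℝ) (M : ℕ) : Wb σ x u v M 0 = 1 := by simp [Wb]

theorem Wb_out (σ x u v : ℝ) {M N : ℕ} (h : M < N) : Wb σ x u v M N = 0 := by
  unfold Wb
  apply prod_eq_zero (mem_range.2 h)
  simp

theorem W_eq (I : ℕ) (q σ x v : ℝ) (M N : ℕ) (hN : N ≤ I) :
    At I v M N * Rr I q σ x N = Wb σ x (q - I) v M N := by
  unfold At Rr Wb
  rw [← prod_mul_distrib]
  apply prod_congr rfl
  intro m hm
  rw [mem_range] at hm
  have h1 : (I : ℝ) - m ≠ 0 := cast_ne (by omega)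
  rw [div_mul_div_comm, show ((M : ℝ) - m) * (v - M - m) * -(((I : ℝ) - m) * (q - I - m))
      = ((I : ℝ) - m) * (-(((M : ℝ) - m) * (v - M - m) * (q - I - m))) by ring,
    mul_div_mul_left _ _ h1]

/-- sums over the row at the base level -/
theorem Lv_base (I : ℕ) (q σ x v y : ℝ) (M : ℕ) (hM : M ≤ I) (c : ℝ) :
    Lv I I v (al I q σ x y) (be I q σ x y) M c =
      ∑ N ∈ range (M + 1), Wb σ x (q - I) v M N * (1 - (c - N) * (y - N) / fb σ x N) := by
  unfold Lv
  rw [← sum_subset (range_subset_range.2 (show M + 1 ≤ I + 1 by omega))]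
  · apply sum_congr rfl
    intro N hN
    rw [mem_range] at hN
    rw [← W_eq I q σ x v M N (by omega)]
    unfold al be
    ring
  · intro N h1 h2
    rw [mem_range] at h1 h2
    have h3 := W_eq I q σ x v M N (by omega)
    rw [Wb_out _ _ _ _ (by omega)] at h3
    unfold al be
    rw [show At I v M N * (Rr I q σ x N * (1 + N * (y - N) / fb σ x N) - c * (Rr I q σ x N * ((y - N) / fb σ x N)))
      = (At I v M N * Rr I q σ x N) * ((1 + N * (y - N) / fb σ x N) - c * ((y - N) / fb σ x N)) by ring, h3, zero_mul]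

theorem Bv_base (I : ℕ) (q σ x v y : ℝ) (M : ℕ) (hM : M ≤ I) :
    Bv I I v (be I q σ x y) M =
      ∑ N ∈ range (M + 1), Wb σ x (q - I) v M N * ((y - N) / fb σ x N) := by
  unfold Bv
  rw [← sum_subset (range_subset_range.2 (show M + 1 ≤ I + 1 by omega))]
  · apply sum_congr rfl
    intro N hN
    rw [mem_range] at hN
    rw [← W_eq I q σ x v M N (by omega)]
    unfold be
    ring
  · intro N h1 h2
    rw [mem_range] at h1 h2
    have h3 := W_eq I q σ x v M N (by omega)
    rw [Wb_out _ _ _ _ (by omega)] at h3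
    unfold be
    rw [← mul_assoc, h3, zero_mul]

theorem fb_zero (σ x : ℝ) : fb σ x 0 = x := by simp [fb]

/-- the sum with the shift -/
theorem sumB {σ x u v : ℝ} (huv : u + v = σ) {M : ℕ} (hf : ∀ m, m ≤ M → fb σ x m ≠ 0) :
    ∑ N ∈ range (M + 1), Wb σ x u v M N * ((u - N) / fb σ x N) = u / fb σ x M * Tb σ x u v M := by
  have hf1 : ∀ m : ℕ, fb σ x (m + 1) = (x - (σ - 1)) - m * (v + (u - 1) - 1 - m) := by
    intro m
    unfold fb
    push_cast
    rw [← huv]
    ring
  have h := saal v (u - 1) (x - (σ - 1)) M (fun m hm => by rw [← hf1]; exact hf _ (by omega))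
  have e1 : ∀ N, N ≤ M → Wb σ x u v M N * ((u - N) / fb σ x N) = u / x * ∏ m ∈ range N,
      (-(((M : ℝ) - m) * (v - M - m) * (u - 1 - m))) / (((m : ℝ) + 1) * ((x - (σ - 1)) - m * (v + (u - 1) - 1 - m))) := by
    intro N
    induction N with
    | zero =>
      intro _
      rw [Wb_zero, fb_zero]
      simp
    | succ N ih =>
      intro hN
      have h1 := ih (by omega)
      have f1 := hf N (by omega)
      have f2 := hf (N + 1) hN
      rw [prod_range_succ, ← mul_assoc, ← h1, Wb_succ, ← hf1]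
      push_cast
      have : (N : ℝ) + 1 ≠ 0 := by positivity
      field_simp
      ring
  rw [sum_congr rfl (fun N hN => e1 N (by rw [mem_range] at hN; omega)), ← mul_sum, h]
  have e2 : ∀ K, K ≤ M → u / x * ∏ m ∈ range K, ((x - (σ - 1)) - m * (v + (u - 1) - 1 - m) - (u - 1) * (v - 1 - 2 * m))
      / ((x - (σ - 1)) - m * (v + (u - 1) - 1 - m)) = u / fb σ x K * Tb σ x u v K := by
    intro K
    induction K with
    | zero => intro _; rw [fb_zero]; simp [Tb]
    | succ K ih =>
      intro hK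
      have f1 := hf K (by omega)
      have f2 := hf (K + 1) hK
      have h2 := ih (by omega)
      rw [prod_range_succ, ← mul_assoc, h2, ← hf1]
      unfold Tb
      rw [prod_range_succ]
      have hg : fb σ x (K + 1) - (u - 1) * (v - 1 - 2 * K) = gb σ x u v K := by
        unfold gb fb
        push_cast
        rw [← huv]
        ring
      rw [hg]
      field_simp
  exact e2 M le_rfl

/-- the sum at the even point -/
theorem sumE {σ x u v : ℝ} (huv : u + v = σ) {M : ℕ} (hv : 2 * (M : ℝ) < v) (hf : ∀ m, m ≤ M → fb σ x m ≠ 0) :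
    ∑ N ∈ range (M + 1), Wb σ x u v M N * (1 - ((M : ℝ) - N) * (u - N) / fb σ x N) = Tb σ x u v M := by
  have hf1 : ∀ m : ℕ, fb σ x m = x - m * (v + 1 + u - 1 - m) := by
    intro m
    unfold fb
    rw [← huv]
    ring
  have h := saal (v + 1) u x M (fun m hm => by rw [← hf1]; exact hf _ (by omega))
  -- partial sums
  have hpos : ∀ N : ℕ, N ≤ M → v + 1 - M - N ≠ 0 := by
    intro N hN
    have : (N : ℝ) ≤ M := by exact_mod_cast hN
    have : (0 : ℝ) < v + 1 - M - N := by linarith
    exact this.ne'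
  have e1 : ∀ N, N ≤ M → Wb σ x u v M N * ((v + 1 - M) / (v + 1 - M - N)) = ∏ m ∈ range N,
      (-(((M : ℝ) - m) * (v + 1 - M - m) * (u - m))) / (((m : ℝ) + 1) * (x - m * (v + 1 + u - 1 - m))) := by
    intro N
    induction N with
    | zero =>
      intro _
      rw [Wb_zero]
      have := hpos 0 (Nat.zero_le _)
      push_cast at this
      rw [sub_zero] at this
      simp [this]
    | succ N ih =>
      intro hN
      have h1 := ih (by omega)
      have f1 := hf N (by omega)
      have p1 := hpos N (by omega)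
      have p2 := hpos (N + 1) hN
      rw [prod_range_succ, ← h1, Wb_succ, ← hf1]
      have : (N : ℝ) + 1 ≠ 0 := by positivity
      push_cast at p2 ⊢
      have p3 : v + 1 - M - (N + 1) = v - M - N := by ring
      rw [p3] at p2 ⊢
      field_simp
  have e2 : ∀ K, K ≤ M + 1 → ∑ N ∈ range K, Wb σ x u v M N * (1 - ((M : ℝ) - N) * (u - N) / fb σ x N)
      = ∑ N ∈ range K, Wb σ x u v M N * ((v + 1 - M) / (v + 1 - M - N)) + Wb σ x u v M K * (K / (v + 1 - M - K)) := by
    intro K
    induction K with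
    | zero => intro _; simp
    | succ K ih =>
      intro hK
      have f1 := hf K (by omega)
      have p1 := hpos K (by omega)
      rw [sum_range_succ, sum_range_succ, ih (by omega), Wb_succ]
      generalize ∑ N ∈ range K, Wb σ x u v M N * ((v + 1 - M) / (v + 1 - M - N)) = Sg
      rcases Nat.eq_or_lt_of_le (show K ≤ M by omega) with hKM | hKM
      · subst hKM
        have p1' : v + 1 - K - K ≠ 0 := p1
        rw [sub_self, zero_mul, zero_mul]
        have e3 : (v + 1 - K) / (v + 1 - K - K) = 1 + K / (v + 1 - K - K) := by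
          field_simp; ring
        rw [e3]
        simp
        ring
      · have p2 := hpos (K + 1) hKM
        push_cast at p2 ⊢
        have p3 : v + 1 - M - (K + 1) = v - M - K := by ring
        rw [p3] at p2 ⊢
        have : (K : ℝ) + 1 ≠ 0 := by positivity
        have e3 : (v + 1 - M) / (v + 1 - M - K) = 1 + K / (v + 1 - M - K) := by
          field_simp; ring
        rw [e3]
        field_simp
        ring
  rw [e2 (M + 1) le_rfl, Wb_out _ _ _ _ (Nat.lt_succ_self M), zero_mul, add_zero,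
    sum_congr rfl (fun N hN => e1 N (by rw [mem_range] at hN; omega)), h]
  unfold Tb
  apply prod_congr rfl
  intro m _
  rw [← hf1]
  congr 1
  unfold gb
  ring

end Pool.Agent.H92BI
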