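import Pool.Agent.H92BI.Crit

set_option autoImplicit false

namespace Pool.Agent.H92BI

theorem certI1 {M r w j t y : ℝ} (hM : 0 ≤ M) (hr : 0 ≤ r) (hw : 0 ≤ w) (hj : 0 ≤ j) (ht : 0 ≤ t) (hy : 0 ≤ y) :
    0 ≤ (((M+t)+(M+r+j))*((M+r+w)+(M+r))*(1/2)+y)*((((M+t)+(M+r+j))*((M+r+w)+(M+r))*(1/2)+y)-M*((M+t)+((M+r+w)+(M+r))-M)) - (((((M+t)+(M+r+j))*((M+r+w)+(M+r))*(1/2)+y)-M*((M+t)+((M+r+w)+(M+r))-M))*(((((M+t)+(M+r+j))*((M+r+w)+(M+r))*(1/2)+y)-(M+r+w)*((M+t)+(M+r)))+((M+r+w)-(M+r))*M)-((M+t)+(M+r+j)-2*M)*((M+r)*((((M+t)+(M+r+j))*((M+r+w)+(M+r))*(1/2)+y)-(M+r+w)*((M+t)+(M+r)))+((M+r+w)-(M+r))*M*((M+t)+(M+r)-M))) := by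
  have h : (((M+t)+(M+r+j))*((M+r+w)+(M+r))*(1/2)+y)*((((M+t)+(M+r+j))*((M+r+w)+(M+r))*(1/2)+y)-M*((M+t)+((M+r+w)+(M+r))-M)) - (((((M+t)+(M+r+j))*((M+r+w)+(M+r))*(1/2)+y)-M*((M+t)+((M+r+w)+(M+r))-M))*(((((M+t)+(M+r+j))*((M+r+w)+(M+r))*(1/2)+y)-(M+r+w)*((M+t)+(M+r)))+((M+r+w)-(M+r))*M)-((M+t)+(M+r+j)-2*M)*((M+r)*((((M+t)+(M+r+j))*((M+r+w)+(M+r))*(1/2)+y)-(M+r+w)*((M+t)+(M+r)))+((M+r+w)-(M+r))*M*((M+t)+(M+r)-M)))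
    = 4*M*j*r*t + (7/2)*M*j*r*w + 6*M*j*r^2 + (5/2)*M*j*t*w + (1/2)*M*j*w^2 + 1*M*j*y + 2*M*j^2*r + (1/2)*M*j^2*w + 4*M*r*t*w + 1*M*r*t^2 + (1/2)*M*r*w^2 + 4*M*r*y + 5*M*r^2*t + 3*M*r^2*w + 4*M*r^3 + (1/2)*M*t*w^2 + 2*M*t*y + 1*M*t^2*w + 1*M*w*y + 6*M^2*j*r + 2*M^2*j*t + 2*M^2*j*w + 1*M^2*j^2 + 3*M^2*r*t + 2*M^2*r*w + 5*M^2*r^2 + 1*M^2*t*w + 2*M^2*y + 2*M^3*j + 2*M^3*r + (3/2)*j*r*t*w + (1/2)*j*r*w^2 + 1*j*r*y + 2*j*r^2*t + (3/2)*j*r^2*w + 2*j*r^3 + (1/2)*j*t*w^2 + (1/2)*j^2*r*w + 1*j^2*r^2 + 1*r*t*w^2 + 2*r*t*y + 1*r*t^2*w + 1*r*w*y + 2*r^2*t*w + 1*r^2*t^2 + (1/2)*r^2*w^2 + 2*r^2*y + 2*r^3*t + 1*r^3*w + 1*r^4 + 1*t*w*y + (1/2)*t^2*w^2 := by ring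
  rw [h]
  positivity

theorem certI2 {M r w j t y : ℝ} (hM : 0 ≤ M) (hr : 0 ≤ r) (hw : 0 ≤ w) (hj : 0 ≤ j) (ht : 0 ≤ t) (hy : 0 ≤ y) :
    0 ≤ (((M+t)+(M+r+j))*((M+r+w)+(M+r))*(1/2)+y)*((((M+t)+(M+r+j))*((M+r+w)+(M+r))*(1/2)+y)-M*((M+t)+((M+r+w)+(M+r))-M)) + (((((M+t)+(M+r+j))*((M+r+w)+(M+r))*(1/2)+y)-M*((M+t)+((M+r+w)+(M+r))-M))*(((((M+t)+(M+r+j))*((M+r+w)+(M+r))*(1/2)+y)-(M+r+w)*((M+t)+(M+r)))+((M+r+w)-(M+r))*M)-((M+t)+(M+r+j)-2*M)*((M+r)*((((M+t)+(M+r+j))*((M+r+w)+(M+r))*(1/2)+y)-(M+r+w)*((M+t)+(M+r)))+((M+r+w)-(M+r))*M*((M+t)+(M+r)-M))) := by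
  have h : (((M+t)+(M+r+j))*((M+r+w)+(M+r))*(1/2)+y)*((((M+t)+(M+r+j))*((M+r+w)+(M+r))*(1/2)+y)-M*((M+t)+((M+r+w)+(M+r))-M)) + (((((M+t)+(M+r+j))*((M+r+w)+(M+r))*(1/2)+y)-M*((M+t)+((M+r+w)+(M+r))-M))*(((((M+t)+(M+r+j))*((M+r+w)+(M+r))*(1/2)+y)-(M+r+w)*((M+t)+(M+r)))+((M+r+w)-(M+r))*M)-((M+t)+(M+r+j)-2*M)*((M+r)*((((M+t)+(M+r+j))*((M+r+w)+(M+r))*(1/2)+y)-(M+r+w)*((M+t)+(M+r)))+((M+r+w)-(M+r))*M*((M+t)+(M+r)-M)))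
    = 2*M*j*r*t + (9/2)*M*j*r*w + 6*M*j*r^2 + (1/2)*M*j*t*w + (1/2)*M*j*w^2 + 3*M*j*y + 2*M*j^2*r + (3/2)*M*j^2*w + 3*M*r*t*w + 1*M*r*t^2 + (1/2)*M*r*w^2 + 4*M*r*y + 5*M*r^2*t + 3*M*r^2*w + 4*M*r^3 + (1/2)*M*t*w^2 + 1*M*w*y + 6*M^2*j*r + 2*M^2*j*w + 1*M^2*j^2 + 3*M^2*r*t + 2*M^2*r*w + 5*M^2*r^2 + 1*M^2*t*w + 2*M^2*y + 2*M^3*j + 2*M^3*r + (5/2)*j*r*t*w + (1/2)*j*r*w^2 + 3*j*r*y + 2*j*r^2*t + (5/2)*j*r^2*w + 2*j*r^3 + (1/2)*j*t*w^2 + 2*j*w*y + (3/2)*j^2*r*w + 1*j^2*r^2 + (1/2)*j^2*w^2 + 2*r*t*y + 1*r*t^2*w + 1*r*w*y + 2*r^2*t*w + 1*r^2*t^2 + 2*r^2*y + 2*r^3*t + 1*r^3*w + 1*r^4 + 1*t*w*y + 2*y^2 := by ring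
  rw [h]
  positivity

theorem certII1 {M U w j t y : ℝ} (hM : 0 ≤ M) (hU : 0 ≤ U) (hw : 0 ≤ w) (hj : 0 ≤ j) (ht : 0 ≤ t) (hy : 0 ≤ y) :
    0 ≤ (((M+t)+(M+U+w+j))*((M+U)+(M+U+w))*(1/2)+y)*((((M+t)+(M+U+w+j))*((M+U)+(M+U+w))*(1/2)+y)-M*((M+t)+((M+U)+(M+U+w))-M)) - (((((M+t)+(M+U+w+j))*((M+U)+(M+U+w))*(1/2)+y)-M*((M+t)+((M+U)+(M+U+w))-M))*(((((M+t)+(M+U+w+j))*((M+U)+(M+U+w))*(1/2)+y)-(M+U)*((M+t)+(M+U+w)))+((M+U)-(M+U+w))*M)-((M+t)+(M+U+w+j)-2*M)*((M+U+w)*((((M+t)+(M+U+w+j))*((M+U)+(M+U+w))*(1/2)+y)-(M+U)*((M+t)+(M+U+w)))+((M+U)-(M+U+w))*M*((M+t)+(M+U+w)-M))) := by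
  have h : (((M+t)+(M+U+w+j))*((M+U)+(M+U+w))*(1/2)+y)*((((M+t)+(M+U+w+j))*((M+U)+(M+U+w))*(1/2)+y)-M*((M+t)+((M+U)+(M+U+w))-M)) - (((((M+t)+(M+U+w+j))*((M+U)+(M+U+w))*(1/2)+y)-M*((M+t)+((M+U)+(M+U+w))-M))*(((((M+t)+(M+U+w+j))*((M+U)+(M+U+w))*(1/2)+y)-(M+U)*((M+t)+(M+U+w)))+((M+U)-(M+U+w))*M)-((M+t)+(M+U+w+j)-2*M)*((M+U+w)*((((M+t)+(M+U+w+j))*((M+U)+(M+U+w))*(1/2)+y)-(M+U)*((M+t)+(M+U+w)))+((M+U)-(M+U+w))*M*((M+t)+(M+U+w)-M)))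
    = 4*M*U*j*t + (17/2)*M*U*j*w + 2*M*U*j^2 + 6*M*U*t*w + 1*M*U*t^2 + (13/2)*M*U*w^2 + 4*M*U*y + 6*M*U^2*j + 5*M*U^2*t + 9*M*U^2*w + 4*M*U^3 + (3/2)*M*j*t*w + 3*M*j*w^2 + 1*M*j*y + (3/2)*M*j^2*w + (3/2)*M*t*w^2 + 2*M*t*y + 3*M*w*y + (3/2)*M*w^3 + 6*M^2*U*j + 3*M^2*U*t + 8*M^2*U*w + 5*M^2*U^2 + 2*M^2*j*t + 4*M^2*j*w + 1*M^2*j^2 + 2*M^2*t*w + 3*M^2*w^2 + 2*M^2*y + 2*M^3*U + 2*M^3*j + 2*M^3*w + (5/2)*U*j*t*w + (7/2)*U*j*w^2 + 1*U*j*y + (3/2)*U*j^2*w + 3*U*t*w^2 + 2*U*t*y + 1*U*t^2*w + 3*U*w*y + 2*U*w^3 + 2*U^2*j*t + (9/2)*U^2*j*w + 1*U^2*j^2 + 4*U^2*t*w + 1*U^2*t^2 + (7/2)*U^2*w^2 + 2*U^2*y + 2*U^3*j + 2*U^3*t + 3*U^3*w + 1*U^4 + 1*j*t*w^2 + 1*j*w*y + 1*j*w^3 + (1/2)*j^2*w^2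 + 1*t*w*y + 1*t*w^3 + (1/2)*t^2*w^2 + 1*w^2*y + (1/2)*w^4 := by ring
  rw [h]
  positivity

theorem certII2 {M U w j t y : ℝ} (hM : 0 ≤ M) (hU : 0 ≤ U) (hw : 0 ≤ w) (hj : 0 ≤ j) (ht : 0 ≤ t) (hy : 0 ≤ y) :
    0 ≤ (((M+t)+(M+U+w+j))*((M+U)+(M+U+w))*(1/2)+y)*((((M+t)+(M+U+w+j))*((M+U)+(M+U+w))*(1/2)+y)-M*((M+t)+((M+U)+(M+U+w))-M)) + (((((M+t)+(M+U+w+j))*((M+U)+(M+U+w))*(1/2)+y)-M*((M+t)+((M+U)+(M+U+w))-M))*(((((M+t)+(M+U+w+j))*((M+U)+(M+U+w))*(1/2)+y)-(M+U)*((M+t)+(M+U+w)))+((M+U)-(M+U+w))*M)-((M+t)+(M+U+w+j)-2*M)*((M+U+w)*((((M+t)+(M+U+w+j))*((M+U)+(M+U+w))*(1/2)+y)-(M+U)*((M+t)+(M+U+w)))+((M+U)-(M+U+w))*M*((M+t)+(M+U+w)-M))) := by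
  have h : (((M+t)+(M+U+w+j))*((M+U)+(M+U+w))*(1/2)+y)*((((M+t)+(M+U+w+j))*((M+U)+(M+U+w))*(1/2)+y)-M*((M+t)+((M+U)+(M+U+w))-M)) + (((((M+t)+(M+U+w+j))*((M+U)+(M+U+w))*(1/2)+y)-M*((M+t)+((M+U)+(M+U+w))-M))*(((((M+t)+(M+U+w+j))*((M+U)+(M+U+w))*(1/2)+y)-(M+U)*((M+t)+(M+U+w)))+((M+U)-(M+U+w))*M)-((M+t)+(M+U+w+j)-2*M)*((M+U+w)*((((M+t)+(M+U+w+j))*((M+U)+(M+U+w))*(1/2)+y)-(M+U)*((M+t)+(M+U+w)))+((M+U)-(M+U+w))*M*((M+t)+(M+U+w)-M)))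
    = 2*M*U*j*t + (15/2)*M*U*j*w + 2*M*U*j^2 + 7*M*U*t*w + 1*M*U*t^2 + (13/2)*M*U*w^2 + 4*M*U*y + 6*M*U^2*j + 5*M*U^2*t + 9*M*U^2*w + 4*M*U^3 + (3/2)*M*j*t*w + 2*M*j*w^2 + 3*M*j*y + (1/2)*M*j^2*w + (5/2)*M*t*w^2 + 1*M*t^2*w + 3*M*w*y + (3/2)*M*w^3 + 6*M^2*U*j + 3*M^2*U*t + 8*M^2*U*w + 5*M^2*U^2 + 4*M^2*j*w + 1*M^2*j^2 + 2*M^2*t*w + 3*M^2*w^2 + 2*M^2*y + 2*M^3*U + 2*M^3*j + 2*M^3*w + (3/2)*U*j*t*w + (3/2)*U*j*w^2 + 3*U*j*y + (1/2)*U*j^2*w + 2*U*t*w^2 + 2*U*t*y + 1*U*t^2*w + 3*U*w*y + 1*U*w^3 + 2*U^2*j*t + (7/2)*U^2*j*w + 1*U^2*j^2 + 4*U^2*t*w + 1*U^2*t^2 + 3*U^2*w^2 + 2*U^2*y + 2*U^3*j + 2*U^3*t + 3*U^3*w + 1*U^4 + 1*j*w*y + 1*t*w*y + 1*w^2*y + 2*y^2 := by ring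
  rw [h]
  positivity

theorem certIII1 {U m r T e y : ℝ} (hU : 0 ≤ U) (hm : 0 ≤ m) (hr : 0 ≤ r) (hT : 0 ≤ T) (he : 0 ≤ e) (hy : 0 ≤ y) :
    0 ≤ (((U+m+r+T)+(U+m+r+T+e))*(U+(U+m+r))*(1/2)+y)*((((U+m+r+T)+(U+m+r+T+e))*(U+(U+m+r))*(1/2)+y)-(U+m)*((U+m+r+T)+(U+(U+m+r))-(U+m))) - (((((U+m+r+T)+(U+m+r+T+e))*(U+(U+m+r))*(1/2)+y)-(U+m)*((U+m+r+T)+(U+(U+m+r))-(U+m)))*(((((U+m+r+T)+(U+m+r+T+e))*(U+(U+m+r))*(1/2)+y)-U*((U+m+r+T)+(U+m+r)))+(U-(U+m+r))*(U+m))-((U+m+r+T)+(U+m+r+T+e)-2*(U+m))*((U+m+r)*((((U+m+r+T)+(U+m+r+T+e))*(U+(U+m+r))*(1/2)+y)-U*((U+m+r+T)+(U+m+r)))+(U-(U+m+r))*(U+m)*((U+m+r+T)+(U+m+r)-(U+m)))) := by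
  have h : (((U+m+r+T)+(U+m+r+T+e))*(U+(U+m+r))*(1/2)+y)*((((U+m+r+T)+(U+m+r+T+e))*(U+(U+m+r))*(1/2)+y)-(U+m)*((U+m+r+T)+(U+(U+m+r))-(U+m))) - (((((U+m+r+T)+(U+m+r+T+e))*(U+(U+m+r))*(1/2)+y)-(U+m)*((U+m+r+T)+(U+(U+m+r))-(U+m)))*(((((U+m+r+T)+(U+m+r+T+e))*(U+(U+m+r))*(1/2)+y)-U*((U+m+r+T)+(U+m+r)))+(U-(U+m+r))*(U+m))-((U+m+r+T)+(U+m+r+T+e)-2*(U+m))*((U+m+r)*((((U+m+r+T)+(U+m+r+T+e))*(U+(U+m+r))*(1/2)+y)-U*((U+m+r+T)+(U+m+r)))+(U-(U+m+r))*(U+m)*((U+m+r+T)+(U+m+r)-(U+m))))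
    = (9/2)*T*U*e*m + (9/2)*T*U*e*r + 6*T*U*m*r + 1*T*U*m^2 + 6*T*U*r^2 + 3*T*U*y + 4*T*U^2*e + 3*T*U^2*m + 8*T*U^2*r + 2*T*U^3 + 3*T*e*m*r + 1*T*e*m^2 + 2*T*e*r^2 + 5*T*m*r^2 + 2*T*m*y + 1*T*m^2*r + 2*T*r*y + 4*T*r^3 + 2*T^2*U*m + 3*T^2*U*r + 3*T^2*U^2 + 2*T^2*m*r + 2*T^2*r^2 + 7*U*e*m*r + (5/2)*U*e*m^2 + (9/2)*U*e*r^2 + 1*U*e*y + (3/2)*U*e^2*m + (3/2)*U*e^2*r + 4*U*m*r^2 + 3*U*m*y + 1*U*m^2*r + 5*U*r*y + 3*U*r^3 + 4*U^2*e*m + 6*U^2*e*r + 1*U^2*e^2 + 3*U^2*m*r + 5*U^2*r^2 + 2*U^2*y + 2*U^3*e + 2*U^3*r + (7/2)*e*m*r^2 + 1*e*m*y + 2*e*m^2*r + (1/2)*e*m^3 + 1*e*r*y + 2*e*r^3 + 1*e^2*m*r + (1/2)*e^2*m^2 + (1/2)*e^2*r^2 + 3*m*r*y + 3*m*r^3 + 1*m^2*r^2 + 1*m^2*y + 2*r^2*y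 + 2*r^4 := by ring
  rw [h]
  positivity

theorem certIII2 {U m r T e y : ℝ} (hU : 0 ≤ U) (hm : 0 ≤ m) (hr : 0 ≤ r) (hT : 0 ≤ T) (he : 0 ≤ e) (hy : 0 ≤ y) :
    0 ≤ (((U+m+r+T)+(U+m+r+T+e))*(U+(U+m+r))*(1/2)+y)*((((U+m+r+T)+(U+m+r+T+e))*(U+(U+m+r))*(1/2)+y)-(U+m)*((U+m+r+T)+(U+(U+m+r))-(U+m))) + (((((U+m+r+T)+(U+m+r+T+e))*(U+(U+m+r))*(1/2)+y)-(U+m)*((U+m+r+T)+(U+(U+m+r))-(U+m)))*(((((U+m+r+T)+(U+m+r+T+e))*(U+(U+m+r))*(1/2)+y)-U*((U+m+r+T)+(U+m+r)))+(U-(U+m+r))*(U+m))-((U+m+r+T)+(U+m+r+T+e)-2*(U+m))*((U+m+r)*((((U+m+r+T)+(U+m+r+T+e))*(U+(U+m+r))*(1/2)+y)-U*((U+m+r+T)+(U+m+r)))+(U-(U+m+r))*(U+m)*((U+m+r+T)+(U+m+r)-(U+m)))) := by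
  have h : (((U+m+r+T)+(U+m+r+T+e))*(U+(U+m+r))*(1/2)+y)*((((U+m+r+T)+(U+m+r+T+e))*(U+(U+m+r))*(1/2)+y)-(U+m)*((U+m+r+T)+(U+(U+m+r))-(U+m))) + (((((U+m+r+T)+(U+m+r+T+e))*(U+(U+m+r))*(1/2)+y)-(U+m)*((U+m+r+T)+(U+(U+m+r))-(U+m)))*(((((U+m+r+T)+(U+m+r+T+e))*(U+(U+m+r))*(1/2)+y)-U*((U+m+r+T)+(U+m+r)))+(U-(U+m+r))*(U+m))-((U+m+r+T)+(U+m+r+T+e)-2*(U+m))*((U+m+r)*((((U+m+r+T)+(U+m+r+T+e))*(U+(U+m+r))*(1/2)+y)-U*((U+m+r+T)+(U+m+r)))+(U-(U+m+r))*(U+m)*((U+m+r+T)+(U+m+r)-(U+m))))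
    = (1/2)*T*U*e*m + (5/2)*T*U*e*r + 6*T*U*m*r + 1*T*U*m^2 + 8*T*U*r^2 + 3*T*U*y + 2*T*U^2*e + 3*T*U^2*m + 6*T*U^2*r + 2*T*U^3 + 1*T*m*r^2 + 1*T*m^2*r + 2*T*r*y + 3*T^2*U*r + 1*T^2*U^2 + 4*U*e*m*r + (5/2)*U*e*m^2 + (7/2)*U*e*r^2 + 3*U*e*y + (1/2)*U*e^2*m + (1/2)*U*e^2*r + 6*U*m*r^2 + 3*U*m*y + 1*U*m^2*r + 3*U*r*y + 5*U*r^3 + 4*U^2*e*m + 4*U^2*e*r + 1*U^2*e^2 + 3*U^2*m*r + 5*U^2*r^2 + 2*U^2*y + 2*U^3*e + 2*U^3*r + (1/2)*e*m*r^2 + 1*e*m*y + 1*e*m^2*r + (1/2)*e*m^3 + 1*e*r*y + 1*m*r*y + 1*m*r^3 + 1*m^2*r^2 + 1*m^2*y + 2*r^2*y + 2*y^2 := by ring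
  rw [h]
  positivity

theorem certIV1 {U m t r j y : ℝ} (hU : 0 ≤ U) (hm : 0 ≤ m) (ht : 0 ≤ t) (hr : 0 ≤ r) (hj : 0 ≤ j) (hy : 0 ≤ y) :
    0 ≤ (((U+m+t)+(U+m+t+r+j))*(U+(U+m+t+r))*(1/2)+y)*((((U+m+t)+(U+m+t+r+j))*(U+(U+m+t+r))*(1/2)+y)-(U+m)*((U+m+t)+(U+(U+m+t+r))-(U+m))) - (((((U+m+t)+(U+m+t+r+j))*(U+(U+m+t+r))*(1/2)+y)-(U+m)*((U+m+t)+(U+(U+m+t+r))-(U+m)))*(((((U+m+t)+(U+m+t+r+j))*(U+(U+m+t+r))*(1/2)+y)-U*((U+m+t)+(U+m+t+r)))+(U-(U+m+t+r))*(U+m))-((U+m+t)+(U+m+t+r+j)-2*(U+m))*((U+m+t+r)*((((U+m+t)+(U+m+t+r+j))*(U+(U+m+t+r))*(1/2)+y)-U*((U+m+t)+(U+m+t+r)))+(U-(U+m+t+r))*(U+m)*((U+m+t)+(U+m+t+r)-(U+m)))) := by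
  have h : (((U+m+t)+(U+m+t+r+j))*(U+(U+m+t+r))*(1/2)+y)*((((U+m+t)+(U+m+t+r+j))*(U+(U+m+t+r))*(1/2)+y)-(U+m)*((U+m+t)+(U+(U+m+t+r))-(U+m))) - (((((U+m+t)+(U+m+t+r+j))*(U+(U+m+t+r))*(1/2)+y)-(U+m)*((U+m+t)+(U+(U+m+t+r))-(U+m)))*(((((U+m+t)+(U+m+t+r+j))*(U+(U+m+t+r))*(1/2)+y)-U*((U+m+t)+(U+m+t+r)))+(U-(U+m+t+r))*(U+m))-((U+m+t)+(U+m+t+r+j)-2*(U+m))*((U+m+t+r)*((((U+m+t)+(U+m+t+r+j))*(U+(U+m+t+r))*(1/2)+y)-U*((U+m+t)+(U+m+t+r)))+(U-(U+m+t+r))*(U+m)*((U+m+t)+(U+m+t+r)-(U+m))))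
    = (11/2)*U*j*m*r + 7*U*j*m*t + (5/2)*U*j*m^2 + (15/2)*U*j*r*t + 3*U*j*r^2 + (9/2)*U*j*t^2 + 1*U*j*y + (3/2)*U*j^2*m + (3/2)*U*j^2*r + (3/2)*U*j^2*t + 9*U*m*r*t + 4*U*m*r^2 + 4*U*m*t^2 + 3*U*m*y + (5/2)*U*m^2*r + 1*U*m^2*t + (15/2)*U*r*t^2 + 3*U*r*y + 6*U*r^2*t + (3/2)*U*r^3 + 5*U*t*y + 3*U*t^3 + 4*U^2*j*m + 4*U^2*j*r + 6*U^2*j*t + 1*U^2*j^2 + 4*U^2*m*r + 3*U^2*m*t + 8*U^2*r*t + 3*U^2*r^2 + 5*U^2*t^2 + 2*U^2*y + 2*U^3*j + 2*U^3*r + 2*U^3*t + 6*j*m*r*t + (5/2)*j*m*r^2 + (7/2)*j*m*t^2 + 1*j*m*y + 2*j*m^2*r + 2*j*m^2*t + (1/2)*j*m^3 + 5*j*r*t^2 + 1*j*r*y + 4*j*r^2*t + 1*j*r^3 + 1*j*t*y + 2*j*t^3 + 1*j^2*m*r + 1*j^2*m*t + (1/2)*j^2*m^2 + 1*j^2*r*t + (1/2)*j^2*r^2 +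 (1/2)*j^2*t^2 + (15/2)*m*r*t^2 + 2*m*r*y + 6*m*r^2*t + (3/2)*m*r^3 + 3*m*t*y + 3*m*t^3 + 3*m^2*r*t + (3/2)*m^2*r^2 + 1*m^2*t^2 + 1*m^2*y + (1/2)*m^3*r + 3*r*t*y + 6*r*t^3 + (13/2)*r^2*t^2 + 1*r^2*y + 3*r^3*t + (1/2)*r^4 + 2*t^2*y + 2*t^4 := by ring
  rw [h]
  positivity

theorem certIV2 {U m t r j y : ℝ} (hU : 0 ≤ U) (hm : 0 ≤ m) (ht : 0 ≤ t) (hr : 0 ≤ r) (hj : 0 ≤ j) (hy : 0 ≤ y) :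
    0 ≤ (((U+m+t)+(U+m+t+r+j))*(U+(U+m+t+r))*(1/2)+y)*((((U+m+t)+(U+m+t+r+j))*(U+(U+m+t+r))*(1/2)+y)-(U+m)*((U+m+t)+(U+(U+m+t+r))-(U+m))) + (((((U+m+t)+(U+m+t+r+j))*(U+(U+m+t+r))*(1/2)+y)-(U+m)*((U+m+t)+(U+(U+m+t+r))-(U+m)))*(((((U+m+t)+(U+m+t+r+j))*(U+(U+m+t+r))*(1/2)+y)-U*((U+m+t)+(U+m+t+r)))+(U-(U+m+t+r))*(U+m))-((U+m+t)+(U+m+t+r+j)-2*(U+m))*((U+m+t+r)*((((U+m+t)+(U+m+t+r+j))*(U+(U+m+t+r))*(1/2)+y)-U*((U+m+t)+(U+m+t+r)))+(U-(U+m+t+r))*(U+m)*((U+m+t)+(U+m+t+r)-(U+m)))) := by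
  have h : (((U+m+t)+(U+m+t+r+j))*(U+(U+m+t+r))*(1/2)+y)*((((U+m+t)+(U+m+t+r+j))*(U+(U+m+t+r))*(1/2)+y)-(U+m)*((U+m+t)+(U+(U+m+t+r))-(U+m))) + (((((U+m+t)+(U+m+t+r+j))*(U+(U+m+t+r))*(1/2)+y)-(U+m)*((U+m+t)+(U+(U+m+t+r))-(U+m)))*(((((U+m+t)+(U+m+t+r+j))*(U+(U+m+t+r))*(1/2)+y)-U*((U+m+t)+(U+m+t+r)))+(U-(U+m+t+r))*(U+m))-((U+m+t)+(U+m+t+r+j)-2*(U+m))*((U+m+t+r)*((((U+m+t)+(U+m+t+r+j))*(U+(U+m+t+r))*(1/2)+y)-U*((U+m+t)+(U+m+t+r)))+(U-(U+m+t+r))*(U+m)*((U+m+t)+(U+m+t+r)-(U+m))))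
    = (9/2)*U*j*m*r + 4*U*j*m*t + (5/2)*U*j*m^2 + (11/2)*U*j*r*t + 2*U*j*r^2 + (7/2)*U*j*t^2 + 3*U*j*y + (1/2)*U*j^2*m + (1/2)*U*j^2*r + (1/2)*U*j^2*t + 10*U*m*r*t + 4*U*m*r^2 + 6*U*m*t^2 + 3*U*m*y + (5/2)*U*m^2*r + 1*U*m^2*t + (21/2)*U*r*t^2 + 3*U*r*y + 7*U*r^2*t + (3/2)*U*r^3 + 3*U*t*y + 5*U*t^3 + 4*U^2*j*m + 4*U^2*j*r + 4*U^2*j*t + 1*U^2*j^2 + 4*U^2*m*r + 3*U^2*m*t + 8*U^2*r*t + 3*U^2*r^2 + 5*U^2*t^2 + 2*U^2*y + 2*U^3*j + 2*U^3*r + 2*U^3*t + 1*j*m*r*t + (1/2)*j*m*r^2 + (1/2)*j*m*t^2 + 1*j*m*y + 1*j*m^2*r + 1*j*m^2*t + (1/2)*j*m^3 + 1*j*r*y + 1*j*t*y + (5/2)*m*r*t^2 + 2*m*r*y + 2*m*r^2*t + (1/2)*m*r^3 + 1*m*t*y + 1*m*t^3 + 2*m^2*r*t + 1*m^2*r^2 + 1*m^2*t^2 + 1*m^2*y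 + (1/2)*m^3*r + 3*r*t*y + 1*r^2*y + 2*t^2*y + 2*y^2 := by ring
  rw [h]
  positivity

end Pool.Agent.H92BI
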