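import Pool.Agent.H92BI.Odd

set_option autoImplicit false

namespace Pool.Agent.H92BI

open Finset

/-- the entries -/
noncomputable def Ent (n : ℕ) (p q x : ℝ) (I M : ℕ) (y c : ℝ) : ℝ :=
  ∑ N ∈ range (n + 1), (∏ m ∈ range N, (-(((M : ℝ) - m) * (p - M - m) * (((I : ℝ) - m) * (q - I - m)))) /
    (((m : ℝ) + 1) * ((n : ℝ) - m) * fb (p + q - n) x m)) * (1 - (c - N) * (y - N) / fb (p + q - n) x N)

theorem Ent_symm (n : ℕ) (p q x : ℝ) (I M : ℕ) (y c : ℝ) : Ent n p q x I M y c = Ent n q p x M I c y := by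
  unfold Ent
  apply sum_congr rfl
  intro N _
  rw [add_comm q p]
  congr 1
  · apply prod_congr rfl
    intro m _
    congr 1
    ring
  · rw [mul_comm (y - (N : ℝ)) (c - N)]

theorem Ent_eq (n : ℕ) (κ q x : ℝ) (I M : ℕ) (y c : ℝ) (hI : I ≤ n) :
    Ent n (κ + n) q x I M y c = Lv I n (κ + n) (al I q (κ + q) x y) (be I q (κ + q) x y) M c := by
  have hσ : κ + n + q - n = κ + q := by ring
  unfold Ent Lv
  rw [hσ]
  rw [← sum_subset (range_subset_range.2 (show I + 1 ≤ n + 1 by omega))]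
  · apply sum_congr rfl
    intro N hN
    unfold al be At Rr
    rw [show (∏ m ∈ range N, ((M : ℝ) - m) * (κ + n - M - m) / ((n : ℝ) - m)) *
        ((∏ m ∈ range N, -(((I : ℝ) - m) * (q - I - m)) / (((m : ℝ) + 1) * fb (κ + q) x m)) * (1 + N * (y - N) / fb (κ + q) x N)
        - c * ((∏ m ∈ range N, -(((I : ℝ) - m) * (q - I - m)) / (((m : ℝ) + 1) * fb (κ + q) x m)) * ((y - N) / fb (κ + q) x N)))
        = ((∏ m ∈ range N, ((M : ℝ) - m) * (κ + n - M - m) / ((n : ℝ) - m)) *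
        (∏ m ∈ range N, -(((I : ℝ) - m) * (q - I - m)) / (((m : ℝ) + 1) * fb (κ + q) x m))) * (1 - (c - N) * (y - N) / fb (κ + q) x N) by ring]
    congr 1
    rw [← prod_mul_distrib]
    apply prod_congr rfl
    intro m _
    rw [div_mul_div_comm]
    congr 1 <;> ring
  · intro N h1 h2
    rw [mem_range] at h1 h2
    rw [prod_eq_zero (mem_range.2 (show I < N by omega)) (by simp), zero_mul]

/-- rows `2 I + 1` -/
theorem Ent_odd_row {n : ℕ} {p q x : ℝ} (hp : 2 * (n : ℝ) < p) (hq : 2 * (n : ℝ) < q) (hx : p * q ≤ 2 * x)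
    {I M : ℕ} (hI : I ≤ n) (hM : M ≤ n) :
    |Ent n p q x I M (q - I) (p - M)| ≤ 1 ∧ |Ent n p q x I M (q - I) M| ≤ 1 := by
  obtain ⟨κ, rfl⟩ : ∃ κ, p = κ + n := ⟨p - n, by ring⟩
  rw [Ent_eq _ _ _ _ _ _ _ _ hI, Ent_eq _ _ _ _ _ _ _ _ hI]
  have := odd_rows hI (by linarith) hq hx
  exact ⟨this.1 M hM, this.2 M hM⟩

/-- the corner -/
theorem corner {k : ℕ} {p q x : ℝ} (hp : 2 * ((k + 1 : ℕ) : ℝ) < p) (hq : 2 * ((k + 1 : ℕ) : ℝ) < q) (hx : p * q ≤ 2 * x) :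
    |Ent (k + 1) p q x (k + 1) (k + 1) ((k + 1 : ℕ) : ℝ) ((k + 1 : ℕ) : ℝ)| ≤ 1 := by
  obtain ⟨κ, hκ⟩ : ∃ κ, p = κ + (k + 1 : ℕ) := ⟨p - (k + 1 : ℕ), by ring⟩
  subst hκ
  have hκ' : ((k + 1 : ℕ) : ℝ) < κ := by linarith
  set σ := κ + q with hσ
  set u := q - (k + 1 : ℕ) with hu
  set v := κ + (k + 1 : ℕ) with hv
  have hf : ∀ m, m ≤ k + 1 → 0 < fb σ x m := fun m hm => fb_pos hm hκ' hq hx
  rw [Ent_eq _ _ _ _ _ _ _ _ le_rfl, ← hσ, ← hv, Lv_base _ _ _ _ _ _ _ le_rfl, ← hu]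
  have h1 : ∑ N ∈ range (k + 1 + 1), Wb σ x u v (k + 1) N *
      (1 - (((k + 1 : ℕ) : ℝ) - N) * (((k + 1 : ℕ) : ℝ) - N) / fb σ x N)
      = ∑ N ∈ range (k + 1 + 1), Wb σ x u v (k + 1) N * (1 - (((k + 1 : ℕ) : ℝ) - N) * (u - N) / fb σ x N)
      + (u - (k + 1 : ℕ)) * ∑ N ∈ range (k + 1 + 1), Wb σ x u v (k + 1) N * ((((k + 1 : ℕ) : ℝ) - N) / fb σ x N) := by
    rw [mul_sum, ← sum_add_distrib]
    apply sum_congr rfl
    intro N _
    ring
  rw [h1, sumE (by rw [hu, hv, hσ]; ring) (by rw [hv]; linarith) (fun m hm => (hf m hm).ne')]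
  have h2 : ∑ N ∈ range (k + 1 + 1), Wb σ x u v (k + 1) N * ((((k + 1 : ℕ) : ℝ) - N) / fb σ x N)
      = ((k + 1 : ℕ) : ℝ) / x * ∏ m ∈ range k, gb σ x u v (m + 1) / fb σ x (m + 1) := by
    rw [sum_range_succ, sub_self, zero_div, mul_zero, add_zero]
    have hf1 : ∀ m : ℕ, fb σ x (m + 1) = (x - (σ - 1)) - m * ((v - 1) + u - 1 - m) := by
      intro m
      unfold fb
      rw [hu, hv, hσ]
      push_cast
      ring
    have h := saal (v - 1) u (x - (σ - 1)) k (fun m hm => by rw [← hf1]; exact (hf _ (by omega)).ne')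
    have e1 : ∀ N, N ≤ k → Wb σ x u v (k + 1) N * ((((k + 1 : ℕ) : ℝ) - N) / fb σ x N) = ((k + 1 : ℕ) : ℝ) / x * ∏ m ∈ range N,
        (-(((k : ℝ) - m) * (v - 1 - k - m) * (u - m))) / (((m : ℝ) + 1) * ((x - (σ - 1)) - m * ((v - 1) + u - 1 - m))) := by
      intro N
      induction N with
      | zero =>
        intro _
        rw [Wb_zero, fb_zero]
        simp
      | succ N ih =>
        intro hN
        have g1 := ih (by omega)
        have f1 := (hf N (by omega)).ne'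
        have f2 := (hf (N + 1) (by omega)).ne'
        rw [prod_range_succ, ← mul_assoc, ← g1, Wb_succ, ← hf1]
        push_cast
        have : (N : ℝ) + 1 ≠ 0 := by positivity
        field_simp
        ring
    rw [sum_congr rfl (fun N hN => e1 N (by rw [mem_range] at hN; omega)), ← mul_sum, h]
    congr 1
    apply prod_congr rfl
    intro m _
    rw [← hf1]
    congr 1
    unfold gb
    push_cast
    ring
  rw [h2]
  unfold Tb
  rw [prod_range_succ']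
  have hx0 := hf 0 (by omega)
  rw [fb_zero] at hx0
  have h3 : |∏ m ∈ range k, gb σ x u v (m + 1) / fb σ x (m + 1)| ≤ 1 :=
    Tb_mid (I := k + 1) le_rfl hκ' hq hx le_rfl
  generalize ∏ m ∈ range k, gb σ x u v (m + 1) / fb σ x (m + 1) = Q at h3
  have h4 : Q * (gb σ x u v 0 / fb σ x 0) + (u - (k + 1 : ℕ)) * (((k + 1 : ℕ) : ℝ) / x * Q)
      = Q * ((x - (u * κ + (k + 1 : ℕ) * (k + 1 : ℕ))) / x) := by
    unfold gb
    rw [fb_zero]
    field_simp
    rw [hv]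
    push_cast
    ring
  rw [h4, abs_mul]
  apply mul_le_one₀ h3 (abs_nonneg _)
  rw [abs_div, abs_of_pos hx0, div_le_one hx0, abs_le]
  have hn0 : (0 : ℝ) ≤ ((k + 1 : ℕ) : ℝ) := by positivity
  have hu0 : 0 ≤ u := by rw [hu]; linarith
  have hκ0 : 0 ≤ κ := by linarith
  have k1 : 0 ≤ u * κ := mul_nonneg hu0 hκ0
  have k2 : 0 ≤ ((k + 1 : ℕ) : ℝ) * ((k + 1 : ℕ) : ℝ) := mul_nonneg hn0 hn0
  have k3 : 0 ≤ ((k + 1 : ℕ) : ℝ) * u := mul_nonneg hn0 hu0
  have k4 : 0 ≤ ((k + 1 : ℕ) : ℝ) * κ := mul_nonneg hn0 hκ0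
  have k5 : (κ + (k + 1 : ℕ)) * q = u * κ + (k + 1 : ℕ) * (k + 1 : ℕ) + (k + 1 : ℕ) * u + (k + 1 : ℕ) * κ := by
    rw [hu]; ring
  constructor <;> linarith

theorem even_even : ∀ n : ℕ, ∀ p q x : ℝ, 2 * (n : ℝ) < p → 2 * (n : ℝ) < q → p * q ≤ 2 * x →
    ∀ I M : ℕ, I ≤ n → M ≤ n → |Ent n p q x I M I M| ≤ 1 := by
  intro n
  induction n with
  | zero =>
    intro p q x _ _ _ I M hI hM
    have h1 : I = 0 := by omega
    have h2 : M = 0 := by omega
    subst h1; subst h2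
    simp [Ent]
  | succ n ih =>
    have key : ∀ p q x : ℝ, 2 * ((n + 1 : ℕ) : ℝ) < p → 2 * ((n + 1 : ℕ) : ℝ) < q → p * q ≤ 2 * x →
        ∀ I M : ℕ, I ≤ n → M ≤ n + 1 → |Ent (n + 1) p q x I M I M| ≤ 1 := by
      intro p q x hp hq hx I M hI hM
      obtain ⟨κ, rfl⟩ : ∃ κ, p = κ + (n + 1 : ℕ) := ⟨p - (n + 1 : ℕ), by ring⟩
      rw [Ent_eq _ _ _ _ _ _ _ _ (by omega)]
      push_cast at hp hq hx ⊢
      rw [← add_assoc]
      have hx' : (κ + n) * q ≤ 2 * x := by nlinarith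
      apply HE_step hI (by linarith) _ _ M hM
      · intro M hM
        rw [← Ent_eq _ _ _ _ _ _ _ _ hI, Ent_symm]
        exact (Ent_odd_row (by linarith) (by linarith) (by linarith) hM hI).2
      · intro M hM
        rw [← Ent_eq _ _ _ _ _ _ _ _ hI]
        exact ih (κ + n) q x (by linarith) (by linarith) hx' I M hI hM
    intro p q x hp hq hx I M hI hM
    rcases Nat.lt_or_ge I (n + 1) with h1 | h1
    · exact key p q x hp hq hx I M (by omega) hM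
    · have hI' : I = n + 1 := by omega
      rcases Nat.lt_or_ge M (n + 1) with h2 | h2
      · rw [Ent_symm]
        exact key q p x hq hp (by linarith) M I (by omega) hI
      · have hM' : M = n + 1 := by omega
        subst hI'; subst hM'
        exact corner hp hq hx

/-- all entries -/
theorem Ent_le {n : ℕ} {p q x : ℝ} (hp : 2 * (n : ℝ) < p) (hq : 2 * (n : ℝ) < q) (hx : p * q ≤ 2 * x)
    {I M : ℕ} (hI : I ≤ n) (hM : M ≤ n) :
    |Ent n p q x I M I M| ≤ 1 ∧ |Ent n p q x I M I (p - M)| ≤ 1 ∧ |Ent n p q x I M (q - I) M| ≤ 1 ∧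
    |Ent n p q x I M (q - I) (p - M)| ≤ 1 := by
  have h1 := Ent_odd_row hp hq hx hI hM
  have h2 := Ent_odd_row (x := x) hq hp (by linarith) hM hI
  refine ⟨even_even n p q x hp hq hx I M hI hM, ?_, h1.2, h1.1⟩
  rw [Ent_symm]
  exact h2.2

end Pool.Agent.H92BI
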