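import Pool.Agent.H92BI.Poly

set_option autoImplicit false

namespace Pool.Agent.H92BI

open Finset

noncomputable def Qb (σ x u v : ℝ) (k : ℕ) : ℝ := ∏ m ∈ range k, gb σ x u v (m + 1) / fb σ x (m + 1)

theorem Tb_Qb (σ x u v : ℝ) (k : ℕ) : Tb σ x u v (k + 1) = Qb σ x u v k * gb σ x u v 0 / x := by
  unfold Tb Qb
  rw [prod_range_succ', fb_zero]
  ring

/-- two sums -/
theorem sumM {σ x u v : ℝ} (huv : u + v = σ) {k : ℕ} (hf : ∀ m, m ≤ k + 1 → fb σ x m ≠ 0) :
    ∑ N ∈ range (k + 1 + 1), Wb σ x u v (k + 1) N * ((((k + 1 : ℕ) : ℝ) - N) / fb σ x N)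
      = ((k + 1 : ℕ) : ℝ) / x * Qb σ x u v k := by
  rw [sum_range_succ, sub_self, zero_div, mul_zero, add_zero]
  have hf1 : ∀ m : ℕ, fb σ x (m + 1) = (x - (σ - 1)) - m * ((v - 1) + u - 1 - m) := by
    intro m
    unfold fb
    rw [← huv]
    push_cast
    ring
  have h := saal (v - 1) u (x - (σ - 1)) k (fun m hm => by rw [← hf1]; exact (hf _ (by omega)))
  have e1 : ∀ N, N ≤ k → Wb σ x u v (k + 1) N * ((((k + 1 : ℕ) : ℝ) - N) / fb σ x N) = ((k + 1 : ℕ) : ℝ) / x * ∏ m ∈ range N,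
      (-(((k : ℝ) - m) * (v - 1 - k - m) * (u - m))) / (((m : ℝ) + 1) * ((x - (σ - 1)) - m * ((v - 1) + u - 1 - m))) := by
    intro N
    induction N with
    | zero =>
      intro _
      rw [Wb_zero, fb_zero]
      simp
    | succ N ih =>
      intro hN
      have g1 := ih (by omega)
      have f1 := hf N (by omega)
      have f2 := hf (N + 1) (by omega)
      rw [prod_range_succ, ← mul_assoc, ← g1, Wb_succ, ← hf1]
      push_cast
      have : (N : ℝ) + 1 ≠ 0 := by positivity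
      field_simp
      ring
  rw [sum_congr rfl (fun N hN => e1 N (by rw [mem_range] at hN; omega)), ← mul_sum, h]
  congr 1
  unfold Qb
  apply prod_congr rfl
  intro m _
  rw [← hf1]
  congr 1
  unfold gb
  push_cast
  ring

theorem sumVM {σ x u v : ℝ} (huv : u + v = σ) {M : ℕ} (hf : ∀ m, m ≤ M → fb σ x m ≠ 0) :
    ∑ N ∈ range (M + 1), Wb σ x u v M N * ((v - M - N) / fb σ x N)
      = (v - M) / x * Qb σ x u v M := by
  have hf1 : ∀ m : ℕ, fb σ x (m + 1) = (x - (σ - 1)) - m * ((v - 1) + u - 1 - m) := by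
    intro m
    unfold fb
    rw [← huv]
    push_cast
    ring
  have h := saal (v - 1) u (x - (σ - 1)) M (fun m hm => by rw [← hf1]; exact (hf _ (by omega)))
  have e1 : ∀ N, N ≤ M → Wb σ x u v M N * ((v - M - N) / fb σ x N) = (v - M) / x * ∏ m ∈ range N,
      (-(((M : ℝ) - m) * (v - 1 - M - m) * (u - m))) / (((m : ℝ) + 1) * ((x - (σ - 1)) - m * ((v - 1) + u - 1 - m))) := by
    intro N
    induction N with
    | zero =>
      intro _
      rw [Wb_zero, fb_zero]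
      simp
    | succ N ih =>
      intro hN
      have g1 := ih (by omega)
      have f1 := hf N (by omega)
      have f2 := hf (N + 1) (by omega)
      rw [prod_range_succ, ← mul_assoc, ← g1, Wb_succ, ← hf1]
      push_cast
      have : (N : ℝ) + 1 ≠ 0 := by positivity
      field_simp
      ring
  rw [sum_congr rfl (fun N hN => e1 N (by rw [mem_range] at hN; omega)), ← mul_sum, h]
  congr 1
  unfold Qb
  apply prod_congr rfl
  intro m _
  rw [← hf1]
  congr 1
  unfold gb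
  push_cast
  ring

theorem betw' {o B s : ℝ} (hs : 0 < s) (h1 : |o| ≤ 1) (h2 : |o - s * B| ≤ 1) {t : ℝ} (ht : 0 ≤ t) (hts : t ≤ s) :
    |o - t * B| ≤ 1 := by
  apply mean_le (W := s) (w1 := s - t) (w2 := t) hs (by ring) (by linarith) ht _ (Or.inr h1) h2
  ring

/-- the base requirement -/
theorem base_levels {I n : ℕ} {κ : ℝ} {α β : ℕ → ℝ} (hI : I ≤ n) (hκ : (n : ℝ) < κ)
    (he : ∀ M, M ≤ I → |Lv I I (κ + I) α β M M| ≤ 1)
    (hk : ∀ M, M ≤ I → |Lv I I (κ + I) α β M (κ + n - M)| ≤ 1) :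
    (∀ M, M ≤ n → |Lv I n (κ + n) α β M (κ + n - M)| ≤ 1) ∧
    (∀ M, M ≤ n → |Lv I n (κ + n) α β M M| ≤ 1) := by
  have hI' : (I : ℝ) ≤ n := by exact_mod_cast hI
  apply levels hI hκ _ he
  intro M hM
  have hM' : (M : ℝ) ≤ I := by exact_mod_cast hM
  have h1 := he M hM
  have h2 := hk M hM
  have e1 : κ + n - M = (M : ℝ) + (κ + n - 2 * M) := by ring
  have e2 : κ + I - M = (M : ℝ) + (κ + I - 2 * M) := by ring
  rw [e1, Lv_shift] at h2
  constructor
  · rw [e2, Lv_shift]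
    exact betw' (s := κ + n - 2 * M) (by linarith) h1 h2 (by linarith) (by linarith)
  · rw [e2, Lv_shift]
    have : Lv I I (κ + I) α β M M - (κ + I - 2 * M) * Bv I I (κ + I) β M - (n - I) * Bv I I (κ + I) β M
        = Lv I I (κ + I) α β M M - (κ + n - 2 * M) * Bv I I (κ + I) β M := by ring
    rw [this]
    exact h2

section
variable {n : ℕ} {κ q x : ℝ}

/-- the values of the rows `2 I` at the base level -/
theorem even_vals {I k : ℕ} (hk : k + 1 ≤ I) (hv : 2 * ((k + 1 : ℕ) : ℝ) < κ + I)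
    (hf : ∀ m, m ≤ k + 1 → fb (κ + q) x m ≠ 0) (c : ℝ) :
    Lv I I (κ + I) (al I q (κ + q) x I) (be I q (κ + q) x I) (k + 1) c
      = Qb (κ + q) x (q - I) (κ + I) k / (x * fb (κ + q) x (k + 1)) *
        (fb (κ + q) x (k + 1) * ((x - (q - I) * (κ + I)) + (q - 2 * I) * (k + 1 : ℕ))
          - (c - (k + 1 : ℕ)) * (I * (x - (q - I) * (κ + I)) + (q - 2 * I) * (k + 1 : ℕ) * (κ + I - (k + 1 : ℕ)))) := by
  set u := q - I with hu
  set v := κ + I with hvd
  set σ := κ + q with hσ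
  have huv : u + v = σ := by rw [hu, hvd, hσ]; ring
  have hx0 := hf 0 (Nat.zero_le _)
  rw [fb_zero] at hx0
  have hfk := hf (k + 1) le_rfl
  -- general splitting
  have hsplit : ∀ c : ℝ, ∑ N ∈ range (k + 1 + 1), Wb σ x u v (k + 1) N * (1 - (c - N) * ((I : ℝ) - N) / fb σ x N)
      = ∑ N ∈ range (k + 1 + 1), Wb σ x u v (k + 1) N * (1 - (c - N) * (u - N) / fb σ x N)
        + (u - I) * ∑ N ∈ range (k + 1 + 1), Wb σ x u v (k + 1) N * ((c - N) / fb σ x N) := by
    intro c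
    rw [mul_sum, ← sum_add_distrib]
    apply sum_congr rfl
    intro N _
    ring
  have hE : Lv I I v (al I q σ x I) (be I q σ x I) (k + 1) ((k + 1 : ℕ) : ℝ)
      = Qb σ x u v k * ((x - u * v) + (q - 2 * I) * (k + 1 : ℕ)) / x := by
    rw [Lv_base _ _ _ _ _ _ _ hk, hsplit, sumE huv hv hf, sumM huv hf, Tb_Qb]
    unfold gb
    rw [fb_zero, hu]
    push_cast
    ring
  -- the value at the odd point
  have hO : Lv I I v (al I q σ x I) (be I q σ x I) (k + 1) (v - (k + 1 : ℕ))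
      = Qb σ x u v k * (gb σ x u v (k + 1) / fb σ x (k + 1)) *
        ((x - u * v) + (q - 2 * I) * (v - (k + 1 : ℕ))) / x := by
    have hf' : ∀ m, m ≤ k + 1 → fb σ x m ≠ 0 := hf
    -- first sum
    have h1 : ∑ N ∈ range (k + 1 + 1), Wb σ x u v (k + 1) N * (1 - (v - (k + 1 : ℕ) - N) * (u - N) / fb σ x N)
        = Tb σ x u v (k + 1 + 1) := by
      have h2 : ∑ N ∈ range (k + 1 + 1), Wb σ x u v (k + 1) N * (1 - (v - (k + 1 : ℕ) - N) * (u - N) / fb σ x N)
          = ∑ N ∈ range (k + 1 + 1), Wb σ x u v (k + 1) N * (1 - (((k + 1 : ℕ) : ℝ) - N) * (u - N) / fb σ x N)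
          - (v - 2 * (k + 1 : ℕ)) * ∑ N ∈ range (k + 1 + 1), Wb σ x u v (k + 1) N * ((u - N) / fb σ x N) := by
        rw [mul_sum, ← sum_sub_distrib]
        apply sum_congr rfl
        intro N _
        ring
      rw [h2, sumE huv hv hf, sumB huv hf]
      have e : Tb σ x u v (k + 1 + 1) = Tb σ x u v (k + 1) * (gb σ x u v (k + 1) / fb σ x (k + 1)) := by
        unfold Tb; rw [prod_range_succ]
      rw [e]
      unfold gb
      push_cast
      field_simp
    rw [Lv_base _ _ _ _ _ _ _ hk, hsplit, h1]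
    have h3 := sumVM (σ := σ) (x := x) (u := u) (v := v) huv (M := k + 1) hf
    rw [h3, Tb_Qb]
    have e : Qb σ x u v (k + 1) = Qb σ x u v k * (gb σ x u v (k + 1) / fb σ x (k + 1)) := by
      unfold Qb; rw [prod_range_succ]
    rw [e]
    have e0 : gb σ x u v 0 = x - u * v := by unfold gb; rw [fb_zero]; push_cast; ring
    rw [e0, hu]
    ring
  have hBv : (v - 2 * (k + 1 : ℕ)) * Bv I I v (be I q σ x I) (k + 1)
      = Lv I I v (al I q σ x I) (be I q σ x I) (k + 1) ((k + 1 : ℕ) : ℝ)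
        - Lv I I v (al I q σ x I) (be I q σ x I) (k + 1) (v - (k + 1 : ℕ)) := by
    have e : v - ((k + 1 : ℕ) : ℝ) = ((k + 1 : ℕ) : ℝ) + (v - 2 * (k + 1 : ℕ)) := by ring
    rw [e, Lv_shift]; ring
  have hv0 : v - 2 * ((k + 1 : ℕ) : ℝ) ≠ 0 := by
    have : 0 < v - 2 * ((k + 1 : ℕ) : ℝ) := by linarith
    exact this.ne'
  have hBe : Bv I I v (be I q σ x I) (k + 1) = Qb σ x u v k / (x * fb σ x (k + 1)) *
      (I * (x - u * v) + (q - 2 * I) * (k + 1 : ℕ) * (v - (k + 1 : ℕ))) := by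
    apply mul_left_cancel₀ hv0
    rw [hBv, hE, hO]
    have hfe : fb σ x (k + 1) = x - (k + 1 : ℕ) * (u + v - (k + 1 : ℕ)) := by unfold fb; rw [huv]
    have hge : gb σ x u v (k + 1) = fb σ x (k + 1) - u * (v - 2 * (k + 1 : ℕ)) := rfl
    rw [hge]
    field_simp
    rw [hfe, hu]
    ring
  have e : c = ((k + 1 : ℕ) : ℝ) + (c - (k + 1 : ℕ)) := by ring
  rw [e, Lv_shift, hE, hBe]
  field_simp
  ring

end

end Pool.Agent.H92BI
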