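import Pool.Agent.H92BI.Array

set_option autoImplicit false

namespace Pool.Agent.H92BI

open Finset

/-- `t` takes both signs: impossible -/
theorem sign_kill {z t1 t2 : ℝ} (hz : z ≠ 0) (h1 : |1 - t1 * z| ≤ 1) (h2 : |1 - t2 * z| ≤ 1)
    (ht1 : 0 < t1) (ht2 : t2 < 0) : False := by
  rw [abs_le] at h1 h2
  rcases lt_or_gt_of_ne hz with h | h
  · nlinarith
  · nlinarith

/-- the entries with `I = 0` or `M = 0` -/
theorem Ent_row0 (n : ℕ) (p q x : ℝ) (M : ℕ) (y c : ℝ) : Ent n p q x 0 M y c = 1 - c * y / x := by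
  unfold Ent
  rw [sum_range_succ']
  rw [sum_eq_zero]
  · rw [prod_range_zero, fb_zero]; push_cast; ring
  · intro N _
    rw [prod_eq_zero (mem_range.2 (Nat.succ_pos N)) (by simp), zero_mul]

theorem Ent_col0 (n : ℕ) (p q x : ℝ) (I : ℕ) (y c : ℝ) : Ent n p q x I 0 y c = 1 - c * y / x := by
  rw [Ent_symm, Ent_row0]; ring

end Pool.Agent.H92BI
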