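import Pool.Agent.H92BI.AB

set_option autoImplicit false

namespace Pool.Agent.H92BI

open Finset

/-- the linear numerator -/
noncomputable def hh (n : ℕ) (κ q x : ℝ) (k M : ℕ) : ℝ := x - (q - k) * (κ + n) + M * (q + n - 2 * k - M)

noncomputable def Pd (κ q x : ℝ) (k M : ℕ) : ℝ := ∏ m ∈ range M, ga κ q x (k + 1 + m) / fb (κ + q) x (m + 1)

theorem hh_eq (n : ℕ) (κ q x : ℝ) (k M : ℕ) :
    fb (κ + q) x M - (q - (k + M : ℕ)) * (κ + n - 2 * M) = hh n κ q x k M := by
  unfold hh fb
  push_cast
  ring

section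
variable {n : ℕ} {κ q x : ℝ}

theorem Pd_Wd0 (k M : ℕ) (hf : ∀ m, m ≤ M → fb (κ + q) x m ≠ 0) :
    Wd κ q x (k + 1) M / fb (κ + q) x M = Pd κ q x k M / x := by
  have h0 := hf 0 (Nat.zero_le _)
  rw [fb_zero] at h0
  induction M with
  | zero => unfold Wd Pd; simp [fb_zero]
  | succ M ih =>
    have h1 := ih (fun m hm => hf m (by omega))
    have f1 := hf M (by omega)
    have f2 := hf (M + 1) le_rfl
    have e1 : Wd κ q x (k + 1) (M + 1) = Wd κ q x (k + 1) M * (ga κ q x (k + 1 + M) / fb (κ + q) x M) := by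
      unfold Wd; rw [prod_range_succ]
    have e2 : Pd κ q x k (M + 1) = Pd κ q x k M * (ga κ q x (k + 1 + M) / fb (κ + q) x (M + 1)) := by
      unfold Pd; rw [prod_range_succ]
    rw [e1, e2]
    have e3 : Wd κ q x (k + 1) M * (ga κ q x (k + 1 + M) / fb (κ + q) x M) / fb (κ + q) x (M + 1)
        = (Wd κ q x (k + 1) M / fb (κ + q) x M) * (ga κ q x (k + 1 + M) / fb (κ + q) x (M + 1)) := by
      field_simp
    rw [e3, h1]
    field_simp

theorem Pd_Wd1 (k M : ℕ) (hf : ∀ m, m ≤ M → fb (κ + q) x m ≠ 0) :
    Wd κ q x (k + 1) (M + 1) = Pd κ q x k M * ga κ q x (k + 1 + M) / x := by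
  have h := Pd_Wd0 (κ := κ) (q := q) (x := x) k M hf
  have e1 : Wd κ q x (k + 1) (M + 1) = Wd κ q x (k + 1) M * (ga κ q x (k + 1 + M) / fb (κ + q) x M) := by
    unfold Wd; rw [prod_range_succ]
  rw [e1, show Wd κ q x (k + 1) M * (ga κ q x (k + 1 + M) / fb (κ + q) x M)
    = (Wd κ q x (k + 1) M / fb (κ + q) x M) * ga κ q x (k + 1 + M) by ring, h]
  ring

theorem Pd_Wd2 (k M : ℕ) :
    Wd κ q x k (M + 1) = Pd κ q x k M * ga κ q x k / x := by
  unfold Wd Pd
  rw [prod_range_succ', fb_zero]
  rw [show k + 0 = k from rfl]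
  have : ∏ m ∈ range M, ga κ q x (k + (m + 1)) / fb (κ + q) x (m + 1)
      = ∏ m ∈ range M, ga κ q x (k + 1 + m) / fb (κ + q) x (m + 1) := by
    apply prod_congr rfl
    intro m _
    rw [show k + (m + 1) = k + 1 + m by ring]
  rw [this]
  ring

theorem hh_abs (hκ : (n : ℝ) < κ) (hq1 : (n : ℝ) < q) (hx : (κ + n) * q ≤ 2 * x) {k M : ℕ} (hkM : k + M ≤ n) :
    |hh n κ q x k M| ≤ x := by
  have hn : (0 : ℝ) ≤ n := by positivity
  have hk : (0 : ℝ) ≤ k := by positivity
  have hM : (0 : ℝ) ≤ M := by positivity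
  have hc : (k : ℝ) + M ≤ n := by exact_mod_cast hkM
  have h1 : 0 ≤ (M : ℝ) * (q + n - 2 * k - M) := mul_nonneg hM (by linarith)
  have h2 : 0 ≤ ((n : ℝ) - k - M) * (q - k - M) := mul_nonneg (by linarith) (by linarith)
  have h3 : 0 ≤ (κ + k) * (q - k) := mul_nonneg (by linarith) (by linarith)
  have h4 : 0 ≤ (k : ℝ) * (κ + n) := mul_nonneg hk (by linarith)
  unfold hh
  rw [abs_le]
  constructor
  · nlinarith
  · nlinarith

theorem hh_mono (hq1 : (n : ℝ) < q) {k M : ℕ} (hkM : k + M ≤ n) :
    hh n κ q x k M ≤ ga κ q x k := by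
  have hc : (k : ℝ) + M ≤ n := by exact_mod_cast hkM
  have h2 : 0 ≤ ((n : ℝ) - k - M) * (q - k - M) := mul_nonneg (by linarith) (by linarith)
  unfold hh ga
  nlinarith

/-- the bound for the numbers of the second kind -/
theorem Kd_le (hκ : (n : ℝ) < κ) (hq1 : (n : ℝ) < q) (hq2 : q < 2 * n) (hx : (κ + n) * q ≤ 2 * x)
    (hf : ∀ m, m ≤ n → fb (κ + q) x m ≠ 0)
    (hdd : |Tb (κ + q) x (q - n) (κ + n) (n + 1)| ≤ 1) {k M : ℕ} (hkM : k + M ≤ n) :
    |Pd κ q x k M * hh n κ q x k M / x| ≤ 1 := by
  have hn : (0 : ℝ) ≤ n := by positivity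
  have hx0 : 0 < x := by
    have : 0 < (κ + n) * q := mul_pos (by linarith) (by linarith)
    linarith
  by_cases hcase : 2 * (M : ℝ) ≤ q - k
  · -- all factors are small
    have h1 : |Pd κ q x k M| ≤ 1 := by
      unfold Pd
      rw [abs_prod]
      apply prod_le_one (fun _ _ => abs_nonneg _)
      intro m hm
      rw [mem_range] at hm
      have f1 := hf (m + 1) (by omega)
      have hm' : ((m + 1 : ℕ) : ℝ) ≤ M := by exact_mod_cast hm
      have := small_ratio hκ hq1 hq2 hx (k := k) (m := m + 1) (by linarith)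
      rw [abs_div, div_le_one (abs_pos.2 f1), show k + 1 + m = k + (m + 1) by ring]
      exact le_trans this (le_abs_self _)
    have h2 := hh_abs hκ hq1 hx hkM
    rw [abs_div, abs_mul, abs_of_pos hx0, div_le_one hx0]
    calc |Pd κ q x k M| * |hh n κ q x k M| ≤ 1 * |hh n κ q x k M| :=
          mul_le_mul_of_nonneg_right h1 (abs_nonneg _)
      _ ≤ x := by rw [one_mul]; exact h2
  · push Not at hcase
    -- induction from the last value
    have key : ∀ t, ∀ M, k + M + t = n → q - k < 2 * (M : ℝ) → |Pd κ q x k M * hh n κ q x k M / x| ≤ 1 := by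
      intro t
      induction t with
      | zero =>
        intro M hM _
        have hW := Wd_le hκ hq1 hq2 hx hf hdd k (M + 1) (by omega) (by omega)
        rw [Pd_Wd2] at hW
        have : hh n κ q x k M = ga κ q x k := by
          have hc : (k : ℝ) + M = n := by exact_mod_cast (by omega : k + M = n)
          unfold hh ga
          rw [← hc]
          ring
        rw [this]
        exact hW
      | succ t ih =>
        intro M hM hlt
        have hnext := ih (M + 1) (by omega) (by push_cast; linarith)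
        by_contra hcon
        push Not at hcon
        have hfM : ∀ m, m ≤ M → fb (κ + q) x m ≠ 0 := fun m hm => hf m (by omega)
        have f1 := hf (M + 1) (by omega)
        have hk0 : (0 : ℝ) ≤ k := by positivity
        have hc : (k : ℝ) + M + 1 ≤ n := by exact_mod_cast (by omega : k + M + 1 ≤ n)
        rw [abs_div, abs_mul, abs_of_pos hx0, lt_div_iff₀ hx0, one_mul] at hcon
        rcases le_or_gt 0 (hh n κ q x k M) with hs | hs
        · -- the nonnegative case
          have hW := Wd_le hκ hq1 hq2 hx hf hdd k (M + 1) (by omega) (by omega)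
          rw [Pd_Wd2, abs_div, abs_mul, abs_of_pos hx0, div_le_one hx0] at hW
          have h1 := hh_mono (κ := κ) (x := x) hq1 (show k + M ≤ n by omega)
          rw [abs_of_nonneg hs] at hcon
          have h2 : |Pd κ q x k M| * hh n κ q x k M ≤ |Pd κ q x k M| * |ga κ q x k| :=
            mul_le_mul_of_nonneg_left (le_trans h1 (le_abs_self _)) (abs_nonneg _)
          linarith
        · -- the negative case
          have hW := Wd_le hκ hq1 hq2 hx hf hdd (k + 1) (M + 1) (by omega) (by omega)
          rw [Pd_Wd1 k M hfM, abs_div, abs_mul, abs_of_pos hx0, div_le_one hx0] at hW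
          have hl := large_ratio hκ hq1 hq2 hx (k := k) (m := M + 1) (by push_cast; linarith)
          rw [show k + (M + 1) = k + 1 + M by ring] at hl
          have hgpos : 0 < ga κ q x (k + 1 + M) := lt_of_lt_of_le (abs_pos.2 f1) hl
          rw [abs_of_pos hgpos] at hW
          -- `|h| > γ`
          have hP : 0 < |Pd κ q x k M| := by
            by_contra h0
            push Not at h0
            have h00 : |Pd κ q x k M| = 0 := le_antisymm h0 (abs_nonneg _)
            rw [h00, zero_mul] at hcon
            linarith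
          have hhg : ga κ q x (k + 1 + M) < |hh n κ q x k M| := by
            by_contra h0
            push Not at h0
            have := mul_le_mul_of_nonneg_left h0 hP.le
            linarith
          -- the increment
          have hη : hh n κ q x k (M + 1) = hh n κ q x k M + (q + n - 2 * k - 2 * M - 1) := by
            unfold hh; push_cast; ring
          have hη0 : 0 ≤ q + n - 2 * k - 2 * M - 1 := by linarith
          -- `γ - |f| ≥ η`
          have hg1 : (q + n - 2 * k - 2 * M - 1) ≤ ga κ q x (k + 1 + M) - fb (κ + q) x (M + 1) := by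
            have h1 := F1 κ q x k (M + 1)
            rw [show k + (M + 1) = k + 1 + M by ring] at h1
            rw [h1]
            push_cast
            have h3 : (κ + k) * 2 ≤ (κ + k) * (2 * ((M : ℝ) + 1) - q + k) :=
              mul_le_mul_of_nonneg_left (by linarith) (by linarith)
            linarith
          have hg2 : (q + n - 2 * k - 2 * M - 1) ≤ ga κ q x (k + 1 + M) + fb (κ + q) x (M + 1) := by
            have h1 := F2' hκ hx k (M + 1)
            rw [show k + (M + 1) = k + 1 + M by ring] at h1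
            push_cast at h1
            refine le_trans ?_ h1
            have hM1 : (1 : ℝ) ≤ M := by
              have : 0 < M := by
                rcases Nat.eq_zero_or_pos M with h0 | h0
                · subst h0
                  exfalso
                  push_cast at hlt
                  linarith
                · exact h0
              exact_mod_cast this
            have hkκ : 0 ≤ (k : ℝ) * (κ + k) := mul_nonneg hk0 (by linarith)
            -- z = q - k, t = 2 M + 2 - z, N' = n - k
            have hz1 : 1 ≤ q - k := by linarith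
            have ht : 2 ≤ 2 * ((M : ℝ) + 1) - (q - k) := by linarith
            have hN : (M : ℝ) + 1 ≤ n - k := by linarith
            have e1 : (q - k - 1) * ((M : ℝ) + 1) ≤ (q - k - 1) * (n - k) :=
              mul_le_mul_of_nonneg_left hN (by linarith)
            have e2 : 0 ≤ (k : ℝ) * (n - k) := mul_nonneg hk0 (by linarith)
            nlinarith [mul_nonneg (sub_nonneg.2 hz1) (sub_nonneg.2 ht), sq_nonneg (2 * ((M : ℝ) + 1) - (q - k) - 2)]
          have hgf : (q + n - 2 * k - 2 * M - 1) + |fb (κ + q) x (M + 1)| ≤ ga κ q x (k + 1 + M) := by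
            rcases abs_cases (fb (κ + q) x (M + 1)) with ⟨h1, _⟩ | ⟨h1, _⟩ <;> rw [h1] <;> linarith
          -- the next value is larger
          have hnext' : |hh n κ q x k M| - (q + n - 2 * k - 2 * M - 1) ≤ |hh n κ q x k (M + 1)| := by
            rw [hη, abs_of_neg hs]
            have := neg_abs_le (hh n κ q x k M + (q + n - 2 * k - 2 * M - 1))
            linarith [neg_abs_le (hh n κ q x k M + (q + n - 2 * k - 2 * M - 1))]
          have hcmp : |fb (κ + q) x (M + 1)| * |hh n κ q x k M| ≤ ga κ q x (k + 1 + M) * |hh n κ q x k (M + 1)| := by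
            have h1 : ga κ q x (k + 1 + M) * (|hh n κ q x k M| - (q + n - 2 * k - 2 * M - 1)) ≤
                ga κ q x (k + 1 + M) * |hh n κ q x k (M + 1)| := mul_le_mul_of_nonneg_left hnext' hgpos.le
            have h2 : (q + n - 2 * k - 2 * M - 1) * ga κ q x (k + 1 + M) ≤
                (q + n - 2 * k - 2 * M - 1) * |hh n κ q x k M| := mul_le_mul_of_nonneg_left hhg.le hη0
            have h3 : ((q + n - 2 * k - 2 * M - 1) + |fb (κ + q) x (M + 1)|) * |hh n κ q x k M| ≤
                ga κ q x (k + 1 + M) * |hh n κ q x k M| := mul_le_mul_of_nonneg_right hgf (abs_nonneg _)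
            nlinarith
          have e4 : Pd κ q x k (M + 1) = Pd κ q x k M * (ga κ q x (k + 1 + M) / fb (κ + q) x (M + 1)) := by
            unfold Pd; rw [prod_range_succ]
          rw [e4, abs_div, abs_mul, abs_mul, abs_div, abs_of_pos hx0, abs_of_pos hgpos, div_le_one hx0] at hnext
          have hfp : 0 < |fb (κ + q) x (M + 1)| := abs_pos.2 f1
          have h5 : |Pd κ q x k M| * |hh n κ q x k M| ≤
              |Pd κ q x k M| * (ga κ q x (k + 1 + M) / |fb (κ + q) x (M + 1)|) * |hh n κ q x k (M + 1)| := by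
            have : |hh n κ q x k M| ≤ (ga κ q x (k + 1 + M) / |fb (κ + q) x (M + 1)|) * |hh n κ q x k (M + 1)| := by
              rw [div_mul_eq_mul_div, le_div_iff₀ hfp]
              linarith
            have := mul_le_mul_of_nonneg_left this hP.le
            linarith
          linarith
    obtain ⟨t, ht⟩ : ∃ t, k + M + t = n := ⟨n - (k + M), by omega⟩
    exact key t M ht hcase

/-- the numbers of the second kind in the rows `2 I + 1` -/
theorem Tb_last' (hκ : (n : ℝ) < κ) (hq1 : (n : ℝ) < q) (hq2 : q < 2 * n) (hx : (κ + n) * q ≤ 2 * x)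
    (hf : ∀ m, m ≤ n → fb (κ + q) x m ≠ 0)
    (hdd : |Tb (κ + q) x (q - n) (κ + n) (n + 1)| ≤ 1) {I M : ℕ} (hI : I ≤ n) (hM : M ≤ I) :
    |Tb (κ + q) x (q - I) (κ + I) M * ((fb (κ + q) x M - (q - I) * (κ + n - 2 * M)) / fb (κ + q) x M)| ≤ 1 := by
  have h := Kd_le hκ hq1 hq2 hx hf hdd (k := I - M) (M := M) (by omega)
  have e1 := hh_eq n κ q x (I - M) M
  rw [show I - M + M = I by omega] at e1
  rw [e1, Tb_eq_Wd κ q x (by omega), show I + 1 - M = I - M + 1 by omega]
  have e2 := Pd_Wd0 (κ := κ) (q := q) (x := x) (I - M) M (fun m hm => hf m (by omega))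
  rw [show Wd κ q x (I - M + 1) M * (hh n κ q x (I - M) M / fb (κ + q) x M)
    = (Wd κ q x (I - M + 1) M / fb (κ + q) x M) * hh n κ q x (I - M) M by ring, e2]
  rw [show Pd κ q x (I - M) M / x * hh n κ q x (I - M) M = Pd κ q x (I - M) M * hh n κ q x (I - M) M / x by ring]
  exact h

end

end Pool.Agent.H92BI
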