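import Pool.Agent.H92BI.Saal

set_option autoImplicit false

namespace Pool.Agent.H92BI

open Finset

/-- the part of the summand which depends on the level `D` and on `M` -/
noncomputable def At (D : ℕ) (v : ℝ) (M N : ℕ) : ℝ :=
  ∏ m ∈ range N, (((M : ℝ) - m) * (v - M - m)) / ((D : ℝ) - m)

theorem At_zero (D : ℕ) (v : ℝ) (M : ℕ) : At D v M 0 = 1 := by simp [At]

theorem At_succ (D : ℕ) (v : ℝ) (M N : ℕ) :
    At D v M (N + 1) = At D v M N * ((((M : ℝ) - N) * (v - M - N)) / ((D : ℝ) - N)) := by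
  unfold At; rw [prod_range_succ]

theorem At_origin (D : ℕ) (v : ℝ) (N : ℕ) : At D v 0 (N + 1) = 0 := by
  unfold At
  apply prod_eq_zero (mem_range.2 (Nat.succ_pos N))
  simp

theorem cast_ne {D N : ℕ} (h : N < D) : (D : ℝ) - N ≠ 0 := by
  have : (N : ℝ) < D := by exact_mod_cast h
  linarith

theorem At1 (D : ℕ) (v : ℝ) (M : ℕ) : ∀ N, N ≤ D →
    At D v (M + 1) N * (((D : ℝ) + 1 - N) * (v - M)) = At (D + 1) (v + 1) (M + 1) N * ((D + 1) * (v - M - N)) := by
  intro N
  induction N with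
  | zero => intro _; simp only [At_zero]; push_cast; ring
  | succ N ih =>
    intro hN
    have h := ih (by omega)
    have h1 : (D : ℝ) - N ≠ 0 := cast_ne (by omega)
    have h2 : (D : ℝ) + 1 - N ≠ 0 := by
      have := cast_ne (D := D + 1) (N := N) (by omega)
      push_cast at this
      exact this
    rw [At_succ, At_succ]
    push_cast
    have e1 : At D v (M + 1) N * (((M : ℝ) + 1 - N) * (v - (M + 1) - N) / (D - N)) * ((D + 1 - (N + 1)) * (v - M))
        = (At D v (M + 1) N * (((D : ℝ) + 1 - N) * (v - M))) * (((M : ℝ) + 1 - N) * (v - (M + 1) - N) / (D + 1 - N)) := by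
      field_simp
      ring
    rw [e1, h]
    field_simp
    ring

theorem At2 (D : ℕ) (v : ℝ) (M : ℕ) : ∀ N, N ≤ D →
    At D v M N * (((D : ℝ) + 1 - N) * (M + 1)) = At (D + 1) (v + 1) (M + 1) N * ((D + 1) * (M + 1 - N)) := by
  intro N
  induction N with
  | zero => intro _; simp only [At_zero]; push_cast; ring
  | succ N ih =>
    intro hN
    have h := ih (by omega)
    have h1 : (D : ℝ) - N ≠ 0 := cast_ne (by omega)
    have h2 : (D : ℝ) + 1 - N ≠ 0 := by
      have := cast_ne (D := D + 1) (N := N) (by omega)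
      push_cast at this
      exact this
    rw [At_succ, At_succ]
    push_cast
    have e1 : At D v M N * (((M : ℝ) - N) * (v - M - N) / (D - N)) * ((D + 1 - (N + 1)) * (M + 1))
        = (At D v M N * (((D : ℝ) + 1 - N) * (M + 1))) * (((M : ℝ) - N) * (v - M - N) / (D + 1 - N)) := by
      field_simp
      ring
    rw [e1, h]
    field_simp
    ring

/-- Pascal rule -/
theorem At_pascal (D : ℕ) (v : ℝ) (M N : ℕ) (hN : N ≤ D) :
    (v - 1 - 2 * M) * (D + 1) * At (D + 1) (v + 1) (M + 1) N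
      = (v - M) * (D - M) * At D v (M + 1) N + (M + 1) * (v - D - M - 1) * At D v M N := by
  have h1 := At1 D v M N hN
  have h2 := At2 D v M N hN
  have h3 : (D : ℝ) + 1 - N ≠ 0 := by
    have := cast_ne (D := D + 1) (N := N) (by omega)
    push_cast at this
    exact this
  apply mul_left_cancel₀ h3
  linear_combination (-((D : ℝ) - M)) * h1 - (v - D - M - 1) * h2

/-- values of a row at level `D` (with `v = κ + D`): `c` is the argument -/
noncomputable def Lv (K D : ℕ) (v : ℝ) (α β : ℕ → ℝ) (M : ℕ) (c : ℝ) : ℝ :=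
  ∑ N ∈ range (K + 1), At D v M N * (α N - c * β N)

noncomputable def Bv (K D : ℕ) (v : ℝ) (β : ℕ → ℝ) (M : ℕ) : ℝ :=
  ∑ N ∈ range (K + 1), At D v M N * β N

theorem Lv_shift (K D : ℕ) (v : ℝ) (α β : ℕ → ℝ) (M : ℕ) (c e : ℝ) :
    Lv K D v α β M (c + e) = Lv K D v α β M c - e * Bv K D v β M := by
  unfold Lv Bv
  rw [mul_sum, ← sum_sub_distrib]
  apply sum_congr rfl
  intro N _
  ring

theorem Lv_pascal (K D : ℕ) (v : ℝ) (α β : ℕ → ℝ) (M : ℕ) (c : ℝ) (hK : K ≤ D) :
    (v - 1 - 2 * M) * (D + 1) * Lv K (D + 1) (v + 1) α β (M + 1) c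
      = (v - M) * (D - M) * Lv K D v α β (M + 1) c + (M + 1) * (v - D - M - 1) * Lv K D v α β M c := by
  unfold Lv
  rw [mul_sum, mul_sum, mul_sum, ← sum_add_distrib]
  apply sum_congr rfl
  intro N hN
  rw [mem_range] at hN
  have := At_pascal D v M N (by omega)
  linear_combination (α N - c * β N) * this

theorem Bv_pascal (K D : ℕ) (v : ℝ) (β : ℕ → ℝ) (M : ℕ) (hK : K ≤ D) :
    (v - 1 - 2 * M) * (D + 1) * Bv K (D + 1) (v + 1) β (M + 1)
      = (v - M) * (D - M) * Bv K D v β (M + 1) + (M + 1) * (v - D - M - 1) * Bv K D v β M := by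
  unfold Bv
  rw [mul_sum, mul_sum, mul_sum, ← sum_add_distrib]
  apply sum_congr rfl
  intro N hN
  rw [mem_range] at hN
  have := At_pascal D v M N (by omega)
  linear_combination (β N) * this

theorem Lv_zero (K D : ℕ) (v : ℝ) (α β : ℕ → ℝ) (c : ℝ) : Lv K D v α β 0 c = α 0 - c * β 0 := by
  unfold Lv
  rw [sum_range_succ']
  rw [At_zero]
  have : ∑ N ∈ range K, At D v 0 (N + 1) * (α (N + 1) - c * β (N + 1)) = 0 := by
    apply sum_eq_zero
    intro N _
    rw [At_origin]; ring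
  rw [this]; ring

theorem Bv_zero (K D : ℕ) (v : ℝ) (β : ℕ → ℝ) : Bv K D v β 0 = β 0 := by
  unfold Bv
  rw [sum_range_succ']
  rw [At_zero]
  have : ∑ N ∈ range K, At D v 0 (N + 1) * β (N + 1) = 0 := by
    apply sum_eq_zero
    intro N _
    rw [At_origin]; ring
  rw [this]; ring

/-- weighted means stay bounded -/
theorem mean_le {W w1 w2 z a b : ℝ} (hW : 0 < W) (h : W = w1 + w2) (h1 : 0 ≤ w1) (h2 : 0 ≤ w2)
    (e : W * z = w1 * a + w2 * b) (ha : w1 = 0 ∨ |a| ≤ 1) (hb : |b| ≤ 1) : |z| ≤ 1 := by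
  rw [abs_le] at hb ⊢
  have h3 : -w1 ≤ w1 * a ∧ w1 * a ≤ w1 := by
    rcases ha with ha | ha
    · rw [ha]; simp
    · rw [abs_le] at ha
      constructor <;> nlinarith
  constructor
  · have : W * (-1) ≤ W * z := by rw [e]; nlinarith
    exact le_of_mul_le_mul_left this hW
  · have : W * z ≤ W * 1 := by rw [e]; nlinarith
    exact le_of_mul_le_mul_left this hW

/-- between two values -/
theorem betw {o B s : ℝ} (hs : 1 ≤ s) (h1 : |o| ≤ 1) (h2 : |o - s * B| ≤ 1) {t : ℝ} (ht : 0 ≤ t) (hts : t ≤ s) :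
    |o - t * B| ≤ 1 := by
  have hs0 : 0 < s := by linarith
  apply mean_le (W := s) (w1 := s - t) (w2 := t) hs0 (by ring) (by linarith) ht _ (Or.inr h1) h2
  ring

/-- the level step for the odd points and the strengthened bound -/
def HO (K D : ℕ) (κ : ℝ) (α β : ℕ → ℝ) (s : ℝ) : Prop :=
  ∀ M : ℕ, M ≤ D → |Lv K D (κ + D) α β M (κ + D - M)| ≤ 1 ∧
    |Lv K D (κ + D) α β M (κ + D - M) - s * Bv K D (κ + D) β M| ≤ 1

theorem HO_step {K D : ℕ} {κ : ℝ} {α β : ℕ → ℝ} {s : ℝ} (hK : K ≤ D) (hκ : (D : ℝ) + 1 < κ) (hs : 0 ≤ s)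
    (h : HO K D κ α β (s + 1)) : HO K (D + 1) κ α β s := by
  intro M hM
  have hcast : κ + ((D + 1 : ℕ) : ℝ) = κ + D + 1 := by push_cast; ring
  rw [hcast]
  cases M with
  | zero =>
    obtain ⟨h1, h2⟩ := h 0 (Nat.zero_le _)
    rw [Lv_zero, Bv_zero] at h2
    rw [Lv_zero] at h1
    rw [Lv_zero, Bv_zero]
    push_cast at h1 h2 ⊢
    have k1 := betw (s := s + 1) (t := 1) (by linarith) h1 h2 (by norm_num) (by linarith)
    constructor
    · have : α 0 - (κ + D + 1 - 0) * β 0 = α 0 - (κ + D - 0) * β 0 - 1 * β 0 := by ring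
      rw [this]; exact k1
    · have : α 0 - (κ + D + 1 - 0) * β 0 - s * β 0 = α 0 - (κ + D - 0) * β 0 - (s + 1) * β 0 := by ring
      rw [this]; exact h2
  | succ M =>
    have hMD : M ≤ D := by omega
    have hMD' : (M : ℝ) ≤ D := by exact_mod_cast hMD
    have hM0 : (0 : ℝ) ≤ M := by positivity
    have w1 : 0 ≤ (κ + D - M) * ((D : ℝ) - M) := mul_nonneg (by linarith) (by linarith)
    have w2 : 0 ≤ ((M : ℝ) + 1) * (κ + D - D - M - 1) := mul_nonneg (by linarith) (by linarith)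
    have hW : 0 < (κ + D - 1 - 2 * M) * ((D : ℝ) + 1) := mul_pos (by linarith) (by linarith)
    have hWe : (κ + D - 1 - 2 * M) * ((D : ℝ) + 1) = (κ + D - M) * ((D : ℝ) - M) + ((M : ℝ) + 1) * (κ + D - D - M - 1) := by
      ring
    obtain ⟨a1, a2⟩ := h M hMD
    have a3 := betw (s := s + 1) (t := s) (by linarith) a1 a2 hs (by linarith)
    have b : (κ + D - M) * ((D : ℝ) - M) = 0 ∨
        (|Lv K D (κ + D) α β (M + 1) (κ + D - (M + 1 : ℕ)) - 1 * Bv K D (κ + D) β (M + 1)| ≤ 1 ∧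
        |Lv K D (κ + D) α β (M + 1) (κ + D - (M + 1 : ℕ)) - (s + 1) * Bv K D (κ + D) β (M + 1)| ≤ 1) := by
      rcases Nat.eq_or_lt_of_le hMD with h1 | h1
      · left; rw [h1]; ring
      · right
        obtain ⟨b1, b2⟩ := h (M + 1) h1
        exact ⟨betw (s := s + 1) (t := 1) (by linarith) b1 b2 (by norm_num) (by linarith), b2⟩
    have hc : κ + D + 1 - ((M + 1 : ℕ) : ℝ) = κ + D - M := by push_cast; ring
    rw [hc]
    have hL := Lv_pascal K D (κ + D) α β M (κ + D - M) hK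
    have hB := Bv_pascal K D (κ + D) β M hK
    have hsh : Lv K D (κ + D) α β (M + 1) (κ + D - M)
        = Lv K D (κ + D) α β (M + 1) (κ + D - (M + 1 : ℕ)) - 1 * Bv K D (κ + D) β (M + 1) := by
      rw [← Lv_shift]; congr 1; push_cast; ring
    constructor
    · rw [hsh] at hL
      exact mean_le hW hWe w1 w2 hL (b.imp id And.left) a1
    · refine mean_le (z := Lv K (D + 1) (κ + D + 1) α β (M + 1) (κ + D - M) - s * Bv K (D + 1) (κ + D + 1) β (M + 1))
        (a := Lv K D (κ + D) α β (M + 1) (κ + D - (M + 1 : ℕ)) - (s + 1) * Bv K D (κ + D) β (M + 1))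
        (b := Lv K D (κ + D) α β M (κ + D - M) - s * Bv K D (κ + D) β M) hW hWe w1 w2 ?_ (b.imp id And.right) a3
      rw [hsh] at hL
      linear_combination hL - s * hB

/-- the level step for the even points -/
theorem HE_step {K D : ℕ} {κ : ℝ} {α β : ℕ → ℝ} (hK : K ≤ D) (hκ : (D : ℝ) + 1 < κ)
    (ho : ∀ M, M ≤ D → |Lv K D (κ + D) α β M (κ + D - M)| ≤ 1)
    (he : ∀ M, M ≤ D → |Lv K D (κ + D) α β M M| ≤ 1) :
    ∀ M, M ≤ D + 1 → |Lv K (D + 1) (κ + D + 1) α β M M| ≤ 1 := by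
  intro M hM
  cases M with
  | zero =>
    have h1 := he 0 (Nat.zero_le _)
    rw [Lv_zero] at h1
    rw [Lv_zero]
    exact h1
  | succ M =>
    have hMD : M ≤ D := by omega
    have hMD' : (M : ℝ) ≤ D := by exact_mod_cast hMD
    have hM0 : (0 : ℝ) ≤ M := by positivity
    have w1 : 0 ≤ (κ + D - M) * ((D : ℝ) - M) := mul_nonneg (by linarith) (by linarith)
    have w2 : 0 ≤ ((M : ℝ) + 1) * (κ + D - D - M - 1) := mul_nonneg (by linarith) (by linarith)
    have hW : 0 < (κ + D - 1 - 2 * M) * ((D : ℝ) + 1) := mul_pos (by linarith) (by linarith)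
    have hWe : (κ + D - 1 - 2 * M) * ((D : ℝ) + 1) = (κ + D - M) * ((D : ℝ) - M) + ((M : ℝ) + 1) * (κ + D - D - M - 1) := by
      ring
    have b : (κ + D - M) * ((D : ℝ) - M) = 0 ∨
        |Lv K D (κ + D) α β (M + 1) (M + 1 : ℕ)| ≤ 1 := by
      rcases Nat.eq_or_lt_of_le hMD with h1 | h1
      · left; rw [h1]; ring
      · right; exact he (M + 1) h1
    have hL := Lv_pascal K D (κ + D) α β M ((M + 1 : ℕ) : ℝ) hK
    -- the value `e - B`
    have hs0 : 1 ≤ κ + D - 2 * M := by linarith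
    have hsh1 : Lv K D (κ + D) α β M ((M + 1 : ℕ) : ℝ) = Lv K D (κ + D) α β M M - 1 * Bv K D (κ + D) β M := by
      rw [← Lv_shift]; congr 1; push_cast; ring
    have hsh2 : Lv K D (κ + D) α β M (κ + D - M)
        = Lv K D (κ + D) α β M M - (κ + D - 2 * M) * Bv K D (κ + D) β M := by
      rw [← Lv_shift]; congr 1; ring
    have hmid : |Lv K D (κ + D) α β M ((M + 1 : ℕ) : ℝ)| ≤ 1 := by
      rw [hsh1]
      apply betw (s := κ + D - 2 * M) hs0 (he M hMD) _ (by norm_num) hs0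
      rw [← hsh2]
      exact ho M hMD
    exact mean_le hW hWe w1 w2 hL b hmid

/-- from the base to the top level -/
theorem levels {K n : ℕ} {κ : ℝ} {α β : ℕ → ℝ} (hKn : K ≤ n) (hκ : (n : ℝ) < κ)
    (hb : HO K K κ α β ((n : ℝ) - K)) (he : ∀ M, M ≤ K → |Lv K K (κ + K) α β M M| ≤ 1) :
    (∀ M, M ≤ n → |Lv K n (κ + n) α β M (κ + n - M)| ≤ 1) ∧
    (∀ M, M ≤ n → |Lv K n (κ + n) α β M M| ≤ 1) := by
  have key : ∀ t, K + t ≤ n → HO K (K + t) κ α β ((n : ℝ) - K - t) ∧
      (∀ M, M ≤ K + t → |Lv K (K + t) (κ + (K + t : ℕ)) α β M M| ≤ 1) := by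
    intro t
    induction t with
    | zero =>
      intro _
      constructor
      · simpa using hb
      · simpa using he
    | succ t ih =>
      intro ht
      obtain ⟨h1, h2⟩ := ih (by omega)
      have hc : ((K + t : ℕ) : ℝ) + 1 ≤ n := by exact_mod_cast (by omega : K + t + 1 ≤ n)
      have hc' : (K : ℝ) + t + 1 ≤ n := by push_cast at hc; exact hc
      constructor
      · rw [← add_assoc]
        apply HO_step (by omega) (by linarith)
        · push_cast; linarith
        · have : (n : ℝ) - K - (t + 1 : ℕ) + 1 = (n : ℝ) - K - t := by push_cast; ring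
          rw [this]; exact h1
      · have h3 := HE_step (K := K) (D := K + t) (κ := κ) (α := α) (β := β) (by omega) (by linarith)
          (fun M hM => (h1 M hM).1) h2
        intro M hM
        have := h3 M hM
        rw [← add_assoc]
        have e : κ + ((K + t : ℕ) : ℝ) + 1 = κ + ((K + t + 1 : ℕ) : ℝ) := by push_cast; ring
        rw [e] at this
        exact this
  obtain ⟨h1, h2⟩ := key (n - K) (by omega)
  rw [show K + (n - K) = n by omega] at h1 h2
  exact ⟨fun M hM => (h1 M hM).1, h2⟩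

end Pool.Agent.H92BI
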