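import Pool.Agent.H92BI.Even

set_option autoImplicit false

namespace Pool.Agent.H92BI

open Finset

theorem sum_pairs (t : ℕ → ℝ) (K : ℕ) : ∑ k ∈ range (2 * K), t k = ∑ N ∈ range K, (t (2 * N) + t (2 * N + 1)) := by
  induction K with
  | zero => simp
  | succ K ih =>
    rw [show 2 * (K + 1) = 2 * K + 1 + 1 by ring, sum_range_succ, sum_range_succ, sum_range_succ, ih]
    ring

theorem prod_pairs (t : ℕ → ℝ) (K : ℕ) : ∏ k ∈ range (2 * K), t k = ∏ N ∈ range K, (t (2 * N) * t (2 * N + 1)) := by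
  induction K with
  | zero => simp
  | succ K ih =>
    rw [show 2 * (K + 1) = 2 * K + 1 + 1 by ring, prod_range_succ, prod_range_succ, prod_range_succ, ih]
    ring

/-- from the definition of `u_i` to the entries -/
theorem u_eq_Ent {n : ℕ} {θ θs φ : ℕ → ℝ} {p q x g gs : ℝ} (hg : g ≠ 0) (hgs : gs ≠ 0)
    (hφ1 : ∀ m, m ≤ n → φ (2 * m + 1) = -4 * g * gs * fb (p + q - n) x m)
    (hφ2 : ∀ m, m < n → φ (2 * m + 2) = 4 * g * gs * ((m + 1) * (n - m)))
    (hf : ∀ m, m ≤ n → fb (p + q - n) x m ≠ 0)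
    {i j I M : ℕ} (hi : i ≤ 2 * n + 1) {y c : ℝ}
    (hj0 : ∀ m, m ≤ n → θ j - θ (2 * m) = -2 * g * (c - m))
    (hj1 : ∀ m, m ≤ n → (θ j - θ (2 * m)) * (θ j - θ (2 * m + 1)) = -4 * g ^ 2 * ((M - m) * (p - M - m)))
    (hi0 : ∀ m, m ≤ n → θs i - θs (2 * m) = -2 * gs * (y - m))
    (hi1 : ∀ m, m ≤ n → (θs i - θs (2 * m)) * (θs i - θs (2 * m + 1)) = -4 * gs ^ 2 * ((I - m) * (q - I - m))) :
    ∑ k ∈ range (i + 1), (∏ h ∈ range k, (θ j - θ h)) * (∏ h ∈ range k, (θs i - θs h)) /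
      ∏ h ∈ range k, φ (h + 1) = Ent n p q x I M y c := by
  have e0 : ∑ k ∈ range (i + 1), (∏ h ∈ range k, (θ j - θ h)) * (∏ h ∈ range k, (θs i - θs h)) /
      ∏ h ∈ range k, φ (h + 1) = ∑ k ∈ range (2 * (n + 1)), ∏ h ∈ range k, ((θ j - θ h) * (θs i - θs h) / φ (h + 1)) := by
    rw [← sum_subset (range_subset_range.2 (show i + 1 ≤ 2 * (n + 1) by omega))]
    · apply sum_congr rfl
      intro k _
      rw [prod_div_distrib, prod_mul_distrib]
    · intro k h1 h2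
      rw [mem_range] at h1 h2
      apply prod_eq_zero (mem_range.2 (show i < k by omega))
      rw [sub_self]; simp
  rw [e0, sum_pairs]
  unfold Ent
  apply sum_congr rfl
  intro N hN
  rw [mem_range] at hN
  have hN' : N ≤ n := by omega
  rw [prod_range_succ, prod_pairs]
  have e1 : (θ j - θ (2 * N)) * (θs i - θs (2 * N)) / φ (2 * N + 1) = -((c - N) * (y - N) / fb (p + q - n) x N) := by
    rw [hj0 N hN', hi0 N hN', hφ1 N hN']
    have := hf N hN'
    field_simp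
    ring
  have e2 : ∏ m ∈ range N, ((θ j - θ (2 * m)) * (θs i - θs (2 * m)) / φ (2 * m + 1) *
      ((θ j - θ (2 * m + 1)) * (θs i - θs (2 * m + 1)) / φ (2 * m + 1 + 1)))
      = ∏ m ∈ range N, (-(((M : ℝ) - m) * (p - M - m) * (((I : ℝ) - m) * (q - I - m)))) /
    (((m : ℝ) + 1) * ((n : ℝ) - m) * fb (p + q - n) x m) := by
    apply prod_congr rfl
    intro m hm
    rw [mem_range] at hm
    have f1 := hf m (by omega)
    have f2 : (n : ℝ) - m ≠ 0 := cast_ne (by omega)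
    have f3 : (m : ℝ) + 1 ≠ 0 := by positivity
    rw [show 2 * m + 1 + 1 = 2 * m + 2 by ring, hφ1 m (by omega), hφ2 m (by omega), div_mul_div_comm,
      show (θ j - θ (2 * m)) * (θs i - θs (2 * m)) * ((θ j - θ (2 * m + 1)) * (θs i - θs (2 * m + 1)))
        = ((θ j - θ (2 * m)) * (θ j - θ (2 * m + 1))) * ((θs i - θs (2 * m)) * (θs i - θs (2 * m + 1))) by ring,
      hj1 m (by omega), hi1 m (by omega)]
    field_simp
  rw [e1, e2]
  ring

/-- `(-1)^i` on even and odd numbers -/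
theorem sgn_even (m : ℕ) : ((-1 : ℝ)) ^ (2 * m) = 1 := by rw [pow_mul]; norm_num

theorem sgn_odd (m : ℕ) : ((-1 : ℝ)) ^ (2 * m + 1) = -1 := by rw [pow_succ, sgn_even]; norm_num

section
variable {n : ℕ} {z : ℕ → ℝ} {e g a : ℝ}

theorem seq_even (hz : ∀ i, i ≤ 2 * n + 1 → z i = e + g * (-1) ^ i * (a - i)) (m : ℕ) (hm : m ≤ n) :
    z (2 * m) = e + g * (a - 2 * m) := by
  rw [hz (2 * m) (by omega), sgn_even]; push_cast; ring

theorem seq_odd (hz : ∀ i, i ≤ 2 * n + 1 → z i = e + g * (-1) ^ i * (a - i)) (m : ℕ) (hm : m ≤ n) :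
    z (2 * m + 1) = e - g * (a - 2 * m - 1) := by
  rw [hz (2 * m + 1) (by omega), sgn_odd]; push_cast; ring

/-- the differences at an even place -/
theorem diff_even (hz : ∀ i, i ≤ 2 * n + 1 → z i = e + g * (-1) ^ i * (a - i)) {M : ℕ} (hM : M ≤ n) :
    (∀ m, m ≤ n → z (2 * M) - z (2 * m) = -2 * g * ((M : ℝ) - m)) ∧
    (∀ m, m ≤ n → (z (2 * M) - z (2 * m)) * (z (2 * M) - z (2 * m + 1))
      = -4 * g ^ 2 * ((M - m) * ((a - 1 / 2) - M - m))) := by
  constructor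
  · intro m hm
    rw [seq_even hz M hM, seq_even hz m hm]; ring
  · intro m hm
    rw [seq_even hz M hM, seq_even hz m hm, seq_odd hz m hm]; ring

theorem diff_odd (hz : ∀ i, i ≤ 2 * n + 1 → z i = e + g * (-1) ^ i * (a - i)) {M : ℕ} (hM : M ≤ n) :
    (∀ m, m ≤ n → z (2 * M + 1) - z (2 * m) = -2 * g * (((a - 1 / 2) - M) - m)) ∧
    (∀ m, m ≤ n → (z (2 * M + 1) - z (2 * m)) * (z (2 * M + 1) - z (2 * m + 1))
      = -4 * g ^ 2 * ((M - m) * ((a - 1 / 2) - M - m))) := by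
  constructor
  · intro m hm
    rw [seq_odd hz M hM, seq_even hz m hm]; ring
  · intro m hm
    rw [seq_odd hz M hM, seq_even hz m hm, seq_odd hz m hm]; ring

theorem vsum (hz : ∀ i, i ≤ 2 * n + 1 → z i = e + g * (-1) ^ i * (a - i)) (h0 : z 0 ≠ z (2 * n + 1)) :
    ∀ m, m ≤ n → ∑ h ∈ range (2 * m), (z h - z (2 * n + 1 - h)) / (z 0 - z (2 * n + 1)) = 0 ∧
      ∑ h ∈ range (2 * m + 1), (z h - z (2 * n + 1 - h)) / (z 0 - z (2 * n + 1)) = 1 := by
  have hd : z 0 - z (2 * n + 1) = g * (2 * a - 2 * n - 1) := by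
    have h1 := seq_even hz 0 (Nat.zero_le _)
    rw [show 2 * 0 = 0 from rfl] at h1
    rw [h1, seq_odd hz n le_rfl]; push_cast; ring
  have hd0 : g * (2 * a - 2 * n - 1) ≠ 0 := by rw [← hd]; exact sub_ne_zero.2 h0
  have he : ∀ m, m ≤ n → (z (2 * m) - z (2 * n + 1 - 2 * m)) / (z 0 - z (2 * n + 1)) = 1 := by
    intro m hm
    rw [show 2 * n + 1 - 2 * m = 2 * (n - m) + 1 by omega, hd, seq_even hz m hm, seq_odd hz (n - m) (by omega)]
    rw [Nat.cast_sub hm, div_eq_one_iff_eq hd0]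
    ring
  have ho : ∀ m, m ≤ n → (z (2 * m + 1) - z (2 * n + 1 - (2 * m + 1))) / (z 0 - z (2 * n + 1)) = -1 := by
    intro m hm
    rw [show 2 * n + 1 - (2 * m + 1) = 2 * (n - m) by omega, hd, seq_odd hz m hm, seq_even hz (n - m) (by omega)]
    rw [Nat.cast_sub hm, div_eq_iff hd0]
    ring
  intro m
  induction m with
  | zero =>
    intro _
    constructor
    · simp
    · rw [sum_range_one]
      exact he 0 (Nat.zero_le _)
  | succ m ih =>
    intro hm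
    obtain ⟨h1, h2⟩ := ih (by omega)
    have h3 : ∑ h ∈ range (2 * (m + 1)), (z h - z (2 * n + 1 - h)) / (z 0 - z (2 * n + 1)) = 0 := by
      rw [show 2 * (m + 1) = 2 * m + 1 + 1 by ring, sum_range_succ, h2, ho m (by omega)]; ring
    refine ⟨h3, ?_⟩
    rw [sum_range_succ, h3, he (m + 1) hm]; ring

end

end Pool.Agent.H92BI
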