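import Pool.Agent.H92BI.Pair

set_option autoImplicit false

namespace Pool.Agent.H92BI

open Finset

theorem fb_pos {n m : ℕ} {κ q x : ℝ} (hm : m ≤ n) (hκ : (n : ℝ) < κ) (hq : 2 * (n : ℝ) < q)
    (hx : (κ + n) * q ≤ 2 * x) : 0 < fb (κ + q) x m := by
  have hm' : (m : ℝ) ≤ n := by exact_mod_cast hm
  have h0 : (0 : ℝ) ≤ m := by positivity
  have h1 : 0 < (κ + n - 2 * m) * (q - 2 * m) := mul_pos (by linarith) (by linarith)
  have h2 : 0 ≤ (m : ℝ) * (n - m) := mul_nonneg h0 (by linarith)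
  unfold fb
  nlinarith

section
variable {I n : ℕ} {κ q x : ℝ}

theorem r_pair (hI : I ≤ n) (hκ : (n : ℝ) < κ) (hq : 2 * (n : ℝ) < q)
    (hx : (κ + n) * q ≤ 2 * x) {m m' : ℕ} (hmm : m + m' ≤ I) :
    |gb (κ + q) x (q - I) (κ + I) m / fb (κ + q) x m * (gb (κ + q) x (q - I) (κ + I) m' / fb (κ + q) x m')| ≤ 1 := by
  have f1 := fb_pos (show m ≤ n by omega) hκ hq hx
  have f2 := fb_pos (show m' ≤ n by omega) hκ hq hx
  have hI' : (I : ℝ) ≤ n := by exact_mod_cast hI
  have h := P1 (m := m) (m' := m') (I := I) (n := n) (κ := κ) (u := q - I) (x := x) (by positivity) (by positivity)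
    (by exact_mod_cast hmm) hI' hκ.le (by linarith) (by rw [sub_add_cancel]; exact hx)
  rw [div_mul_div_comm, abs_div, div_le_one (abs_pos.2 (mul_pos f1 f2).ne'), abs_of_pos (mul_pos f1 f2)]
  unfold gb fb
  have e : κ + q = q - I + (κ + I) := by ring
  rw [e]
  exact h

theorem Tb_le (hI : I ≤ n) (hκ : (n : ℝ) < κ) (hq : 2 * (n : ℝ) < q)
    (hx : (κ + n) * q ≤ 2 * x) {M : ℕ} (hM : M ≤ I + 1) : |Tb (κ + q) x (q - I) (κ + I) M| ≤ 1 := by
  unfold Tb
  apply pair_prod (fun m => gb (κ + q) x (q - I) (κ + I) m / fb (κ + q) x m)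
  intro m hm
  exact r_pair hI hκ hq hx (by omega)

theorem Tb_mid (hI : I ≤ n) (hκ : (n : ℝ) < κ) (hq : 2 * (n : ℝ) < q)
    (hx : (κ + n) * q ≤ 2 * x) {M : ℕ} (hM : M + 1 ≤ I) :
    |∏ m ∈ range M, gb (κ + q) x (q - I) (κ + I) (m + 1) / fb (κ + q) x (m + 1)| ≤ 1 := by
  apply pair_prod (fun m => gb (κ + q) x (q - I) (κ + I) (m + 1) / fb (κ + q) x (m + 1))
  intro m hm
  exact r_pair hI hκ hq hx (by omega)

theorem Tb_last (hI : I ≤ n) (hκ : (n : ℝ) < κ) (hq : 2 * (n : ℝ) < q)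
    (hx : (κ + n) * q ≤ 2 * x) {M : ℕ} (hM : M ≤ I) :
    |Tb (κ + q) x (q - I) (κ + I) M * ((fb (κ + q) x M - (q - I) * (κ + n - 2 * M)) / fb (κ + q) x M)| ≤ 1 := by
  have hI' : (I : ℝ) ≤ n := by exact_mod_cast hI
  have hx0 := fb_pos (show 0 ≤ n by omega) hκ hq hx
  rw [fb_zero] at hx0
  cases M with
  | zero =>
    rw [fb_zero]
    have h1 : 0 ≤ (q - I) * (κ + n) := mul_nonneg (by linarith) (by linarith)
    have h2 : (q - I) * (κ + n) ≤ 2 * x := by
      have : 0 ≤ (I : ℝ) * (κ + n) := mul_nonneg (by positivity) (by linarith)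
      nlinarith
    unfold Tb
    rw [prod_range_zero, one_mul, abs_div, abs_of_pos hx0, div_le_one hx0, abs_le]
    push_cast
    constructor <;> linarith
  | succ M =>
    have f1 := fb_pos (show M + 1 ≤ n by omega) hκ hq hx
    have hM' : ((M + 1 : ℕ) : ℝ) ≤ I := by exact_mod_cast hM
    have h := P2 (M := ((M + 1 : ℕ) : ℝ)) (I := I) (n := n) (κ := κ) (u := q - I) (x := x) (by positivity) hM' hI'
      hκ.le (by linarith) (by rw [sub_add_cancel]; exact hx)
    unfold Tb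
    rw [prod_range_succ', mul_assoc, abs_mul]
    apply mul_le_one₀ (Tb_mid hI hκ hq hx hM) (abs_nonneg _)
    rw [fb_zero, div_mul_div_comm, abs_div, div_le_one (abs_pos.2 (mul_pos hx0 f1).ne'), abs_of_pos (mul_pos hx0 f1)]
    have e : q - I + (κ + I) = κ + q := by ring
    rw [e] at h
    unfold gb
    rw [fb_zero]
    have e2 : x - (q - I) * (κ + I - 2 * ((0 : ℕ) : ℝ)) = x - (q - I) * (κ + I) := by push_cast; ring
    rw [e2]
    unfold fb
    exact h

/-- the bound for the rows `2 I + 1` -/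
theorem odd_rows (hI : I ≤ n) (hκ : (n : ℝ) < κ) (hq : 2 * (n : ℝ) < q)
    (hx : (κ + n) * q ≤ 2 * x) :
    (∀ M, M ≤ n → |Lv I n (κ + n) (al I q (κ + q) x (q - I)) (be I q (κ + q) x (q - I)) M (κ + n - M)| ≤ 1) ∧
    (∀ M, M ≤ n → |Lv I n (κ + n) (al I q (κ + q) x (q - I)) (be I q (κ + q) x (q - I)) M M| ≤ 1) := by
  have hI' : (I : ℝ) ≤ n := by exact_mod_cast hI
  have hE : ∀ M, M ≤ I → Lv I I (κ + I) (al I q (κ + q) x (q - I)) (be I q (κ + q) x (q - I)) M M
      = Tb (κ + q) x (q - I) (κ + I) M := by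
    intro M hM
    have hM' : (M : ℝ) ≤ I := by exact_mod_cast hM
    rw [Lv_base _ _ _ _ _ _ _ hM]
    exact sumE (by ring) (by linarith) (fun m hm => (fb_pos (by omega) hκ hq hx).ne')
  have hB : ∀ M, M ≤ I → Bv I I (κ + I) (be I q (κ + q) x (q - I)) M
      = (q - I) / fb (κ + q) x M * Tb (κ + q) x (q - I) (κ + I) M := by
    intro M hM
    rw [Bv_base _ _ _ _ _ _ _ hM]
    exact sumB (by ring) (fun m hm => (fb_pos (by omega) hκ hq hx).ne')
  have hO : ∀ M, M ≤ I → Lv I I (κ + I) (al I q (κ + q) x (q - I)) (be I q (κ + q) x (q - I)) M (κ + I - M)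
      = Tb (κ + q) x (q - I) (κ + I) (M + 1) := by
    intro M hM
    have f1 := (fb_pos (show M ≤ n by omega) hκ hq hx).ne'
    have : κ + I - M = (M : ℝ) + (κ + I - 2 * M) := by ring
    rw [this, Lv_shift, hE M hM, hB M hM]
    unfold Tb
    rw [prod_range_succ]
    generalize ∏ m ∈ range M, gb (κ + q) x (q - I) (κ + I) m / fb (κ + q) x m = Q
    unfold gb
    field_simp
  apply levels hI hκ
  · intro M hM
    rw [hO M hM]
    refine ⟨Tb_le hI hκ hq hx (by omega), ?_⟩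
    have f1 := (fb_pos (show M ≤ n by omega) hκ hq hx).ne'
    have := Tb_last hI hκ hq hx hM
    rw [hB M hM]
    have e : Tb (κ + q) x (q - I) (κ + I) (M + 1) - (n - I) * ((q - I) / fb (κ + q) x M * Tb (κ + q) x (q - I) (κ + I) M)
        = Tb (κ + q) x (q - I) (κ + I) M * ((fb (κ + q) x M - (q - I) * (κ + n - 2 * M)) / fb (κ + q) x M) := by
      unfold Tb
      rw [prod_range_succ]
      generalize ∏ m ∈ range M, gb (κ + q) x (q - I) (κ + I) m / fb (κ + q) x m = Q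
      unfold gb
      field_simp
      ring
    rw [e]
    exact this
  · intro M hM
    rw [hE M hM]
    exact Tb_le hI hκ hq hx (by omega)

end

end Pool.Agent.H92BI
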