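import Pool.Agent.H92BI.Base

set_option autoImplicit false

namespace Pool.Agent.H92BI

open Finset

/-- the first pairing inequality -/
theorem P1 {m m' I n κ u x : ℝ} (h0 : 0 ≤ m) (h0' : 0 ≤ m') (hM : m + m' ≤ I) (hI : I ≤ n) (hκ : n ≤ κ)
    (hu : 2 * n - I ≤ u) (hx : (κ + n) * (u + I) ≤ 2 * x) :
    |((x - m * (u + (κ + I) - m)) - u * ((κ + I) - 2 * m)) * ((x - m' * (u + (κ + I) - m')) - u * ((κ + I) - 2 * m'))|
      ≤ (x - m * (u + (κ + I) - m)) * (x - m' * (u + (κ + I) - m')) := by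
  set v := κ + I with hv
  set X := 2 * x - u * v with hX
  set M := m + m' with hMd
  set D := m' - m with hD
  set E := v - M with hE
  set Z := X - M * v + (M ^ 2 + D ^ 2) / 2 with hZ
  have hI0 : 0 ≤ I := by linarith
  have hM0 : 0 ≤ M := by rw [hMd]; linarith
  have hX0 : I * (κ + n) + u * (n - I) ≤ X := by rw [hX, hv]; nlinarith
  have hu0 : 0 ≤ u := by linarith
  have hun : 0 ≤ u * (n - I) := mul_nonneg hu0 (by linarith)
  have hE0 : 0 ≤ E := by rw [hE, hv]; linarith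
  have hmm : 0 ≤ m * m' := mul_nonneg h0 h0'
  have e1 : (x - m * (u + v - m)) * (x - m' * (u + v - m'))
      - ((x - m * (u + v - m)) - u * (v - 2 * m)) * ((x - m' * (u + v - m')) - u * (v - 2 * m'))
      = u * (E * (X - M * v + 2 * (m * m'))) := by
    rw [hE, hX, hMd]; ring
  have e2 : (x - m * (u + v - m)) * (x - m' * (u + v - m'))
      + ((x - m * (u + v - m)) - u * (v - 2 * m)) * ((x - m' * (u + v - m')) - u * (v - 2 * m'))
      = (Z ^ 2 - D ^ 2 * E ^ 2 + u ^ 2 * (E ^ 2 - D ^ 2)) / 2 := by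
    rw [hZ, hE, hX, hMd, hD]; ring
  have k1 : 0 ≤ X - M * v := by
    have : M * v ≤ I * v := mul_le_mul_of_nonneg_right hM (by rw [hv]; linarith)
    have h3 : I * v ≤ I * (κ + n) := mul_le_mul_of_nonneg_left (by rw [hv]; linarith) hI0
    linarith
  have g1 : 0 ≤ u * (E * (X - M * v + 2 * (m * m'))) :=
    mul_nonneg hu0 (mul_nonneg hE0 (by linarith))
  -- second
  set U := 2 * n - I with hU
  have hDI : |D| ≤ I := by rw [hD, abs_le]; constructor <;> linarith
  obtain ⟨hD1, hD2⟩ := abs_le.1 hDI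
  have hZ1 : ∀ D' : ℝ, D' ^ 2 = D ^ 2 → D' ≤ I → -I ≤ D' → U * D' ≤ Z := by
    intro D' hsq h1 h2
    have a1 : M * v - M ^ 2 / 2 ≤ I * v - I ^ 2 / 2 := by
      have : 0 ≤ (I - M) * (v - (I + M) / 2) := mul_nonneg (by linarith) (by rw [hv]; linarith)
      nlinarith
    have a2 : (n - I) * (2 * n) ≤ I * (n - I) + u * (n - I) := by
      have : 0 ≤ (n - I) * (u - U) := mul_nonneg (by linarith) (by linarith)
      rw [hU] at this
      nlinarith
    have a3 : 0 ≤ (n - I) * (I - D') := mul_nonneg (by linarith) (by linarith)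
    have a4 : U * D' ≤ (n - I) * (2 * n) + (I ^ 2 + D' ^ 2) / 2 := by
      rw [hU]
      nlinarith [sq_nonneg (n - I), sq_nonneg (I - D')]
    have a5 : I * v = I * κ + I ^ 2 := by rw [hv]; ring
    rw [hZ, ← hsq]
    nlinarith
  have hZU : (U * D) ^ 2 ≤ Z ^ 2 := by
    apply sq_le_sq'
    · have := hZ1 (-D) (by ring) (by linarith) (by linarith)
      have := hZ1 D rfl hD2 hD1
      linarith
    · exact hZ1 D rfl hD2 hD1
  have hU0 : 0 ≤ U := by rw [hU]; linarith
  have hUI : I ≤ U := by rw [hU]; linarith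
  have c1 : 0 ≤ u ^ 2 - U ^ 2 := by nlinarith
  have c2 : 0 ≤ U ^ 2 - D ^ 2 := by
    have : D ^ 2 ≤ I ^ 2 := by rw [← sq_abs D]; exact pow_le_pow_left₀ (abs_nonneg _) hDI 2
    nlinarith
  have c3 : 0 ≤ E ^ 2 - D ^ 2 := by
    have h1 : D ^ 2 ≤ I ^ 2 := by rw [← sq_abs D]; exact pow_le_pow_left₀ (abs_nonneg _) hDI 2
    have h2 : I ≤ E := by rw [hE, hv]; linarith
    nlinarith
  have g2 : 0 ≤ Z ^ 2 - D ^ 2 * E ^ 2 + u ^ 2 * (E ^ 2 - D ^ 2) := by
    have d1 := mul_nonneg c1 c3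
    have d2 := mul_nonneg c2 (sq_nonneg E)
    nlinarith
  rw [abs_le]
  constructor
  · linarith
  · linarith

/-- the second pairing inequality -/
theorem P2 {M I n κ u x : ℝ} (hM0 : 0 ≤ M) (hM : M ≤ I) (hI : I ≤ n) (hκ : n ≤ κ)
    (hu : 2 * n - I ≤ u) (hx : (κ + n) * (u + I) ≤ 2 * x) :
    |(x - u * (κ + I)) * ((x - M * (u + (κ + I) - M)) - u * ((κ + n) - 2 * M))|
      ≤ x * (x - M * (u + (κ + I) - M)) := by
  set v := κ + I with hv
  set p := κ + n with hp
  set X := 2 * x - u * v with hX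
  set Y := X - (n - I) * u - 2 * M * (v - M) with hY
  have hI0 : 0 ≤ I := by linarith
  have hn0 : 0 ≤ n - I := by linarith
  have hu0 : 0 ≤ u := by linarith
  have hp2 : 0 ≤ p - 2 * M := by rw [hp]; linarith
  have hvp : v ≤ p := by rw [hv, hp]; linarith
  have hvM : 0 ≤ v - M := by rw [hv]; linarith
  have hv0 : 0 ≤ v := by linarith
  have hX0 : I * p + (n - I) * u ≤ X := by rw [hX, hv, hp]; rw [hp] at hx; nlinarith
  have e1 : x * (x - M * (u + v - M)) - (x - u * v) * ((x - M * (u + v - M)) - u * (p - 2 * M))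
      = u * (X * (p - 2 * M) + v * Y) / 2 := by
    rw [hY, hX, hp, hv]; ring
  have e2 : x * (x - M * (u + v - M)) + (x - u * v) * ((x - M * (u + v - M)) - u * (p - 2 * M))
      = (X * Y + u ^ 2 * v * (p - 2 * M)) / 2 := by
    rw [hY, hX, hp, hv]; ring
  have g1 : 0 ≤ X * (p - 2 * M) + v * Y := by
    have a1 : (I * p + (n - I) * u) * (p - 2 * M + v) ≤ X * (p - 2 * M + v) :=
      mul_le_mul_of_nonneg_right hX0 (by linarith)
    have a2 : 0 ≤ ((n - I) * u) * (p - 2 * M) := mul_nonneg (mul_nonneg hn0 hu0) hp2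
    have a3 : I * v * (2 * (v - M)) ≤ I * p * (p - 2 * M + v) :=
      mul_le_mul (mul_le_mul_of_nonneg_left hvp hI0) (by linarith) (by linarith) (mul_nonneg hI0 (by linarith))
    have a4 : M * (v * (2 * (v - M))) ≤ I * (v * (2 * (v - M))) :=
      mul_le_mul_of_nonneg_right hM (mul_nonneg hv0 (by linarith))
    rw [hY]
    nlinarith
  have g2 : 0 ≤ X * Y + u ^ 2 * v * (p - 2 * M) := by
    set X00 := I * p + (n - I) * u with hX00
    have hp0 : 0 ≤ p := by linarith
    have hX00p : 0 ≤ X00 := by rw [hX00]; exact add_nonneg (mul_nonneg hI0 hp0) (mul_nonneg hn0 hu0)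
    have b1 : M * (v - M) ≤ I * κ := by
      have : 0 ≤ (I - M) * (κ - M) := mul_nonneg (by linarith) (by linarith)
      rw [hv]; nlinarith
    set c := (n - I) * u + 2 * M * (v - M) with hc
    have b2 : 0 ≤ 2 * X00 - c := by
      have : 0 ≤ (n - I) * u := mul_nonneg hn0 hu0
      have h2 : I * κ ≤ I * p := mul_le_mul_of_nonneg_left (by rw [hp]; linarith) hI0
      rw [hX00, hc]; nlinarith
    have b3 : X00 * (X00 - c) ≤ X * Y := by
      have hYX : Y = X - c := by rw [hY, hc]; ring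
      rw [hYX]
      have : 0 ≤ (X - X00) * ((2 * X00 - c) + (X - X00)) := mul_nonneg (by linarith) (by linarith)
      nlinarith
    have b4 : -(I * (κ - n)) ≤ X00 - c := by
      rw [hX00, hc, hp]; nlinarith
    have b5 : X00 * (-(I * (κ - n))) ≤ X00 * (X00 - c) := mul_le_mul_of_nonneg_left b4 hX00p
    have b6 : κ - n ≤ p - 2 * M := by rw [hp]; linarith
    have b7 : u ^ 2 * v * (κ - n) ≤ u ^ 2 * v * (p - 2 * M) :=
      mul_le_mul_of_nonneg_left b6 (mul_nonneg (sq_nonneg u) hv0)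
    have hnu : n ≤ u := by linarith
    have b8 : I * X00 ≤ u ^ 2 * v := by
      rw [hX00, hp, hv]
      have c1 : 0 ≤ κ * (u ^ 2 - I ^ 2) := mul_nonneg (by linarith) (by nlinarith)
      have c2 : 0 ≤ I * (u * (u - n + I) - I * n) := by
        apply mul_nonneg hI0
        have : n * I ≤ u * (u - n + I) := mul_le_mul hnu (by linarith) hI0 hu0
        linarith
      nlinarith
    have b9 : (I * X00) * (κ - n) ≤ (u ^ 2 * v) * (κ - n) := mul_le_mul_of_nonneg_right b8 (by linarith)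
    nlinarith
  have g3 : 0 ≤ u * (X * (p - 2 * M) + v * Y) / 2 := by
    have := mul_nonneg hu0 g1
    linarith
  rw [abs_le]
  constructor
  · linarith
  · linarith

theorem pair_prod (r : ℕ → ℝ) (K : ℕ) (h : ∀ m, m < K → |r m * r (K - 1 - m)| ≤ 1) :
    |∏ m ∈ range K, r m| ≤ 1 := by
  have h1 : (∏ m ∈ range K, r m) ^ 2 = ∏ m ∈ range K, (r m * r (K - 1 - m)) := by
    rw [prod_mul_distrib, prod_range_reflect, sq]
  have h2 : |∏ m ∈ range K, r m| ^ 2 ≤ 1 := by
    rw [sq_abs, h1]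
    calc ∏ m ∈ range K, (r m * r (K - 1 - m)) ≤ |∏ m ∈ range K, (r m * r (K - 1 - m))| := le_abs_self _
      _ = ∏ m ∈ range K, |r m * r (K - 1 - m)| := abs_prod _ _
      _ ≤ 1 := prod_le_one (fun _ _ => abs_nonneg _) (fun m hm => h m (mem_range.1 hm))
  by_contra hcon
  push Not at hcon
  nlinarith [abs_nonneg (∏ m ∈ range K, r m)]

end Pool.Agent.H92BI
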