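import Pool.Agent.H92BI.Hill

set_option autoImplicit false

namespace Pool.Agent.H92BI

open Finset

theorem evenB1 {M r w j t y : ℝ} (hM : 0 ≤ M) (hr : 0 ≤ r) (hw : 0 ≤ w) (hj : 0 ≤ j) (ht : 0 ≤ t) (hy : 0 ≤ y) :
    0 ≤ (((2*r+j+t+2*M)+j)*((M+r+w)+(M+r))*(1/2)+y)*((((2*r+j+t+2*M)+j)*((M+r+w)+(M+r))*(1/2)+y)-M*((M+r+w)+(2*r+j+t+2*M)-M)) - (((((2*r+j+t+2*M)+j)*((M+r+w)+(M+r))*(1/2)+y)-M*((M+r+w)+(2*r+j+t+2*M)-M))*(((((2*r+j+t+2*M)+j)*((M+r+w)+(M+r))*(1/2)+y)-(M+r+w)*(2*r+j+t+2*M))+w*M)-((2*r+j+t+2*M)-2*M+j)*((M+r)*((((2*r+j+t+2*M)+j)*((M+r+w)+(M+r))*(1/2)+y)-(M+r+w)*(2*r+j+t+2*M))+w*M*((2*r+j+t+2*M)-M))) := by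
  have h : (((2*r+j+t+2*M)+j)*((M+r+w)+(M+r))*(1/2)+y)*((((2*r+j+t+2*M)+j)*((M+r+w)+(M+r))*(1/2)+y)-M*((M+r+w)+(2*r+j+t+2*M)-M)) - (((((2*r+j+t+2*M)+j)*((M+r+w)+(M+r))*(1/2)+y)-M*((M+r+w)+(2*r+j+t+2*M)-M))*(((((2*r+j+t+2*M)+j)*((M+r+w)+(M+r))*(1/2)+y)-(M+r+w)*(2*r+j+t+2*M))+w*M)-((2*r+j+t+2*M)-2*M+j)*((M+r)*((((2*r+j+t+2*M)+j)*((M+r+w)+(M+r))*(1/2)+y)-(M+r+w)*(2*r+j+t+2*M))+w*M*((2*r+j+t+2*M)-M)))
    = 6*M*j*r*t + 12*M*j*r*w + 17*M*j*r^2 + (9/2)*M*j*t*w + 1*M*j*w^2 + 3*M*j*y + 7*M*j^2*r + 4*M*j^2*w + 6*M*r*t*w + 1*M*r*t^2 + 1*M*r*w^2 + 6*M*r*y + 7*M*r^2*t + 8*M*r^2*w + 10*M*r^3 + (1/2)*M*t*w^2 + 2*M*t*y + 1*M*t^2*w + 1*M*w*y + 11*M^2*j*r + 2*M^2*j*t + 3*M^2*j*w + 3*M^2*j^2 + 3*M^2*r*t + 3*M^2*r*w + 8*M^2*r^2 + 1*M^2*t*w + 2*M^2*y + 2*M^3*j + 2*M^3*r + (7/2)*j*r*t*w + 3*j*r*w^2 + 3*j*r*y + 4*j*r^2*t + 7*j*r^2*w + 8*j*r^3 + (3/2)*j*t*w^2 + 1*j*w*y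 + 3*j^2*r*w + 4*j^2*r^2 + 1*j^2*w^2 + 2*r*t*w^2 + 2*r*t*y + 1*r*t^2*w + 2*r*w*y + 4*r^2*t*w + 1*r^2*t^2 + 2*r^2*w^2 + 4*r^2*y + 4*r^3*t + 4*r^3*w + 4*r^4 + 1*t*w*y + (1/2)*t^2*w^2 := by ring
  rw [h]
  positivity

theorem evenB2 {M r w j t y : ℝ} (hM : 0 ≤ M) (hr : 0 ≤ r) (hw : 0 ≤ w) (hj : 0 ≤ j) (ht : 0 ≤ t) (hy : 0 ≤ y) :
    0 ≤ (((2*r+j+t+2*M)+j)*((M+r+w)+(M+r))*(1/2)+y)*((((2*r+j+t+2*M)+j)*((M+r+w)+(M+r))*(1/2)+y)-M*((M+r+w)+(2*r+j+t+2*M)-M)) + (((((2*r+j+t+2*M)+j)*((M+r+w)+(M+r))*(1/2)+y)-M*((M+r+w)+(2*r+j+t+2*M)-M))*(((((2*r+j+t+2*M)+j)*((M+r+w)+(M+r))*(1/2)+y)-(M+r+w)*(2*r+j+t+2*M))+w*M)-((2*r+j+t+2*M)-2*M+j)*((M+r)*((((2*r+j+t+2*M)+j)*((M+r+w)+(M+r))*(1/2)+y)-(M+r+w)*(2*r+j+t+2*M))+w*M*((2*r+j+t+2*M)-M))) := by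
  have h : (((2*r+j+t+2*M)+j)*((M+r+w)+(M+r))*(1/2)+y)*((((2*r+j+t+2*M)+j)*((M+r+w)+(M+r))*(1/2)+y)-M*((M+r+w)+(2*r+j+t+2*M)-M)) + (((((2*r+j+t+2*M)+j)*((M+r+w)+(M+r))*(1/2)+y)-M*((M+r+w)+(2*r+j+t+2*M)-M))*(((((2*r+j+t+2*M)+j)*((M+r+w)+(M+r))*(1/2)+y)-(M+r+w)*(2*r+j+t+2*M))+w*M)-((2*r+j+t+2*M)-2*M+j)*((M+r)*((((2*r+j+t+2*M)+j)*((M+r+w)+(M+r))*(1/2)+y)-(M+r+w)*(2*r+j+t+2*M))+w*M*((2*r+j+t+2*M)-M)))
    = 4*M*j*r*t + 8*M*j*r*w + 15*M*j*r^2 + (1/2)*M*j*t*w + 1*M*j*w^2 + 3*M*j*y + 5*M*j^2*r + 2*M*j^2*w + 3*M*r*t*w + 1*M*r*t^2 + 1*M*r*w^2 + 4*M*r*y + 7*M*r^2*t + 6*M*r^2*w + 10*M*r^3 + (1/2)*M*t*w^2 + 1*M*w*y + 9*M^2*j*r + 3*M^2*j*w + 1*M^2*j^2 + 3*M^2*r*t + 3*M^2*r*w + 8*M^2*r^2 + 1*M^2*t*w + 2*M^2*y + 2*M^3*j + 2*M^3*r + (9/2)*j*r*t*w + 1*j*r*w^2 + 5*j*r*y + 4*j*r^2*t + 9*j*r^2*w + 8*j*r^3 + (1/2)*j*t*w^2 + 3*j*w*y + 5*j^2*r*w + 4*j^2*r^2 + 1*j^2*w^2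 + 2*r*t*y + 1*r*t^2*w + 2*r*w*y + 4*r^2*t*w + 1*r^2*t^2 + 4*r^2*y + 4*r^3*t + 4*r^3*w + 4*r^4 + 1*t*w*y + 2*y^2 := by ring
  rw [h]
  positivity

/-- the bracket for the rows `2 I`, `2 I ≤ q` -/
theorem evenB {M I n κ q x : ℝ} (hM : 0 ≤ M) (hMI : M ≤ I) (hI : I ≤ n) (hq : 2 * I ≤ q) (hκ : n ≤ κ)
    (hx : (κ + n) * q ≤ 2 * x) :
    |(x - M * (κ + q - M)) * ((x - (q - I) * (κ + I)) + (q - 2 * I) * M)
      - (κ + n - 2 * M) * (I * (x - (q - I) * (κ + I)) + (q - 2 * I) * M * (κ + I - M))|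
      ≤ x * (x - M * (κ + q - M)) := by
  have h1 := evenB1 (M := M) (r := I - M) (w := q - 2 * I) (j := n - I) (t := κ - n) (y := x - (κ + n) * q / 2)
    hM (by linarith) (by linarith) (by linarith) (by linarith) (by linarith)
  have h2 := evenB2 (M := M) (r := I - M) (w := q - 2 * I) (j := n - I) (t := κ - n) (y := x - (κ + n) * q / 2)
    hM (by linarith) (by linarith) (by linarith) (by linarith) (by linarith)
  have e1 : 2 * (I - M) + (n - I) + (κ - n) + 2 * M = κ + I := by ring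
  have e2 : M + (I - M) + (q - 2 * I) = q - I := by ring
  have e3 : M + (I - M) = I := by ring
  have e4 : (κ + I + (n - I)) * (q - I + I) * (1 / 2) + (x - (κ + n) * q / 2) = x := by ring
  rw [e1, e2, e3, e4] at h1 h2
  rw [abs_le]
  constructor
  · linarith
  · linarith

theorem evenB0 {M I n κ q x : ℝ} (hM : 0 ≤ M) (hMI : M ≤ I) (hI : I ≤ n) (hq : 2 * I ≤ q) (hκ : n ≤ κ)
    (hx : (κ + n) * q ≤ 2 * x) :
    |(x - (q - I) * (κ + I)) + (q - 2 * I) * M| ≤ x := by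
  have h1 : 0 ≤ (q - 2 * I) * (I - M) := mul_nonneg (by linarith) (by linarith)
  have h2 : 0 ≤ (q - I) * κ := mul_nonneg (by linarith) (by linarith)
  have h3 : 0 ≤ (q - 2 * I) * M := mul_nonneg (by linarith) hM
  have h4 : 0 ≤ (q - I) * (n - I) := mul_nonneg (by linarith) (by linarith)
  have h5 : 0 ≤ I * (κ + n) := mul_nonneg (by linarith) (by linarith)
  rw [abs_le]
  constructor
  · nlinarith
  · nlinarith

/-- the bracket for the rows `2 I`, `q ≤ 2 I` -/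
theorem evenA {u w j v M g : ℝ} (hu : 0 ≤ u) (hw : 0 ≤ w) (hj : 0 ≤ j) (hM : 0 < M) (hMI : M ≤ u + w)
    (hv : 2 * (u + w) + j ≤ v) (hg : u * j + w * (v + j) / 2 ≤ g) :
    |(g + (u - M) * (v - M)) * (g - w * M) - (v - 2 * M + j) * ((u + w) * g - w * (M * (v - M)))|
      ≤ g * |g - M * (v - M) + u * (M - j)| ∨
    |(g + (u - M) * (v - M)) * (g - w * M) - (v - 2 * M + j) * ((u + w) * g - w * (M * (v - M)))|
      ≤ g * (g + (u - M) * (v - M)) := by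
  set a := M * (v - M) with ha
  set b := v - M + j with hb
  set h := g - a + u * (M - j) with hh
  set R := b * (g - a) + u * a with hR
  set f := g + (u - M) * (v - M) with hf
  have hvM : 0 < v - M := by linarith
  have ha0 : 0 < a := mul_pos hM hvM
  have hb0 : 0 < b := by rw [hb]; linarith
  have hg0 : 0 ≤ g := by
    have h1 : 0 ≤ u * j := mul_nonneg hu hj
    have h2 : 0 ≤ w * (v + j) := mul_nonneg hw (by linarith)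
    linarith
  have e1 : (g + (u - M) * (v - M)) * (g - w * M) - (v - 2 * M + j) * ((u + w) * g - w * (M * (v - M)))
      = g * h - w * R := by
    rw [hh, hR, hb, ha]; ring
  rw [e1]
  have h2g : w * b ≤ 2 * g := by
    have h1 : 0 ≤ u * j := mul_nonneg hu hj
    have h2 : w * b ≤ w * (v + j) := mul_le_mul_of_nonneg_left (by rw [hb]; linarith) hw
    linarith
  rcases le_or_gt R 0 with hR0 | hR0
  · left
    -- 
    have hab : b * (M - j) ≤ a := by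
      have : 0 ≤ j * (v - 2 * M + j) := mul_nonneg hj (by linarith)
      rw [hb, ha]; nlinarith
    have hE : 0 ≤ (a - g) - u * (M - j) := by
      have h1 : 0 ≤ b * ((a - g) - u * (M - j)) := by
        have h2 : u * (b * (M - j)) ≤ u * a := mul_le_mul_of_nonneg_left hab hu
        have h3 : u * a ≤ b * (a - g) := by rw [hR] at hR0; linarith
        nlinarith
      exact nonneg_of_mul_nonneg_right h1 hb0
    have hh0 : h ≤ 0 := by rw [hh]; linarith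
    have key : 2 * (g * h) ≤ w * R := by
      have h1 : w * b * ((a - g) - u * (M - j)) ≤ 2 * g * ((a - g) - u * (M - j)) :=
        mul_le_mul_of_nonneg_right h2g hE
      have h2 : w * (u * (b * (M - j))) ≤ w * (u * a) :=
        mul_le_mul_of_nonneg_left (mul_le_mul_of_nonneg_left hab hu) hw
      rw [hh, hR]
      nlinarith
    have hwR : w * R ≤ 0 := mul_nonpos_of_nonneg_of_nonpos hw hR0
    rw [abs_of_nonpos hh0, abs_le]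
    constructor <;> linarith
  · right
    have hwR : 0 ≤ w * R := mul_nonneg hw hR0.le
    have hhf : h ≤ f := by
      have : 0 ≤ u * (v - 2 * M + j) := mul_nonneg hu (by linarith)
      rw [hh, hf, ha]; nlinarith
    have hghf : g * h ≤ g * f := mul_le_mul_of_nonneg_left hhf hg0
    have key : 0 ≤ g * (f + h) - w * R := by
      have e2 : b * (g * (f + h) - w * R) = (2 * g - w * b) * R + g * u * (b * (v - j) - 2 * a) := by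
        rw [hf, hh, hR, hb, ha]; ring
      have h1 : 0 ≤ (2 * g - w * b) * R := mul_nonneg (by linarith) hR0.le
      have h2 : 0 ≤ b * (v - j) - 2 * a := by
        have h3 : 0 ≤ (v - M) * (v - j - 2 * M) := mul_nonneg hvM.le (by linarith)
        have h4 : 0 ≤ j * (v - j) := mul_nonneg hj (by linarith)
        rw [hb, ha]; nlinarith
      have h3 : 0 ≤ g * u * (b * (v - j) - 2 * a) := mul_nonneg (mul_nonneg hg0 hu) h2
      have h4 : 0 ≤ b * (g * (f + h) - w * R) := by rw [e2]; linarith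
      exact nonneg_of_mul_nonneg_right h4 hb0
    rw [abs_le]
    constructor <;> linarith

/-- pairing inequality, second version -/
theorem P1' {m m' I n κ u x : ℝ} (h0 : 0 ≤ m) (h0' : 0 ≤ m') (hM : m + m' ≤ I) (hI : I ≤ n) (hκ : n ≤ κ)
    (hDu : |m' - m| ≤ u) (hx : (κ + n) * (u + I) ≤ 2 * x) :
    |((x - m * (u + (κ + I) - m)) - u * ((κ + I) - 2 * m)) * ((x - m' * (u + (κ + I) - m')) - u * ((κ + I) - 2 * m'))|
      ≤ (x - m * (u + (κ + I) - m)) * (x - m' * (u + (κ + I) - m')) := by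
  set v := κ + I with hv
  set X := 2 * x - u * v with hX
  set M := m + m' with hMd
  set D := m' - m with hD
  set E := v - M with hE
  set Z := X - M * v + (M ^ 2 + D ^ 2) / 2 with hZ
  have hI0 : 0 ≤ I := by linarith
  have hM0 : 0 ≤ M := by rw [hMd]; linarith
  have hu0 : 0 ≤ u := le_trans (abs_nonneg _) hDu
  have hX0 : I * (κ + n) + u * (n - I) ≤ X := by rw [hX, hv]; nlinarith
  have hun : 0 ≤ u * (n - I) := mul_nonneg hu0 (by linarith)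
  have hE0 : 0 ≤ E := by rw [hE, hv]; linarith
  have hmm : 0 ≤ m * m' := mul_nonneg h0 h0'
  have e1 : (x - m * (u + v - m)) * (x - m' * (u + v - m'))
      - ((x - m * (u + v - m)) - u * (v - 2 * m)) * ((x - m' * (u + v - m')) - u * (v - 2 * m'))
      = u * (E * (X - M * v + 2 * (m * m'))) := by
    rw [hE, hX, hMd]; ring
  have e2 : (x - m * (u + v - m)) * (x - m' * (u + v - m'))
      + ((x - m * (u + v - m)) - u * (v - 2 * m)) * ((x - m' * (u + v - m')) - u * (v - 2 * m'))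
      = (Z ^ 2 - D ^ 2 * E ^ 2 + u ^ 2 * (E ^ 2 - D ^ 2)) / 2 := by
    rw [hZ, hE, hX, hMd, hD]; ring
  have k1 : 0 ≤ X - M * v := by
    have : M * v ≤ I * v := mul_le_mul_of_nonneg_right hM (by rw [hv]; linarith)
    have h3 : I * v ≤ I * (κ + n) := mul_le_mul_of_nonneg_left (by rw [hv]; linarith) hI0
    linarith
  have g1 : 0 ≤ u * (E * (X - M * v + 2 * (m * m'))) :=
    mul_nonneg hu0 (mul_nonneg hE0 (by linarith))
  have hDM : |D| ≤ M := by rw [hD, hMd, abs_le]; constructor <;> linarith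
  have hDM2 : D ^ 2 ≤ M ^ 2 := by rw [← sq_abs D]; exact pow_le_pow_left₀ (abs_nonneg _) hDM 2
  have hZD : D ^ 2 ≤ Z := by rw [hZ]; linarith
  have hZ2 : (D ^ 2) ^ 2 ≤ Z ^ 2 := pow_le_pow_left₀ (sq_nonneg D) hZD 2
  have hME : M ≤ E := by rw [hE, hv]; linarith
  have c2 : 0 ≤ u ^ 2 - D ^ 2 := by
    have : D ^ 2 ≤ u ^ 2 := by rw [← sq_abs D]; exact pow_le_pow_left₀ (abs_nonneg _) hDu 2
    linarith
  have c3 : 0 ≤ E ^ 2 - D ^ 2 := by nlinarith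
  have g2 : 0 ≤ Z ^ 2 - D ^ 2 * E ^ 2 + u ^ 2 * (E ^ 2 - D ^ 2) := by
    have d1 := mul_nonneg c2 c3
    nlinarith
  rw [abs_le]
  constructor
  · linarith
  · linarith

end Pool.Agent.H92BI
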