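import Pool.Agent.H92BI.Even2

set_option autoImplicit false

namespace Pool.Agent.H92BI

open Finset

section
variable {n : ℕ} {κ q x : ℝ}

theorem Lv0 (I n : ℕ) (v q σ x y c : ℝ) :
    Lv I n v (al I q σ x y) (be I q σ x y) 0 c = 1 - c * y / x := by
  rw [Lv_zero]
  unfold al be Rr
  rw [prod_range_zero, fb_zero]
  push_cast
  ring

/-- rows `2 I + 1` in the mixed case -/
theorem odd_rows_AB (hκ : (n : ℝ) < κ) (hq1 : (n : ℝ) < q) (hq2 : q < 2 * n) (hx : (κ + n) * q ≤ 2 * x)
    (hf : ∀ m, m ≤ n → fb (κ + q) x m ≠ 0)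
    (hdd : |Tb (κ + q) x (q - n) (κ + n) (n + 1)| ≤ 1) {I : ℕ} (hI : I ≤ n) :
    (∀ M, M ≤ n → |Lv I n (κ + n) (al I q (κ + q) x (q - I)) (be I q (κ + q) x (q - I)) M (κ + n - M)| ≤ 1) ∧
    (∀ M, M ≤ n → |Lv I n (κ + n) (al I q (κ + q) x (q - I)) (be I q (κ + q) x (q - I)) M M| ≤ 1) := by
  have hI' : (I : ℝ) ≤ n := by exact_mod_cast hI
  have hE : ∀ M, M ≤ I → Lv I I (κ + I) (al I q (κ + q) x (q - I)) (be I q (κ + q) x (q - I)) M M
      = Tb (κ + q) x (q - I) (κ + I) M := by
    intro M hM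
    have hM' : (M : ℝ) ≤ I := by exact_mod_cast hM
    rw [Lv_base _ _ _ _ _ _ _ hM]
    exact sumE (by ring) (by linarith) (fun m hm => hf m (by omega))
  have hB : ∀ M, M ≤ I → Bv I I (κ + I) (be I q (κ + q) x (q - I)) M
      = (q - I) / fb (κ + q) x M * Tb (κ + q) x (q - I) (κ + I) M := by
    intro M hM
    rw [Bv_base _ _ _ _ _ _ _ hM]
    exact sumB (by ring) (fun m hm => hf m (by omega))
  apply base_levels hI hκ
  · intro M hM
    rw [hE M hM]
    exact Tb_le' hκ hq1 hq2 hx hf hdd hI (by omega)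
  · intro M hM
    have f1 := hf M (by omega)
    have h := Tb_last' hκ hq1 hq2 hx hf hdd hI hM
    have e : κ + n - M = (M : ℝ) + (κ + n - 2 * M) := by ring
    rw [e, Lv_shift, hE M hM, hB M hM]
    have e2 : Tb (κ + q) x (q - I) (κ + I) M - (κ + n - 2 * M) * ((q - I) / fb (κ + q) x M * Tb (κ + q) x (q - I) (κ + I) M)
        = Tb (κ + q) x (q - I) (κ + I) M * ((fb (κ + q) x M - (q - I) * (κ + n - 2 * M)) / fb (κ + q) x M) := by
      field_simp
    rw [e2]
    exact h

/-- rows `2 I` in the mixed case -/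
theorem even_rows_AB (hκ : (n : ℝ) < κ) (hq1 : (n : ℝ) < q) (hq2 : q < 2 * n) (hx : (κ + n) * q ≤ 2 * x)
    (hf : ∀ m, m ≤ n → fb (κ + q) x m ≠ 0)
    (hdd : |Tb (κ + q) x (q - n) (κ + n) (n + 1)| ≤ 1) {I : ℕ} (hI : I ≤ n) :
    (∀ M, M ≤ n → |Lv I n (κ + n) (al I q (κ + q) x I) (be I q (κ + q) x I) M (κ + n - M)| ≤ 1) ∧
    (∀ M, M ≤ n → |Lv I n (κ + n) (al I q (κ + q) x I) (be I q (κ + q) x I) M M| ≤ 1) := by
  have hI' : (I : ℝ) ≤ n := by exact_mod_cast hI
  have hI0 : (0 : ℝ) ≤ I := by positivity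
  have hn0 : (0 : ℝ) ≤ n := by positivity
  have hx0 : 0 < x := by
    have : 0 < (κ + n) * q := mul_pos (by linarith) (by linarith)
    linarith
  -- the first column
  have hzero : ∀ c : ℝ, 0 ≤ c → c ≤ κ + n → |1 - c * I / x| ≤ 1 := by
    intro c h1 h2
    have h3 : 0 ≤ c * I / x := div_nonneg (mul_nonneg h1 hI0) hx0.le
    have h4 : c * I / x ≤ 2 := by
      rw [div_le_iff₀ hx0]
      have : c * I ≤ (κ + n) * q := mul_le_mul h2 (by linarith) hI0 (by linarith)
      linarith
    rw [abs_le]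
    constructor <;> linarith
  rcases le_or_gt (2 * (I : ℝ)) q with hcase | hcase
  · -- `2 I ≤ q`
    have hQ : ∀ k, k + 1 ≤ I → |Qb (κ + q) x (q - I) (κ + I) k| ≤ 1 := by
      intro k hk
      unfold Qb
      apply pair_prod (fun m => gb (κ + q) x (q - I) (κ + I) (m + 1) / fb (κ + q) x (m + 1))
      intro m hm
      have a1 : m + 1 ≤ I := by omega
      have a2 : k - 1 - m + 1 ≤ I := by omega
      have a1' : ((m + 1 : ℕ) : ℝ) ≤ I := by exact_mod_cast a1
      have a2' : ((k - 1 - m + 1 : ℕ) : ℝ) ≤ I := by exact_mod_cast a2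
      have a3' : ((m + 1 : ℕ) : ℝ) + ((k - 1 - m + 1 : ℕ) : ℝ) ≤ I := by
        exact_mod_cast (by omega : (m + 1) + (k - 1 - m + 1) ≤ I)
      have a4 : (0 : ℝ) ≤ ((m + 1 : ℕ) : ℝ) := by positivity
      have a5 : (0 : ℝ) ≤ ((k - 1 - m + 1 : ℕ) : ℝ) := by positivity
      have h := P1' (m := ((m + 1 : ℕ) : ℝ)) (m' := ((k - 1 - m + 1 : ℕ) : ℝ)) (I := I) (n := n) (κ := κ)
        (u := q - I) (x := x) a4 a5 a3' hI' hκ.le
        (by rw [abs_le]; constructor <;> linarith) (by rw [sub_add_cancel]; exact hx)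
      have f1 := hf (m + 1) (by omega)
      have f2 := hf (k - 1 - m + 1) (by omega)
      show |gb (κ + q) x (q - I) (κ + I) (m + 1) / fb (κ + q) x (m + 1) *
        (gb (κ + q) x (q - I) (κ + I) (k - 1 - m + 1) / fb (κ + q) x (k - 1 - m + 1))| ≤ 1
      rw [div_mul_div_comm, abs_div, div_le_one (abs_pos.2 (mul_ne_zero f1 f2))]
      refine le_trans ?_ (le_abs_self _)
      unfold gb fb
      have e : κ + q = q - I + (κ + I) := by ring
      rw [e]
      exact h
    have hfn : ∀ k, k + 1 ≤ I → 0 < fb (κ + q) x (k + 1) := by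
      intro k hk
      have f1 := hf (k + 1) (by omega)
      have a1' : ((k + 1 : ℕ) : ℝ) ≤ I := by exact_mod_cast hk
      have a0 : (0 : ℝ) ≤ ((k + 1 : ℕ) : ℝ) := by positivity
      have h := evenB (M := ((k + 1 : ℕ) : ℝ)) (I := I) (n := n) (κ := κ) (q := q) (x := x) a0 a1' hI' hcase hκ.le hx
      have h2 : 0 ≤ x * (x - ((k + 1 : ℕ) : ℝ) * (κ + q - ((k + 1 : ℕ) : ℝ))) := le_trans (abs_nonneg _) h
      have h3 : 0 ≤ fb (κ + q) x (k + 1) := nonneg_of_mul_nonneg_right (by unfold fb; exact h2) hx0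
      exact lt_of_le_of_ne h3 (Ne.symm f1)
    apply base_levels hI hκ
    · intro M hM
      cases M with
      | zero =>
        rw [Lv0]
        exact hzero _ (by push_cast; exact le_rfl) (by push_cast; linarith)
      | succ k =>
        have hM' : ((k + 1 : ℕ) : ℝ) ≤ I := by exact_mod_cast hM
        rw [even_vals hM (by linarith) (fun m hm => hf m (by omega))]
        have hfk := hfn k hM
        have h := evenB0 (M := ((k + 1 : ℕ) : ℝ)) (I := I) (n := n) (κ := κ) (q := q) (x := x) (by positivity) hM' hI' hcase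
          hκ.le hx
        have e : Qb (κ + q) x (q - I) (κ + I) k / (x * fb (κ + q) x (k + 1)) *
            (fb (κ + q) x (k + 1) * (x - (q - I) * (κ + I) + (q - 2 * I) * ((k + 1 : ℕ) : ℝ)) -
              (((k + 1 : ℕ) : ℝ) - ((k + 1 : ℕ) : ℝ)) * (I * (x - (q - I) * (κ + I)) + (q - 2 * I) * ((k + 1 : ℕ) : ℝ) * (κ + I - ((k + 1 : ℕ) : ℝ))))
            = Qb (κ + q) x (q - I) (κ + I) k * ((x - (q - I) * (κ + I) + (q - 2 * I) * ((k + 1 : ℕ) : ℝ)) / x) := by
          field_simp
          ring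
        rw [e, abs_mul]
        apply mul_le_one₀ (hQ k hM) (abs_nonneg _)
        rw [abs_div, abs_of_pos hx0, div_le_one hx0]
        exact h
    · intro M hM
      cases M with
      | zero =>
        rw [Lv0]
        push_cast
        exact hzero _ (by linarith) (by linarith)
      | succ k =>
        have hM' : ((k + 1 : ℕ) : ℝ) ≤ I := by exact_mod_cast hM
        rw [even_vals hM (by linarith) (fun m hm => hf m (by omega))]
        have hfk := hfn k hM
        have h := evenB (M := ((k + 1 : ℕ) : ℝ)) (I := I) (n := n) (κ := κ) (q := q) (x := x) (by positivity) hM' hI' hcase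
          hκ.le hx
        rw [div_mul_eq_mul_div, mul_div_assoc, abs_mul]
        apply mul_le_one₀ (hQ k hM) (abs_nonneg _)
        have hpos : 0 < x * fb (κ + q) x (k + 1) := mul_pos hx0 hfk
        rw [abs_div, abs_of_pos hpos, div_le_one hpos]
        unfold fb
        have e : κ + n - ((k + 1 : ℕ) : ℝ) - ((k + 1 : ℕ) : ℝ) = κ + n - 2 * ((k + 1 : ℕ) : ℝ) := by ring
        rw [e]
        exact h
  · -- `q < 2 I`
    have hg : (q - I) * (n - I) + (2 * I - q) * (κ + I + (n - I)) / 2 ≤ x - (q - I) * (κ + I) := by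
      nlinarith
    have hu0 : 0 ≤ q - I := by linarith
    have hg0 : 0 ≤ x - (q - I) * (κ + I) := by
      have h1 : 0 ≤ (q - I) * (n - I) := mul_nonneg hu0 (by linarith)
      have h2 : 0 ≤ (2 * I - q) * (κ + I + (n - I)) := mul_nonneg (by linarith) (by linarith)
      linarith
    have hTQ : ∀ k, k + 1 ≤ I → |Qb (κ + q) x (q - I) (κ + I) k| * (x - (q - I) * (κ + I)) / x ≤ 1 := by
      intro k hk
      have h := Tb_le' hκ hq1 hq2 hx hf hdd hI (show k + 1 ≤ I + 1 by omega)
      have e0 : gb (κ + q) x (q - I) (κ + I) 0 = x - (q - I) * (κ + I) := by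
        unfold gb; rw [fb_zero]; push_cast; ring
      rw [Tb_Qb, e0, abs_div, abs_mul, abs_of_pos hx0, abs_of_nonneg hg0] at h
      exact h
    apply base_levels hI hκ
    · intro M hM
      cases M with
      | zero =>
        rw [Lv0]
        exact hzero _ (by push_cast; exact le_rfl) (by push_cast; linarith)
      | succ k =>
        have hM' : ((k + 1 : ℕ) : ℝ) ≤ I := by exact_mod_cast hM
        have hM0 : (0 : ℝ) ≤ ((k + 1 : ℕ) : ℝ) := by positivity
        rw [even_vals hM (by linarith) (fun m hm => hf m (by omega))]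
        have hfk := hf (k + 1) (by omega)
        have e : Qb (κ + q) x (q - I) (κ + I) k / (x * fb (κ + q) x (k + 1)) *
            (fb (κ + q) x (k + 1) * (x - (q - I) * (κ + I) + (q - 2 * I) * ((k + 1 : ℕ) : ℝ)) -
              (((k + 1 : ℕ) : ℝ) - ((k + 1 : ℕ) : ℝ)) * (I * (x - (q - I) * (κ + I)) + (q - 2 * I) * ((k + 1 : ℕ) : ℝ) * (κ + I - ((k + 1 : ℕ) : ℝ))))
            = Qb (κ + q) x (q - I) (κ + I) k * (x - (q - I) * (κ + I) + (q - 2 * I) * ((k + 1 : ℕ) : ℝ)) / x := by
          field_simp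
          ring
        rw [e, abs_div, abs_mul, abs_of_pos hx0]
        refine le_trans ?_ (hTQ k hM)
        apply div_le_div_of_nonneg_right _ hx0.le
        apply mul_le_mul_of_nonneg_left _ (abs_nonneg _)
        -- `w M ≤ 2 γ`
        have h1 : (2 * I - q) * ((k + 1 : ℕ) : ℝ) ≤ (2 * I - q) * (κ + I + (n - I)) :=
          mul_le_mul_of_nonneg_left (by linarith) (by linarith)
        have h2 : 0 ≤ (q - I) * (n - I) := mul_nonneg hu0 (by linarith)
        have h3 : 0 ≤ (2 * I - q) * ((k + 1 : ℕ) : ℝ) := mul_nonneg (by linarith) hM0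
        rw [abs_le]
        constructor <;> nlinarith
    · intro M hM
      cases M with
      | zero =>
        rw [Lv0]
        push_cast
        exact hzero _ (by linarith) (by linarith)
      | succ k =>
        have hM' : ((k + 1 : ℕ) : ℝ) ≤ I := by exact_mod_cast hM
        have hM0 : (0 : ℝ) < ((k + 1 : ℕ) : ℝ) := by positivity
        rw [even_vals hM (by linarith) (fun m hm => hf m (by omega))]
        have hfk := hf (k + 1) (by omega)
        have hfp : 0 < |fb (κ + q) x (k + 1)| := abs_pos.2 hfk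
        have hA := evenA (u := q - I) (w := 2 * I - q) (j := n - I) (v := κ + I) (M := ((k + 1 : ℕ) : ℝ))
          (g := x - (q - I) * (κ + I)) hu0 (by linarith) (by linarith) hM0 (by linarith) (by linarith) hg
        have ef : x - (q - I) * (κ + I) + (q - I - ((k + 1 : ℕ) : ℝ)) * (κ + I - ((k + 1 : ℕ) : ℝ)) = fb (κ + q) x (k + 1) := by
          unfold fb; ring
        have eh : x - (q - I) * (κ + I) - ((k + 1 : ℕ) : ℝ) * (κ + I - ((k + 1 : ℕ) : ℝ)) + (q - I) * (((k + 1 : ℕ) : ℝ) - (n - I))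
            = fb (κ + q) x (k + 1) - (q - I) * (κ + n - 2 * ((k + 1 : ℕ) : ℝ)) := by
          unfold fb; ring
        have eb : (fb (κ + q) x (k + 1) * (x - (q - I) * (κ + I) + (q - 2 * I) * ((k + 1 : ℕ) : ℝ)) -
              (κ + n - ((k + 1 : ℕ) : ℝ) - ((k + 1 : ℕ) : ℝ)) * (I * (x - (q - I) * (κ + I)) + (q - 2 * I) * ((k + 1 : ℕ) : ℝ) * (κ + I - ((k + 1 : ℕ) : ℝ))))
            = fb (κ + q) x (k + 1) * (x - (q - I) * (κ + I) - (2 * I - q) * ((k + 1 : ℕ) : ℝ)) -
              (κ + I - 2 * ((k + 1 : ℕ) : ℝ) + (n - I)) * ((q - I + (2 * I - q)) * (x - (q - I) * (κ + I)) -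
                (2 * I - q) * (((k + 1 : ℕ) : ℝ) * (κ + I - ((k + 1 : ℕ) : ℝ)))) := by
          ring
        rw [ef, eh] at hA
        rw [eb]
        rw [abs_mul, abs_div, abs_mul, abs_of_pos hx0]
        rcases hA with hA | hA
        · have hT := Tb_last' hκ hq1 hq2 hx hf hdd hI hM
          have e0 : gb (κ + q) x (q - I) (κ + I) 0 = x - (q - I) * (κ + I) := by
            unfold gb; rw [fb_zero]; push_cast; ring
          rw [Tb_Qb, e0, abs_mul, abs_div, abs_mul, abs_of_pos hx0, abs_of_nonneg hg0, abs_div] at hT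
          refine le_trans ?_ hT
          rw [div_mul_eq_mul_div, div_mul_div_comm]
          apply div_le_div_of_nonneg_right _ (mul_pos hx0 hfp).le
          have := mul_le_mul_of_nonneg_left hA (abs_nonneg (Qb (κ + q) x (q - I) (κ + I) k))
          linarith
        · refine le_trans ?_ (hTQ k hM)
          rw [div_mul_eq_mul_div, div_le_div_iff₀ (mul_pos hx0 hfp) hx0]
          have h1 : (x - (q - I) * (κ + I)) * fb (κ + q) x (k + 1) ≤ (x - (q - I) * (κ + I)) * |fb (κ + q) x (k + 1)| :=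
            mul_le_mul_of_nonneg_left (le_abs_self _) hg0
          have h2 := mul_le_mul_of_nonneg_left (le_trans hA h1) (abs_nonneg (Qb (κ + q) x (q - I) (κ + I) k))
          have h3 := mul_le_mul_of_nonneg_right h2 hx0.le
          linarith

end

end Pool.Agent.H92BI
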