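import Pool.Agent.H92LS.Core

set_option autoImplicit false

namespace Pool.Agent.H92BI

open Finset Pool.Agent.H92LS

theorem S_two : ∀ m : ℕ, S 2 m = m := by
  intro m
  induction m using Nat.twoStepInduction with
  | zero => simp [S_zero]
  | one => simp [S_one]
  | more m ih1 ih2 =>
    rw [S_rec, ih1, ih2]
    push_cast
    ring

/-- the balanced terminating sum -/
theorem saal (A C x : ℝ) (M : ℕ) (hF : ∀ m : ℕ, m < M → x - m * (A + C - 1 - m) ≠ 0) :
    ∑ N ∈ range (M + 1), ∏ m ∈ range N,
      (-(((M : ℝ) - m) * (A - M - m) * (C - m))) / (((m : ℝ) + 1) * (x - m * (A + C - 1 - m)))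
    = ∏ m ∈ range M, (x - m * (A + C - 1 - m) - C * (A - 1 - 2 * m)) / (x - m * (A + C - 1 - m)) := by
  set k : ℕ → ℝ := fun m => A - m with hk
  set l : ℕ → ℝ := fun m => C + M - m with hl
  have hkR : Rc 2 k := by intro m; simp only [hk]; push_cast; ring
  have hlR : Rc 2 l := by intro m; simp only [hl]; push_cast; ring
  have hFs : ∀ m, Fs k l M (-x) m = -(x - m * (A + C - 1 - m)) := by
    intro m
    simp only [Fs, hk, hl]
    push_cast
    ring
  have h := v_prod hkR hlR (-x) (D := M) (b := 0) (fun m h1 _ => by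
      rw [S_two]; exact_mod_cast (by omega : m ≠ 0))
    (fun m h1 => by
      rw [show M + 0 = M from rfl, hFs]
      exact neg_ne_zero.2 (hF m (by omega))) M le_rfl
  rw [show M + 0 = M from rfl] at h
  have e1 : v 2 k l (Fs k l M (-x)) M 0 M M = ∑ N ∈ range (M + 1), ∏ m ∈ range N,
      (-(((M : ℝ) - m) * (A - M - m) * (C - m))) / (((m : ℝ) + 1) * (x - m * (A + C - 1 - m))) := by
    unfold v
    apply sum_congr rfl
    intro N hN
    rw [mem_range] at hN
    apply prod_congr rfl
    intro m hm
    rw [mem_range] at hm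
    have hmM : m < M := by omega
    have hx := hF m hmM
    rw [hFs, S_two, S_two]
    simp only [hk, hl]
    rw [Nat.cast_sub hmM.le]
    push_cast
    have h1 : (M : ℝ) - m ≠ 0 := by
      have : (m : ℝ) < M := by exact_mod_cast hmM
      linarith
    have h2 : (m : ℝ) + 1 ≠ 0 := by positivity
    rw [div_eq_div_iff (by
      apply mul_ne_zero (mul_ne_zero h1 h2) (neg_ne_zero.2 hx)) (mul_ne_zero h2 hx)]
    ring
  have e2 : T (Fs k l M (-x)) (Gs k l M (-x)) M M = ∏ m ∈ range M,
      (x - m * (A + C - 1 - m) - C * (A - 1 - 2 * m)) / (x - m * (A + C - 1 - m)) := by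
    unfold T
    apply prod_congr rfl
    intro m hm
    rw [mem_range] at hm
    have hx := hF m hm
    rw [hFs]
    have hG : Gs k l M (-x) (M - m) = -(x - m * (A + C - 1 - m) - C * (A - 1 - 2 * m)) := by
      simp only [Gs, hk, hl]
      rw [show M + 1 - (M - m) = m + 1 by omega, Nat.cast_sub hm.le]
      push_cast
      ring
    rw [hG, neg_div_neg_eq]
  rw [← e1, ← e2, h]

end Pool.Agent.H92BI
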